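import Pool.Agent.Lib.MP_610fe3_an.AC.Spec
import Pool.Agent.Lib.MP_610fe3_an.PR.AD
import Pool.Agent.Lib.MP_610fe3_an.PR.KALON

/-!
# Module ADON: the distortion on the unstable bundle over an attractor

As PR/AD.lean, with `PR.kalOn` for `A = Att f U` in the place of KAL.
-/

open Set Filter Function
open scoped Topology

namespace Pool.Agent.Lib.MP610fe3.AC

open Cf H6 T4 T6

universe v w

open PR PR.ADM in
theorem specAdOn (hKal : PR.SpecKal.{v, w}) : SpecAdOn.{v, w} := by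
  intro M _ _ W _ _ _ J f S hS C β hβ hβ1 hD hDi hU hf T₀ hT κ hper
  obtain ⟨K₀, hK₀⟩ := S.bdd
  obtain ⟨K₁, hK₁1, hK₁⟩ := exists_norm_bound S.hD.cont
  obtain ⟨K₂, hK₂1, hK₂⟩ := exists_norm_bound S.hDi.cont
  -- one constant for everything
  obtain ⟨K, hK1, hKU, hKD, hKDi, hCK⟩ : ∃ K : ℝ, 1 ≤ K ∧ (∀ x, ‖S.U x‖ ≤ K) ∧
      (∀ x, ‖S.D x‖ ≤ K) ∧ (∀ x, ‖S.Di x‖ ≤ K) ∧ C ≤ K := by
    refine ⟨max (max K₀ C) (max K₁ K₂), ?_, fun x => ?_, fun x => ?_, fun x => ?_, ?_⟩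
    · exact hK₁1.trans ((le_max_left _ _).trans (le_max_right _ _))
    · exact (hK₀ x).2.trans ((le_max_left _ _).trans (le_max_left _ _))
    · exact (hK₁ x).trans ((le_max_left _ _).trans (le_max_right _ _))
    · exact (hK₂ x).trans ((le_max_right _ _).trans (le_max_right _ _))
    · exact (le_max_right _ _).trans (le_max_left _ _)
  have hK0 : 0 ≤ K := by linarith
  have hd0 : ∀ x y : M, 0 ≤ dist x y ^ β := fun x y => Real.rpow_nonneg dist_nonneg _
  have hD' : ∀ x y, ‖S.D x - S.D y‖ ≤ K * dist x y ^ β := fun x y =>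
    (hD x y).trans (mul_le_mul_of_nonneg_right hCK (hd0 x y))
  have hU' : ∀ x y, ‖S.U x - S.U y‖ ≤ K * dist x y ^ β := fun x y =>
    (hU x y).trans (mul_le_mul_of_nonneg_right hCK (hd0 x y))
  have hDif : ∀ x y, ‖S.Di (f x) - S.Di (f y)‖ ≤ K * K * dist x y ^ β := by
    intro x y
    refine (hDi _ _).trans ((mul_le_mul_of_nonneg_right hCK (hd0 _ _)).trans ?_)
    rw [mul_assoc]
    refine mul_le_mul_of_nonneg_left ?_ hK0
    have h1 : dist (f x) (f y) ≤ K * dist x y :=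
      (hf x y).trans (mul_le_mul_of_nonneg_right hCK dist_nonneg)
    refine (Real.rpow_le_rpow dist_nonneg h1 hβ.le).trans ?_
    rw [Real.mul_rpow hK0 dist_nonneg]
    refine mul_le_mul_of_nonneg_right ?_ (hd0 x y)
    exact (Real.rpow_le_rpow_of_exponent_le hK1 hβ1).trans (le_of_eq (Real.rpow_one K))
  have hAn : ∀ x, ‖A S x‖ ≤ K * K := fun x =>
    (ContinuousLinearMap.opNorm_comp_le _ _).trans
      (mul_le_mul (hKD x) (hKU x) (norm_nonneg _) hK0)
  have hBn : ∀ x, ‖B S x‖ ≤ K * K := fun x =>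
    (ContinuousLinearMap.opNorm_comp_le _ _).trans
      (mul_le_mul (hKU x) (hKDi (f x)) (norm_nonneg _) hK0)
  have hA : ∀ x y, ‖A S x - A S y‖ ≤ 2 * (K * K * K) * dist x y ^ β := by
    intro x y
    have e : A S x - A S y = (S.D x - S.D y) ∘L S.U x + S.D y ∘L (S.U x - S.U y) := by
      ext v
      simp [A]
    rw [e]
    have h1 := ContinuousLinearMap.opNorm_comp_le (S.D x - S.D y) (S.U x)
    have h2 := ContinuousLinearMap.opNorm_comp_le (S.D y) (S.U x - S.U y)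
    have h3 : ‖S.D x - S.D y‖ * ‖S.U x‖ ≤ K * dist x y ^ β * K :=
      mul_le_mul (hD' x y) (hKU x) (norm_nonneg _) (mul_nonneg hK0 (hd0 x y))
    have h4 : ‖S.D y‖ * ‖S.U x - S.U y‖ ≤ K * (K * dist x y ^ β) :=
      mul_le_mul (hKD y) (hU' x y) (norm_nonneg _) hK0
    have h5 : K * K * dist x y ^ β ≤ K * K * K * dist x y ^ β := by
      refine mul_le_mul_of_nonneg_right ?_ (hd0 x y)
      nlinarith
    refine (norm_add_le _ _).trans ?_
    nlinarith
  have hB : ∀ x y, ‖B S x - B S y‖ ≤ 2 * (K * K * K) * dist x y ^ β := by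
    intro x y
    have e : B S x - B S y = (S.U x - S.U y) ∘L S.Di (f x) +
        S.U y ∘L (S.Di (f x) - S.Di (f y)) := by
      ext v
      simp [B]
    rw [e]
    have h1 := ContinuousLinearMap.opNorm_comp_le (S.U x - S.U y) (S.Di (f x))
    have h2 := ContinuousLinearMap.opNorm_comp_le (S.U y) (S.Di (f x) - S.Di (f y))
    have h3 : ‖S.U x - S.U y‖ * ‖S.Di (f x)‖ ≤ K * dist x y ^ β * K :=
      mul_le_mul (hU' x y) (hKDi _) (norm_nonneg _) (mul_nonneg hK0 (hd0 x y))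
    have h4 : ‖S.U y‖ * ‖S.Di (f x) - S.Di (f y)‖ ≤ K * (K * K * dist x y ^ β) :=
      mul_le_mul (hKU y) (hDif x y) (norm_nonneg _) hK0
    have h5 : K * K * dist x y ^ β ≤ K * K * K * dist x y ^ β := by
      refine mul_le_mul_of_nonneg_right ?_ (hd0 x y)
      nlinarith
    refine (norm_add_le _ _).trans ?_
    nlinarith
  set E : M → (W →L[ℝ] W) →L[ℝ] (W →L[ℝ] W) := fun x => cj (A S x) (B S x) with hE
  have hEn : ∀ x, ‖E x‖ ≤ K * K * (K * K) := fun x =>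
    (cj_norm_le _ _).trans (mul_le_mul (hAn x) (hBn x) (norm_nonneg _) (by positivity))
  have hEh : ∀ x y, ‖E x - E y‖ ≤ 4 * (K * K * K) * (K * K) * dist x y ^ β := by
    intro x y
    simp only [hE]
    rw [cj_sub]
    have h1 := cj_norm_le (A S x - A S y) (B S x)
    have h2 := cj_norm_le (A S y) (B S x - B S y)
    have h3 : ‖A S x - A S y‖ * ‖B S x‖ ≤ 2 * (K * K * K) * dist x y ^ β * (K * K) :=
      mul_le_mul (hA x y) (hBn x) (norm_nonneg _)
        (mul_nonneg (by positivity) (hd0 x y))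
    have h4 : ‖A S y‖ * ‖B S x - B S y‖ ≤ K * K * (2 * (K * K * K) * dist x y ^ β) :=
      mul_le_mul (hAn y) (hB x y) (norm_nonneg _) (by positivity)
    have h5 := norm_add_le (cj (A S x - A S y) (B S x)) (cj (A S y) (B S x - B S y))
    refine h5.trans ?_
    nlinarith
  -- the growth at the periodic points
  have hgrow : ∀ p ∈ N3.Att f T₀, ∀ (q : ℕ), 0 < q → f^[q] p = p → ∀ ε : ℝ, 0 < ε →
      ∃ C' : ℝ, ∀ n : ℕ, ‖iterD E f n p‖ ≤ C' * Real.exp ((κ + ε) * n) := by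
    intro p hpA q hq hp ε hε
    obtain ⟨C', hC'⟩ := hper p (N3.att_sub hpA) q hq hp ε hε
    refine ⟨1 + |C'| * (K * K), fun n => ?_⟩
    have hexp := Real.exp_pos ((κ + ε) * n)
    rcases n with _ | n
    · have h1 : ‖iterD E f 0 p‖ ≤ 1 := ContinuousLinearMap.norm_id_le (𝕜 := ℝ) (E := W →L[ℝ] W)
      have h2 : 0 ≤ |C'| * (K * K) := by positivity
      simp only [Nat.cast_zero, mul_zero, Real.exp_zero, mul_one]
      linarith
    refine ContinuousLinearMap.opNorm_le_bound _ (by positivity) fun T => ?_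
    refine ContinuousLinearMap.opNorm_le_bound _ (by positivity) fun z => ?_
    have e1 : iterD E f (n + 1) p T z = iterD (A S) f (n + 1) p (T (Bn S (n + 1) p z)) := by
      rw [hE, it_cj]
      rfl
    rw [e1]
    set w := Bn S (n + 1) p z with hw
    have hUw : S.U p w = w := U_Bn S n p z
    have h1 : iterD (A S) f (n + 1) p (T w) = iterD S.D f (n + 1) p (S.U p (T w)) := by
      rw [← itA_succ_U, itA_U]
    have h2 : iterD S.D f (n + 1) p (S.U p w) = S.U (f^[n + 1] p) z := by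
      rw [← itA_U, itA_succ_U, hw, itA_Bn]
    have h3 := hC' (n + 1) (T w) w
    rw [h2, hUw] at h3
    rw [h1]
    rcases eq_or_ne w 0 with h0 | h0
    · rw [h0, map_zero, map_zero, map_zero, norm_zero]
      positivity
    have hwpos : 0 < ‖w‖ := norm_pos_iff.2 h0
    have h4 : ‖S.U (f^[n + 1] p) z‖ ≤ K * ‖z‖ :=
      (S.U (f^[n + 1] p)).le_of_opNorm_le (hKU (f^[n + 1] p)) z
    have h5 : ‖S.U p (T w)‖ ≤ K * (‖T‖ * ‖w‖) :=
      ((S.U p).le_of_opNorm_le (hKU p) _).trans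
        (mul_le_mul_of_nonneg_left (T.le_opNorm w) hK0)
    refine le_of_mul_le_mul_right ?_ hwpos
    calc ‖iterD S.D f (n + 1) p (S.U p (T w))‖ * ‖w‖
        ≤ C' * Real.exp ((κ + ε) * (n + 1 : ℕ)) * ‖S.U (f^[n + 1] p) z‖ * ‖S.U p (T w)‖ := h3
      _ ≤ |C'| * Real.exp ((κ + ε) * (n + 1 : ℕ)) * (K * ‖z‖) * (K * (‖T‖ * ‖w‖)) := by
          gcongr
          exact le_abs_self C'
      _ ≤ (1 + |C'| * (K * K)) * Real.exp ((κ + ε) * (n + 1 : ℕ)) * ‖T‖ * ‖z‖ * ‖w‖ := by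
          have h6 : 0 ≤ Real.exp ((κ + ε) * (n + 1 : ℕ)) * ‖T‖ * ‖z‖ * ‖w‖ := by positivity
          nlinarith
  intro ε hε
  obtain ⟨c₂, hc₂, hloc⟩ := att_perLoc hT
  obtain ⟨C', hC'⟩ := kalOn hKal S hS (att_closed hT) (att_inv hT) hc₂ hloc E _ _ β hEn hβ hβ1
    hEh κ hgrow ε hε
  refine ⟨C', fun n x hxA v w => ?_⟩
  rcases eq_or_ne (S.U x w) 0 with h0 | h0
  · rw [h0, map_zero, norm_zero]
    simp
  have hpos : 0 < ‖S.U x w‖ := norm_pos_iff.2 h0
  -- the operator of rank one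
  set φ : W →L[ℝ] ℝ := innerSL ℝ (S.U x w) with hφ
  set T : W →L[ℝ] W := φ.smulRight (S.U x v) with hT
  have hTn : ‖T‖ ≤ ‖S.U x w‖ * ‖S.U x v‖ := by
    rw [hT, ContinuousLinearMap.norm_smulRight_apply, hφ, innerSL_apply_norm]
  have h1 : iterD E f n x T (iterD (A S) f n x (S.U x w)) =
      ‖S.U x w‖ ^ 2 • iterD S.D f n x (S.U x v) := by
    rw [hE, it_cj]
    show iterD (A S) f n x (T (Bn S n x (iterD (A S) f n x (S.U x w)))) = _
    rw [Bn_itA]
    have h2 : T (S.U x w) = ‖S.U x w‖ ^ 2 • S.U x v := by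
      rw [hT, ContinuousLinearMap.smulRight_apply, hφ, innerSL_apply_apply,
        real_inner_self_eq_norm_sq]
    rw [h2, map_smul, itA_U]
  have h2 : ‖S.U x w‖ ^ 2 * ‖iterD S.D f n x (S.U x v)‖ ≤
      C' * Real.exp ((κ + ε) * n) * (‖S.U x w‖ * ‖S.U x v‖) *
        ‖iterD S.D f n x (S.U x w)‖ := by
    have h3 : ‖iterD E f n x T (iterD (A S) f n x (S.U x w))‖ ≤
        ‖iterD E f n x T‖ * ‖iterD (A S) f n x (S.U x w)‖ := ContinuousLinearMap.le_opNorm _ _
    rw [h1, norm_smul, Real.norm_of_nonneg (by positivity), itA_U] at h3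
    refine h3.trans (mul_le_mul_of_nonneg_right ?_ (norm_nonneg _))
    have hC0 : 0 ≤ C' * Real.exp ((κ + ε) * n) := (norm_nonneg _).trans (hC' n x hxA)
    calc ‖iterD E f n x T‖ ≤ ‖iterD E f n x‖ * ‖T‖ := ContinuousLinearMap.le_opNorm _ _
      _ ≤ C' * Real.exp ((κ + ε) * n) * (‖S.U x w‖ * ‖S.U x v‖) :=
          mul_le_mul (hC' n x hxA) hTn (norm_nonneg _) hC0
  refine le_of_mul_le_mul_right ?_ hpos
  nlinarith [h2]

end Pool.Agent.Lib.MP610fe3.AC
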