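import Pool.Agent.Lib.MP_610fe3_an.AC.Spec

/-!
# Module CORQ: the quantitative core (MP_610fe3_an, AC)

As `EQ.core`, with a family `P i` of relations; invariance raises the index.
-/

set_option autoImplicit false

open Set Filter Function
open scoped Topology

namespace Pool.Agent.Lib.MP610fe3.AC

universe v

namespace CorQ

open TM N3 EQ

variable {X : Type v} [MetricSpace X] {f : X ≃ₜ X} {U : Set X} {P : X → X → Prop}
  {Q : ℕ → X → X → Prop} {e C a aA as ε₁ ε₂ : ℝ} {N : ℕ} {x y z : X} {i k : ℕ}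

/-- Points outside `f U` can leave `f⁻¹ U`. -/
theorem not_good (hF2 : ∃ k ≤ N, ∃ s : ℕ → X, s 0 = x ∧ s k ∈ Rep f U ∧
    ∀ i < k, f (s i) ∈ U → P (s i) (s (i + 1))) : ¬ Good f U P N x := by
  intro hG
  obtain ⟨k, hk, s, hs0, hsk, hs⟩ := hF2
  have key : ∀ i ≤ k, Rch f U P N x (s i) (N - i) 0 := by
    intro i
    induction i with
    | zero =>
      intro _
      rw [hs0]
      exact .start
    | succ i ih =>
      intro hi
      have h1 := ih (by omega)
      have h2 := hG _ _ _ h1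
      refine .move (s i) _ _ _ ?_ h2 (hs i (by omega) h2)
      rwa [show N - (i + 1) + 1 = N - i by omega]
  have h1 := hG _ _ _ (key k le_rfl)
  refine hsk 1 ?_
  rwa [Nat.cast_one, ev_one]

/-- The points reached from a good point are in `U`. -/
theorem good_mem (hF2 : ∀ x, ev f (-1) x ∉ U → ∃ k ≤ N, ∃ s : ℕ → X, s 0 = x ∧ s k ∈ Rep f U ∧
      ∀ i < k, f (s i) ∈ U → P (s i) (s (i + 1)))
    (h : Good f U P N x) (h1 : Rch f U P N x z i k) : z ∈ U := by
  by_contra hz
  refine not_good (hF2 (f z) ?_) (h.next h1)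
  rwa [← ev_one (f := f), ev_neg_ev]

/-- The stability step. -/
theorem stab (R : Rates f U e C aA a as) {P P' : X → X → Prop}
    (hmar : ∀ z ∈ U, ∀ z', dist z' z ≤ ε₂ → f z' ∈ U) (hε₁ : 0 ≤ ε₁)
    (he : ε₁ ≤ e) {δB η : ℝ} (hηB : η ≤ δB / 4) (hηε : η ≤ ε₂) (hη0 : 0 < η)
    (hbr : ∀ x y, dist x y < δB → ∃ z, z ∈ Sp f ε₂ x ∧ z ∈ Sp f.symm ε₂ y)
    (hup : ∀ x y, f x ∈ U → P x y → y ∈ Sp f.symm ε₁ x)
    (hup' : ∀ x y, f x ∈ U → P' x y → y ∈ Sp f.symm ε₁ x)
    (hinv : ∀ x x' y y', f x ∈ U → f x' ∈ U → x' ∈ Sp f ε₂ x → P x y → y' ∈ Sp f ε₂ y →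
      y' ∈ Sp f.symm (ε₁ + 2 * ε₂) x' → P' x' y')
    (hF2 : ∀ x, ev f (-1) x ∉ U → ∃ k ≤ N, ∃ s : ℕ → X, s 0 = x ∧ s k ∈ Rep f U ∧
      ∀ i < k, f (s i) ∈ U → P' (s i) (s (i + 1))) {k₀ : ℕ}
    (hk₀ : ε₁ * C * N / (1 - Real.exp (-a)) * Real.exp (-a) ^ k₀ ≤ η) {x x' : X}
    (hG : Good f U P' N x) (hvv : ev f (-(k₀ : ℤ)) x' ∈ Sp f η (ev f (-(k₀ : ℤ)) x)) :
    Good f U P N x' := by
  have hC := R.C1
  have ha := R.a0
  have hun := R.un
  set θ : ℝ := Real.exp (-a) with hθ
  have hθ0 : 0 < θ := Real.exp_pos _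
  have hθ1 : θ < 1 := by rw [hθ, Real.exp_lt_one_iff]; linarith
  have hpow : ∀ j : ℕ, Real.exp (-(a * j)) = θ ^ j := by
    intro j
    rw [hθ, ← Real.exp_nat_mul]
    congr 1
    ring
  set c : ℝ := ε₁ * C * θ ^ k₀ with hc
  have hc0 : 0 ≤ c := by positivity
  set σ : ℕ → ℕ → ℝ := fun k i => c * (N * ∑ j ∈ Finset.range k, θ ^ j + (N - i) * θ ^ k) with hσ
  have hσ0 : ∀ k i : ℕ, i ≤ N → 0 ≤ σ k i := by
    intro k i hi
    have h1 : (0 : ℝ) ≤ (N : ℝ) - i := by
      have : (i : ℝ) ≤ N := by exact_mod_cast hi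
      linarith
    have h2 : 0 ≤ ∑ j ∈ Finset.range k, θ ^ j := Finset.sum_nonneg fun j _ => by positivity
    simp only [hσ]
    positivity
  have hσ1 : ∀ k i : ℕ, σ k i ≤ η := by
    intro k i
    have h1 : (∑ j ∈ Finset.range (k + 1), θ ^ j) ≤ 1 / (1 - θ) := by
      have h2 := Summable.sum_le_tsum (f := fun j : ℕ => θ ^ j) (Finset.range (k + 1))
        (fun j _ => by positivity) (summable_geometric_of_lt_one hθ0.le hθ1)
      rw [tsum_geometric_of_lt_one hθ0.le hθ1] at h2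
      rwa [one_div]
    calc σ k i ≤ c * (N * ∑ j ∈ Finset.range (k + 1), θ ^ j) := by
          simp only [hσ]
          rw [Finset.sum_range_succ]
          have h2 : 0 ≤ (i : ℝ) * θ ^ k := by positivity
          apply mul_le_mul_of_nonneg_left _ hc0
          nlinarith
      _ ≤ c * (N * (1 / (1 - θ))) := by gcongr
      _ = ε₁ * C * N / (1 - θ) * θ ^ k₀ := by rw [hc]; ring
      _ ≤ η := hk₀
  set v : X := ev f (-(k₀ : ℤ)) x with hv
  set v' : X := ev f (-(k₀ : ℤ)) x' with hv'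
  have key : ∀ z' i k, Rch f U P N x' z' i k → ∃ z, Rch f U P' N x z i k ∧
      ev f (-((k + k₀ : ℕ) : ℤ)) z' ∈ Sp f ε₂ (ev f (-((k + k₀ : ℕ) : ℤ)) z) ∧
      ev f (-((k + k₀ : ℕ) : ℤ)) z ∈ Sp f.symm (σ k i) v ∧
      ev f (-((k + k₀ : ℕ) : ℤ)) z' ∈ Sp f.symm (σ k i) v' := by
    intro z' i k h
    induction h with
    | start =>
      refine ⟨x, .start, ?_, ?_, ?_⟩
      · rw [zero_add]
        exact Sp_mono hηε hvv
      · rw [zero_add]
        exact Sp_self (hσ0 0 N le_rfl) _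
      · rw [zero_add]
        exact Sp_self (hσ0 0 N le_rfl) _
    | up z' i k h hz' ih =>
      obtain ⟨z, h1, h2, h3, h4⟩ := ih
      have e1 : ∀ w : X, ev f (-((k + 1 + k₀ : ℕ) : ℤ)) (f w) = ev f (-((k + k₀ : ℕ) : ℤ)) w := by
        intro w
        rw [← ev_one (f := f), ← ev_add]
        congr 1
        push_cast
        ring
      have e2 : σ k i ≤ σ (k + 1) N := by
        simp only [hσ]
        rw [Finset.sum_range_succ]
        have h5 : 0 ≤ (i : ℝ) * θ ^ k := by positivity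
        apply mul_le_mul_of_nonneg_left _ hc0
        nlinarith
      refine ⟨f z, .up _ _ _ h1 (hG _ _ _ h1), ?_, ?_, ?_⟩
      · rw [e1, e1]
        exact h2
      · rw [e1]
        exact Sp_mono e2 h3
      · rw [e1]
        exact Sp_mono e2 h4
    | move z' y' i k h hz' hP ih =>
      obtain ⟨z, h1, h2, h3, h4⟩ := ih
      set K : ℕ := k + k₀ with hK
      have hiN : i + 1 ≤ N := h.le
      have hzU : f z ∈ U := hG _ _ _ h1
      have hcθ : C * Real.exp (-(a * K)) * ε₁ = c * θ ^ k := by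
        rw [hpow, hK, pow_add, hc]
        ring
      have hσs : σ k (i + 1) + c * θ ^ k = σ k i := by
        simp only [hσ]
        push_cast
        ring
      have h5 := contr (by linarith) ha.le hun he (hup _ _ hz' hP) K
      rw [hcθ] at h5
      have h6 : ev f (-(K : ℤ)) y' ∈ Sp f.symm (σ k i) v' := by
        rw [← hσs]
        exact Sp_trans h4 h5
      -- the bracket
      have h7 : dist (ev f (-(K : ℤ)) y') v < δB := by
        have h8 : dist (ev f (-(K : ℤ)) y') v' ≤ σ k i := Sp_dist h6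
        have h9 : dist v' v ≤ η := Sp_dist hvv
        have h10 := dist_triangle (ev f (-(K : ℤ)) y') v' v
        have h11 := hσ1 k i
        linarith
      obtain ⟨b, hb1, hb2⟩ := hbr _ _ h7
      set w : X := ev f K b with hw
      have hwb : ev f (-(K : ℤ)) w = b := by rw [hw, ev_neg_ev]
      have h8 : w ∈ Sp f ε₂ y' := by
        have h9 := Sp_ev hb1 K
        rwa [ev_ev_neg] at h9
      have h9 : w ∈ Sp f.symm (ε₁ + 2 * ε₂) z := by
        rw [mem_Sp_symm]
        intro j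
        rcases le_or_gt j K with hj | hj
        · obtain ⟨t, ht⟩ := Nat.exists_eq_add_of_le hj
          have e1 : ∀ w : X, ev f (-(j : ℤ)) w = ev f t (ev f (-(K : ℤ)) w) := by
            intro w
            rw [← ev_add]
            congr 1
            omega
          have h10 := mem_Sp_symm.1 (hup _ _ hz' hP) j
          rw [e1 y', e1 z'] at h10
          have h11 := hb1 t
          have h12 := h2 t
          rw [e1 w, e1 z, hwb]
          have h13 := dist_triangle4 (ev f t b) (ev f t (ev f (-(K : ℤ)) y'))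
            (ev f t (ev f (-(K : ℤ)) z')) (ev f t (ev f (-(K : ℤ)) z))
          linarith
        · obtain ⟨t, ht⟩ := Nat.exists_eq_add_of_le hj.le
          have e1 : ∀ w : X, ev f (-(j : ℤ)) w = ev f (-(t : ℤ)) (ev f (-(K : ℤ)) w) := by
            intro w
            rw [← ev_add]
            congr 1
            omega
          rw [e1 w, e1 z, hwb]
          have h10 := mem_Sp_symm.1 hb2 t
          have h11 := mem_Sp_symm.1 h3 t
          have h12 := dist_triangle_right (ev f (-(t : ℤ)) b)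
            (ev f (-(t : ℤ)) (ev f (-(K : ℤ)) z)) (ev f (-(t : ℤ)) v)
          have h13 := hσ1 k (i + 1)
          linarith
      have h10 : P' z w := by
        refine hinv z' z y' w hz' hzU ?_ hP h8 h9
        have h11 := Sp_ev (Sp_comm h2) K
        rwa [ev_ev_neg, ev_ev_neg] at h11
      have h11 := contr (by linarith) ha.le hun he (hup' _ _ hzU h10) K
      rw [hcθ, hwb] at h11
      refine ⟨w, .move _ _ _ _ h1 hzU h10, ?_, ?_, h6⟩
      · rw [hwb]
        exact Sp_comm hb1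
      · rw [hwb, ← hσs]
        exact Sp_trans h3 h11
  intro z' i k h
  obtain ⟨z, h1, h2, -, -⟩ := key z' i k h
  have h3 : z ∈ U := good_mem hF2 hG h1
  refine hmar z h3 z' ?_
  have h4 := Sp_ev h2 (k + k₀)
  rw [ev_ev_neg, ev_ev_neg] at h4
  exact Sp_dist h4

end CorQ

open CorQ TM N3 EQ in
/-- CORQ -/
theorem specCorQ : SpecCorQ.{v} := by
  intro X _ _ f U e C aA a as R hT ε₁ ε₂ hε₂ hε₁ he hmar
  obtain ⟨δB, hδB, hbr⟩ := R.br ε₂ hε₂
  refine ⟨min (δB / 4) ε₂, by positivity, ?_⟩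
  intro P S N k₀ hmono hup hinv hF2 hk₀ t ht0 htS ht
  have hmono' : ∀ i x y, P 0 x y → P i x y := by
    intro i
    induction i with
    | zero => exact fun _ _ h => h
    | succ i ih => exact fun x y h => hmono i x y (ih x y h)
  have hF2' : ∀ i, ∀ x, ev f (-1) x ∉ U → ∃ k ≤ N, ∃ s : ℕ → X, s 0 = x ∧ s k ∈ Rep f U ∧
      ∀ j < k, f (s j) ∈ U → P i (s j) (s (j + 1)) := by
    intro i x hx
    obtain ⟨k, hk, s, h0, h1, h2⟩ := hF2 x hx
    exact ⟨k, hk, s, h0, h1, fun j hj h => hmono' i _ _ (h2 j hj h)⟩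
  have key : ∀ i ≤ S, Good f U (P (S - i)) N (t (S - i)) := by
    intro i
    induction i with
    | zero =>
      intro _
      rw [Nat.sub_zero]
      exact good_att hT (fun p q h => R.un_tendsto h) (hup S le_rfl) he htS
    | succ i ih =>
      intro hi
      have h3 := ih (by omega)
      have h4 := ht (S - (i + 1)) (by omega)
      have h5 := hup (S - (i + 1)) (by omega)
      have h6 := hup (S - i) (by omega)
      have h7 := hinv (S - (i + 1)) (by omega)
      rw [show S - (i + 1) + 1 = S - i by omega] at h4 h7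
      exact stab R hmar hε₁ he (min_le_left _ _) (min_le_right _ _) (by positivity) hbr h5 h6 h7
        (hF2' _) hk₀ h3 (Sp_comm h4)
  have h3 := key S le_rfl
  rw [Nat.sub_self] at h3
  exact not_good (hF2' 0 _ ht0) h3

end Pool.Agent.Lib.MP610fe3.AC
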