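import Pool.Agent.Lib.MP_610fe3_an.AC.Spec
import Pool.Agent.Lib.MP_610fe3_an.N3.Wrap

/-!
# Nearly conformal attractors: module COMB

The comparison of JOHN (transport of close pairs inside the attractor) and EXTQ (quantitative
wildness).
-/

open Set Filter Function Metric
open scoped Topology

namespace Pool.Agent.Lib.MP610fe3.AC

open Cf H6 T4 T6

universe v

/-- A hyperbolic system satisfies the rate hypotheses of EXTQ for every set `U`. -/
theorem rates_of_sys {M : Type v} [MetricSpace M] {f : M ≃ₜ M} {u : ℕ}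
    {φ : M → EuclideanSpace ℝ (Fin u) → M} {C a s κ r r₁ e ρ : ℝ}
    (S : Sys f u φ C a s κ r r₁ e ρ) (U : Set M) : N3.Rates f U r C a a s := by
  have hst : ∀ p q, q ∈ TM.Sp f r p → ∀ j : ℕ,
      dist (TM.ev f j q) (TM.ev f j p) ≤ C * Real.exp (-(s * j)) * dist q p := by
    intro p q hq j
    rw [N3.Sp_eq_Wl] at hq
    have h := S.fwd.dec p q hq j
    rw [TM.ev_nat, TM.ev_nat]
    rwa [← Real.exp_nat_mul, show (j : ℝ) * -s = -(s * j) by ring] at h
  have hun : ∀ p q, q ∈ TM.Sp f.symm r p → ∀ j : ℕ,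
      dist (TM.ev f (-(j : ℤ)) q) (TM.ev f (-(j : ℤ)) p) ≤ C * Real.exp (-(a * j)) * dist q p := by
    intro p q hq j
    rw [N3.Sp_eq_Wl] at hq
    have h := S.bwd.dec p q hq j
    rw [TM.ev_neg_nat, TM.ev_neg_nat]
    rwa [← Real.exp_nat_mul, show (j : ℝ) * -a = -(a * j) by ring] at h
  refine ⟨S.fwd.ε_pos, S.fwd.one_le, S.a_pos, S.b_pos, hun, fun p q hq i _ => hun p q hq i, hst,
    fun e' he' => ?_⟩
  obtain ⟨δ, hδ, H⟩ := S.br.exist e' he'
  refine ⟨δ, hδ, fun x y hxy => ?_⟩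
  obtain ⟨z, h1, h2⟩ := H x y hxy
  exact ⟨z, by rwa [N3.Sp_eq_Wl], by rwa [N3.Sp_eq_Wl]⟩

/-- The elementary limit behind COMB. -/
theorem exists_time (k : ℕ) {K δ c t : ℝ} (hδ : 0 < δ) (ht : 0 < t) :
    ∃ m : ℕ, K * ((m : ℝ) + 1) ^ k * Real.exp (c - δ * m) ≤ t := by
  have h1 := Real.tendsto_pow_mul_exp_neg_atTop_nhds_zero k
  have h2 : Tendsto (fun m : ℕ => δ * ((m : ℝ) + 1)) atTop atTop :=
    (tendsto_atTop_add_const_right _ _ tendsto_natCast_atTop_atTop).const_mul_atTop hδ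
  have h3 := (h1.comp h2).const_mul (K / δ ^ k * Real.exp (c + δ))
  rw [mul_zero] at h3
  obtain ⟨m, hm⟩ := (h3.eventually (ge_mem_nhds ht)).exists
  refine ⟨m, le_trans (le_of_eq ?_) hm⟩
  simp only [Function.comp_apply]
  have h4 : δ ^ k ≠ 0 := pow_ne_zero _ hδ.ne'
  have h5 : Real.exp (c - δ * m) = Real.exp (c + δ) * Real.exp (-(δ * ((m : ℝ) + 1))) := by
    rw [← Real.exp_add]
    congr 1
    ring
  rw [h5, mul_pow]
  field_simp

theorem specComb (hJ : SpecJohn.{v}) (hE : SpecExtQ.{v}) : SpecComb.{v} := by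
  intro M _ _ f u φ C a s κ₀ r r₁ e ρ κ C₂ b B e₁ U S hT hfr hA hC₂ hκ hQ he₁ hb hB hR1 hR2
  by_contra hlt
  push Not at hlt
  have ha := S.a_pos
  have hs := S.b_pos
  have hC : 1 ≤ C := S.fwd.one_le
  have he := S.e_pos
  have hρ := S.ρ_pos
  have hC0 : 0 < C := by linarith
  -- the scales
  set η : ℝ := min e ρ / (1000 * C ^ 5) with hη
  have hC5 : 0 < 1000 * C ^ 5 := by positivity
  have hη0 : 0 < η := by rw [hη]; positivity
  have hηmul : 1000 * C ^ 5 * η = min e ρ := by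
    rw [hη]; field_simp
  have hη1 : 1000 * C ^ 5 * η ≤ e := hηmul.le.trans (min_le_left _ _)
  have hη2 : 1000 * C ^ 5 * η ≤ ρ := hηmul.le.trans (min_le_right _ _)
  have hCC5 : C ≤ C ^ 5 := by
    calc C = C ^ 1 := (pow_one C).symm
      _ ≤ C ^ 5 := pow_le_pow_right₀ hC (by norm_num)
  set ρ₁ : ℝ := min (η / C ^ 2) (ρ / 2) with hρ₁
  have hρ₁0 : 0 < ρ₁ := by rw [hρ₁]; positivity
  have hSc : Sc C e ρ η ρ₁ := by
    refine ⟨hη0, ?_, hρ₁0, ?_, ?_⟩
    · refine le_trans ?_ hη1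
      have : 16 * C ≤ 1000 * C ^ 5 := by nlinarith
      nlinarith
    · have h1 : ρ₁ ≤ η / C ^ 2 := min_le_left _ _
      calc C ^ 2 * ρ₁ ≤ C ^ 2 * (η / C ^ 2) := by gcongr
        _ = η := by field_simp
    · have h1 : ρ₁ ≤ ρ / 2 := min_le_right _ _
      linarith
  obtain ⟨C₁, h₀, hC₁, hh₀, HJ⟩ := hJ f u φ C a s κ₀ r r₁ e ρ η ρ₁ κ C₂ (N3.Att f U) S hA hSc
    hη1 hη2 hC₂ hκ hQ
  obtain ⟨ε, hε, HE⟩ := hE (rates_of_sys S) he₁ hb hB hR1 hR2 e he
  obtain ⟨Λ, HΛ⟩ := HE U hT hfr (min h₀ e) (min (ρ₁ / C) (4 * e)) (by positivity) (by positivity)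
  -- the constants
  set β : ℝ := b * B / a with hβ
  have hβ0 : 0 < β := by rw [hβ]; positivity
  set Λ' : ℝ := max Λ 1 with hΛ'
  have hΛ'1 : 1 ≤ Λ' := le_max_right _ _
  set G : ℝ := Λ' * (8 * C ^ 2 * e / η) + 1 with hG
  have hG1 : 1 ≤ G := by
    rw [hG]
    have : 0 ≤ Λ' * (8 * C ^ 2 * e / η) := by positivity
    linarith
  set c₀ : ℝ := Real.log G with hc₀
  have hc₀0 : 0 ≤ c₀ := Real.log_nonneg hG1
  have hexpc : Real.exp c₀ = G := Real.exp_log (by linarith)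
  set θ : ℝ := max 0 (β / s - 1) with hθ
  have hθ0 : 0 ≤ θ := le_max_left _ _
  set c₁ : ℝ := c₀ / s + 1 with hc₁
  have hc₁0 : 1 ≤ c₁ := by
    rw [hc₁]
    have : 0 ≤ c₀ / s := by positivity
    linarith
  have hu2 : (0 : ℝ) ≤ (u : ℝ) ^ 2 * κ := by positivity
  set δ : ℝ := a - (u : ℝ) ^ 2 * κ * θ with hδ
  have hδ0 : 0 < δ := by
    rw [hδ, hθ]
    rcases le_total (β / s - 1) 0 with h | h
    · rw [max_eq_left h]
      simpa using ha
    · rw [max_eq_right h]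
      have h1 : (u : ℝ) ^ 2 * κ * (β / s - 1) = (u : ℝ) ^ 2 * κ * (b * B - a * s) / (a * s) := by
        rw [hβ]; field_simp
      have h2 : (u : ℝ) ^ 2 * κ * (b * B - a * s) / (a * s) < a := by
        rw [div_lt_iff₀ (by positivity)]
        calc (u : ℝ) ^ 2 * κ * (b * B - a * s) < a ^ 2 * s := hlt
          _ = a * (a * s) := by ring
      linarith
  set K : ℝ := θ + 1 + c₁ + 1 with hK
  have hK0 : 0 ≤ K := by positivity
  have ht : 0 < min ε (e / (16 * C ^ 2)) := by positivity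
  obtain ⟨m, hm⟩ := exists_time (u - 1) (K := C₁ * K ^ (u - 1)) (c := (u : ℝ) ^ 2 * κ * c₁)
    hδ0 ht
  obtain ⟨l, z, y, hl, ⟨hH1, hH2⟩, h0, hfar⟩ := HΛ m
  set N : ℕ := ⌈(β * m + c₀) / s⌉₊ with hN
  have hNge : (β * m + c₀) / s ≤ N := Nat.le_ceil _
  have hNle : (N : ℝ) < (β * m + c₀) / s + 1 := Nat.ceil_lt_add_one (by positivity)
  have hsub : ((N - m : ℕ) : ℝ) ≤ θ * m + c₁ := by
    have hm0 : (0 : ℝ) ≤ m := Nat.cast_nonneg m
    rcases le_total m N with h | h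
    · rw [Nat.cast_sub h]
      have h1 : (β / s - 1) * m ≤ θ * m := by
        apply mul_le_mul_of_nonneg_right (le_max_right _ _) hm0
      have h2 : (β * m + c₀) / s + 1 - m = (β / s - 1) * m + c₁ := by
        rw [hc₁]; field_simp; ring
      linarith
    · rw [Nat.sub_eq_zero_of_le h]
      have : 0 ≤ θ * m := by positivity
      push_cast
      linarith
  have hN1 : (N : ℝ) + 1 ≤ K * (m + 1) := by
    have hm0 : (0 : ℝ) ≤ m := Nat.cast_nonneg m
    have h1 : (N : ℝ) ≤ m + ((N - m : ℕ) : ℝ) := by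
      have : N ≤ m + (N - m) := by omega
      exact_mod_cast this
    have h2 : (N : ℝ) + 1 ≤ (θ + 1) * m + (c₁ + 1) := by linarith
    rw [hK]
    nlinarith
  set E : ℝ := C₁ * (N + 1) ^ (u - 1) * Real.exp (u ^ 2 * κ * (N - m : ℕ) - a * m) with hEdef
  have hEle : E ≤ min ε (e / (16 * C ^ 2)) := by
    refine le_trans ?_ hm
    have hm0 : (0 : ℝ) ≤ m := Nat.cast_nonneg m
    have h1 : ((N : ℝ) + 1) ^ (u - 1) ≤ K ^ (u - 1) * ((m : ℝ) + 1) ^ (u - 1) := by
      rw [← mul_pow]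
      exact pow_le_pow_left₀ (by positivity) hN1 _
    have h2 : (u : ℝ) ^ 2 * κ * ((N - m : ℕ) : ℝ) - a * m ≤ (u : ℝ) ^ 2 * κ * c₁ - δ * m := by
      have h3 := mul_le_mul_of_nonneg_left hsub hu2
      rw [hδ]
      nlinarith
    calc E ≤ C₁ * (K ^ (u - 1) * ((m : ℝ) + 1) ^ (u - 1)) *
          Real.exp ((u : ℝ) ^ 2 * κ * c₁ - δ * m) := by
          rw [hEdef]
          gcongr
      _ = C₁ * K ^ (u - 1) * ((m : ℝ) + 1) ^ (u - 1) *
          Real.exp ((u : ℝ) ^ 2 * κ * c₁ - δ * m) := by ring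
  have hsmall : l * (C * Real.exp (-(s * N)) * (2 * e)) ≤ η / (4 * C) := by
    have h1 : Real.exp (-(s * N)) ≤ Real.exp (-(β * m + c₀)) := by
      apply Real.exp_le_exp.mpr
      rw [div_le_iff₀ hs] at hNge
      linarith
    have h2 : Real.exp (-(β * m + c₀)) = (Real.exp (β * m))⁻¹ * G⁻¹ := by
      rw [Real.exp_neg, Real.exp_add, hexpc, mul_inv]
    have h3 : (l : ℝ) ≤ Λ' * Real.exp (β * m) :=
      hl.trans (mul_le_mul_of_nonneg_right (le_max_left _ _) (Real.exp_pos _).le)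
    have hG0 : 0 < G := by linarith
    calc (l : ℝ) * (C * Real.exp (-(s * N)) * (2 * e))
        ≤ (Λ' * Real.exp (β * m)) * (C * ((Real.exp (β * m))⁻¹ * G⁻¹) * (2 * e)) := by
          rw [← h2]
          gcongr
      _ = Λ' * (C * (2 * e)) / G := by
          field_simp
      _ ≤ η / (4 * C) := by
          rw [div_le_div_iff₀ hG0 (by positivity)]
          have h4 : η * G = Λ' * (8 * C ^ 2 * e) + η := by
            rw [hG]; field_simp
          rw [h4]
          nlinarith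
  have hy0 : ∃ x ∈ closedBall (0 : EuclideanSpace ℝ (Fin u)) ρ₁, f^[m] (y 0) = φ (f^[m] (z 0)) x := by
    rw [N3.Sp_eq_Wl, TM.ev_nat, TM.ev_nat] at h0
    have h1 : f^[m] (y 0) ∈ Wl f.symm (4 * e) (f^[m] (z 0)) :=
      fun k => (h0 k).trans (min_le_right _ _)
    obtain ⟨x, hx, hx'⟩ := S.onto _ _ h1
    refine ⟨x, ?_, hx'.symm⟩
    have hρ2 : ρ / 2 ≤ ρ := by linarith
    have h2 := S.lower (f^[m] (z 0)) x (closedBall_subset_closedBall hρ2 hx) 0
      (mem_closedBall_self hρ.le)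
    rw [S.zero, hx'] at h2
    have h3 : dist (f^[m] (y 0)) (f^[m] (z 0)) ≤ ρ₁ / C := by
      have := h0 0
      simp only [iterate_zero, id_eq] at this
      exact this.trans (min_le_left _ _)
    rw [mem_closedBall]
    calc dist x 0 ≤ C * dist (f^[m] (y 0)) (f^[m] (z 0)) := h2
      _ ≤ C * (ρ₁ / C) := by gcongr
      _ = ρ₁ := by field_simp
  have hfin := HJ z y l m N E (fun k hk => (hH1 k hk).1)
    (fun k hk => by
      have := (hH2 k hk).1
      rw [N3.Sp_eq_Wl] at this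
      exact fun j => (this j).trans (min_le_left _ _))
    (fun k hk => by
      have := (hH2 k hk).2
      rw [N3.Sp_eq_Wl] at this
      exact fun j => (this j).trans (min_le_right _ _))
    (fun k hk => by
      have := (hH1 k hk).2.2
      rwa [N3.Sp_eq_Wl] at this)
    hy0 hsmall hEdef (hEle.trans (min_le_right _ _))
  have hd := hfin 0
  simp only [iterate_zero, id_eq] at hd
  have := hd.trans (hEle.trans (min_le_left _ _))
  linarith

end Pool.Agent.Lib.MP610fe3.AC
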