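import Pool.Agent.Lib.MP_610fe3_an.AC.MFD
import Pool.Agent.Lib.MP_610fe3_an.EQ.Mfd

/-!
# The final theorems, from SpecPerA
-/

open Set Filter Function Bundle
open scoped Manifold ContDiff Topology

namespace Pool.Agent.Lib.MP610fe3.AC

open Cf

universe u v

/-- The dual region. -/
theorem ProperAttracting.dual {M : Type*} [TopologicalSpace M] {f : M ≃ₜ M} {U : Set M}
    (h : ProperAttracting f U) : ProperAttracting f.symm (closure U)ᶜ := by
  obtain ⟨hop, hne, huniv, htrap⟩ := h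
  have hcl : closure U ≠ univ := by
    intro h1
    refine huniv (eq_univ_of_univ_subset ?_)
    rw [← f.surjective.range_eq, ← image_univ, ← h1]
    exact htrap
  refine ⟨isClosed_closure.isOpen_compl, nonempty_compl.2 hcl, fun h => ?_, ?_⟩
  · rw [compl_univ_iff] at h
    exact hne.ne_empty (subset_eq_empty subset_closure h)
  · rintro _ ⟨y, hy, rfl⟩ hmem
    have h1 : y ∈ U := by
      have := htrap ⟨f.symm y, hmem, rfl⟩
      rwa [f.apply_symm_apply] at this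
    have h2 : closure (closure U)ᶜ ⊆ Uᶜ :=
      closure_minimal (compl_subset_compl.2 subset_closure) hop.isClosed_compl
    exact h2 hy h1

theorem periodicPts_symm {M : Type*} (f : M ≃ M) : periodicPts f.symm = periodicPts f := by
  have key : ∀ g : M ≃ M, periodicPts g ⊆ periodicPts g.symm := by
    rintro g p ⟨n, hn, hp⟩
    refine ⟨n, hn, ?_⟩
    have h2 : LeftInverse (g.symm^[n]) (g^[n]) := LeftInverse.iterate g.left_inv n
    have h3 := h2 p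
    rw [hp.eq] at h3
    exact h3
  exact Subset.antisymm (key f.symm) (key f)

/-- A periodic orbit outside `U` is outside the closure of `U`. -/
theorem notMem_closure {M : Type*} [TopologicalSpace M] {f : M → M} {U : Set M}
    (h : ProperAttracting f U) {p : M} (hp : p ∈ periodicPts f) (hpU : p ∉ U) :
    p ∉ closure U := by
  intro hcl
  obtain ⟨n, hn, hper⟩ := hp
  obtain ⟨-, -, -, htrap⟩ := h
  have key : ∀ k : ℕ, f^[k + 1] p ∈ U := by
    intro k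
    induction k with
    | zero => exact htrap ⟨p, hcl, rfl⟩
    | succ k ih =>
      rw [iterate_succ_apply']
      exact htrap ⟨_, subset_closure ih, rfl⟩
  have h1 := key (n - 1)
  rw [show n - 1 + 1 = n by omega, hper.eq] at h1
  exact hpU h1

section

variable {V : Type u} [NormedAddCommGroup V] [NormedSpace ℝ V] [FiniteDimensional ℝ V]
  {M : Type v} [TopologicalSpace M] [CompactSpace M] [T2Space M] [ConnectedSpace M]
  [ChartedSpace V M] [IsManifold 𝓘(ℝ, V) ∞ M]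
  [RiemannianBundle (fun x : M => TangentSpace 𝓘(ℝ, V) x)]
  [IsContinuousRiemannianBundle V (fun x : M => TangentSpace 𝓘(ℝ, V) x)]

/-- A diffeomorphism which is Anosov and not transitive has a proper attracting region. -/
theorem exists_attracting (f : M ≃ₘ^1⟮𝓘(ℝ, V), 𝓘(ℝ, V)⟯ M)
    (Es Eu : ∀ x : M, Submodule ℝ (TangentSpace 𝓘(ℝ, V) x)) (hA : Gen.IsAnosovSplitting f Es Eu) :
    TopTransitive f ∨ ∃ U : Set M, ProperAttracting f U := by
  obtain ⟨N, e, he, hemb, hinj⟩ := exists_embedding_euclidean_of_compact (I := 𝓘(ℝ, V)) (M := M)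
  let _ : MetricSpace M := hemb.isEmbedding.comapMetricSpace e
  exact (EQ.mfd_eq e hemb.isEmbedding.to_isometry he hinj f Es Eu hA).2

/-- Both inequalities. -/
theorem both_of (hPerA : SpecPerA.{u, v}) (f : M ≃ₘ^1⟮𝓘(ℝ, V), 𝓘(ℝ, V)⟯ M)
    (hf : ContMDiff 𝓘(ℝ, V) 𝓘(ℝ, V) 2 f) (hf' : ContMDiff 𝓘(ℝ, V) 𝓘(ℝ, V) 2 f.symm)
    (Es Eu : ∀ x : M, Submodule ℝ (TangentSpace 𝓘(ℝ, V) x)) (hA : Gen.IsAnosovSplitting f Es Eu)
    {U : Set M} (hU : ProperAttracting f U) :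
    NonConf f Es Eu U ∧ NonConf f.symm Eu Es (closure U)ᶜ :=
  ⟨hPerA f hf hf' Es Eu hA U hU,
    hPerA f.symm hf' hf Eu Es (IsAnosovSplitting.symm hA) _
      (ProperAttracting.dual (f := f.toHomeomorph) hU)⟩

/-- Bounds for the exponents exist. -/
theorem exists_perBounds (f : M ≃ₘ^1⟮𝓘(ℝ, V), 𝓘(ℝ, V)⟯ M)
    (Es Eu : ∀ x : M, Submodule ℝ (TangentSpace 𝓘(ℝ, V) x)) (hA : Gen.IsAnosovSplitting f Es Eu) :
    ∃ s b a B : ℝ, 0 < s ∧ s ≤ b ∧ 0 < a ∧ a ≤ B ∧ PerBounds f Es Eu s b a B := by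
  have hm : IsManifold 𝓘(ℝ, V) 1 M := IsManifold.of_le (m := 1) (n := ∞) (by norm_num)
  obtain ⟨N, e, he, hemb, hinj⟩ := exists_embedding_euclidean_of_compact (I := 𝓘(ℝ, V)) (M := M)
  have key : ∀ g : M ≃ₘ^1⟮𝓘(ℝ, V), 𝓘(ℝ, V)⟯ M, ∃ B : ℝ, 1 ≤ B ∧ ∀ (n : ℕ) (x : M)
      (v : TangentSpace 𝓘(ℝ, V) x),
      ‖mfderiv 𝓘(ℝ, V) 𝓘(ℝ, V) ((⇑g)^[n]) x v‖ ≤ B ^ n * ‖v‖ := by
    intro g
    let : MetricSpace M := hemb.isEmbedding.comapMetricSpace e
    exact Holo.exists_deriv_bound e hemb.isEmbedding.to_isometry he hinj g g.contMDiff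
  obtain ⟨B₁, hB₁, hD₁⟩ := key f
  obtain ⟨B₂, hB₂, hD₂⟩ := key f.symm
  obtain ⟨C, l, hC, hl, hl1, H⟩ := hA.estimate
  have hll : Real.log l < 0 := Real.log_neg hl hl1
  have hlB₁ : 0 ≤ Real.log B₁ := Real.log_nonneg hB₁
  have hlB₂ : 0 ≤ Real.log B₂ := Real.log_nonneg hB₂
  have hpow : ∀ (t : ℝ), 0 < t → ∀ n : ℕ, t ^ n = Real.exp (Real.log t * n) := fun t ht n => by
    rw [mul_comm, Real.exp_nat_mul, Real.exp_log ht]
  refine ⟨-Real.log l, -Real.log l + Real.log B₂, -Real.log l, -Real.log l + Real.log B₁,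
    by linarith, by linarith, by linarith, by linarith, fun p _ => ⟨fun ε hε => ⟨C, fun n v hv => ?_⟩,
      fun ε hε => ⟨1, fun n v hv => ?_⟩, fun ε hε => ⟨C, fun n v hv => ?_⟩,
      fun ε hε => ⟨1, fun n v hv => ?_⟩⟩⟩
  · refine ((H n p).1 v hv).trans ?_
    rw [hpow l hl, neg_neg]
    have : (0 : ℝ) ≤ n := Nat.cast_nonneg n
    gcongr
    linarith
  · refine (hD₂ n p v).trans ?_
    rw [hpow B₂ (by linarith), one_mul]
    have : (0 : ℝ) ≤ n := Nat.cast_nonneg n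
    gcongr
    linarith
  · refine ((H n p).2 v hv).trans ?_
    rw [hpow l hl, neg_neg]
    have : (0 : ℝ) ≤ n := Nat.cast_nonneg n
    gcongr
    linarith
  · refine (hD₁ n p v).trans ?_
    rw [hpow B₁ (by linarith), one_mul]
    have : (0 : ℝ) ≤ n := Nat.cast_nonneg n
    gcongr
    linarith

/-- One side of the conformal case. -/
theorem exists_defect_of (hPerA : SpecPerA.{u, v}) (f : M ≃ₘ^1⟮𝓘(ℝ, V), 𝓘(ℝ, V)⟯ M)
    (hf : ContMDiff 𝓘(ℝ, V) 𝓘(ℝ, V) 2 f) (hf' : ContMDiff 𝓘(ℝ, V) 𝓘(ℝ, V) 2 f.symm)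
    (Es Eu : ∀ x : M, Submodule ℝ (TangentSpace 𝓘(ℝ, V) x)) (hA : Gen.IsAnosovSplitting f Es Eu)
    {U : Set M} (hU : ProperAttracting f U) :
    ∃ κ : ℝ, 0 < κ ∧ ∃ p ∈ periodicPts f, p ∈ U ∧ ¬ DefectAt f Eu κ p := by
  obtain ⟨s, b, a, B, hs, hsb, ha, haB, hP⟩ := exists_perBounds f Es Eu hA
  obtain ⟨x⟩ : Nonempty M := inferInstance
  have H := hPerA f hf hf' Es Eu hA U hU
  set d : ℝ := (Module.finrank ℝ (Eu x) : ℝ) with hd
  have hd0 : 0 ≤ d := Nat.cast_nonneg _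
  have hb : 0 < b := by linarith
  have hB : 0 < B := by linarith
  set κ : ℝ := a ^ 2 * s / (2 * (d ^ 2 * (b * B) + 1)) with hκ
  have hden : 0 < 2 * (d ^ 2 * (b * B) + 1) := by positivity
  have hκ0 : 0 < κ := by positivity
  refine ⟨κ, hκ0, ?_⟩
  by_contra hnot
  push Not at hnot
  have h1 := H s b a B κ hs hsb ha haB hκ0.le hP (fun p hp hpU => hnot p hp hpU) x
  have h2 : d ^ 2 * κ * (b * B - a * s) ≤ κ * (d ^ 2 * (b * B) + 1) := by
    have i1 : 0 ≤ a * s := by positivity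
    have i2 : 0 ≤ d ^ 2 * κ * (a * s) := by positivity
    nlinarith
  have h3 : κ * (2 * (d ^ 2 * (b * B) + 1)) = a ^ 2 * s := div_mul_cancel₀ _ hden.ne'
  have h4 : 0 < a ^ 2 * s := by positivity
  rw [← hd] at h1
  linarith

/-- The conformal case. -/
theorem two_exponents_of (hPerA : SpecPerA.{u, v}) (f : M ≃ₘ^1⟮𝓘(ℝ, V), 𝓘(ℝ, V)⟯ M)
    (hf : ContMDiff 𝓘(ℝ, V) 𝓘(ℝ, V) 2 f) (hf' : ContMDiff 𝓘(ℝ, V) 𝓘(ℝ, V) 2 f.symm)
    (Es Eu : ∀ x : M, Submodule ℝ (TangentSpace 𝓘(ℝ, V) x)) (hA : Gen.IsAnosovSplitting f Es Eu)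
    {U : Set M} (hU : ProperAttracting f U) :
    (∃ p ∈ periodicPts f, p ∈ U ∧ ¬ DefectAt f Eu 0 p) ∧
      ∃ p ∈ periodicPts f, p ∉ U ∧ ¬ DefectAt f.symm Es 0 p := by
  have mono : ∀ (g : M → M) (F : ∀ x : M, Submodule ℝ (TangentSpace 𝓘(ℝ, V) x)) (κ : ℝ), 0 < κ →
      ∀ p, DefectAt g F 0 p → DefectAt g F κ p := by
    intro g F κ hκ p h ε hε
    obtain ⟨C, hC⟩ := h ε hε
    refine ⟨|C|, fun n v hv w hw => (hC n v hv w hw).trans ?_⟩
    have : (0 : ℝ) ≤ n := Nat.cast_nonneg n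
    gcongr
    exact le_abs_self C
  constructor
  · obtain ⟨κ, hκ, p, hp, hpU, h⟩ := exists_defect_of hPerA f hf hf' Es Eu hA hU
    exact ⟨p, hp, hpU, fun h0 => h (mono _ _ κ hκ p h0)⟩
  · obtain ⟨κ, hκ, p, hp, hpU, h⟩ := exists_defect_of hPerA f.symm hf' hf Eu Es
      (IsAnosovSplitting.symm hA) (ProperAttracting.dual (f := f.toHomeomorph) hU)
    refine ⟨p, ?_, fun h1 => hpU (subset_closure h1), fun h0 => h (mono _ _ κ hκ p h0)⟩
    have h1 := periodicPts_symm f.toHomeomorph.toEquiv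
    exact (h1 ▸ hp : p ∈ periodicPts f.toHomeomorph.toEquiv)

end

end Pool.Agent.Lib.MP610fe3.AC
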