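import Pool.Agent.Lib.MP_610fe3_an.AC.Spec
import Pool.Agent.Lib.MP_610fe3_an.T6.Basic
import Pool.Agent.Lib.MP_610fe3_an.T6.Tr
import Pool.Agent.Lib.MP_610fe3_an.Cf.H1Wl

/-!
# Module JOHN: transport of a pair inside the attractor
-/

open Set Filter Function Metric
open scoped Topology

namespace Pool.Agent.Lib.MP610fe3.AC

open Cf H6 T4 T6

universe v

namespace JohnM

variable {M : Type v} [MetricSpace M] {f : M ≃ₜ M} {u : ℕ}
  {φ : M → EuclideanSpace ℝ (Fin u) → M} {C a b κ₀ r r₁ e ρ η ρ₁ : ℝ} {A : Set M}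

/-- `y` is in the disc of radius `ρ₁` at `x`, seen at the time `n`. -/
def Nx (f : M ≃ₜ M) (φ : M → EuclideanSpace ℝ (Fin u) → M) (ρ₁ : ℝ) (n : ℕ) (x y : M) : Prop :=
  ∃ s ∈ closedBall (0 : EuclideanSpace ℝ (Fin u)) ρ₁, f^[n] y = φ (f^[n] x) s

/-- Points reached from `x₀` in `j` steps, the step `t` is a disc point at the time `m + t`. -/
inductive Rc (f : M ≃ₜ M) (φ : M → EuclideanSpace ℝ (Fin u) → M) (ρ₁ : ℝ) (m : ℕ) (x₀ : M) :
    ℕ → M → Prop
  | zero : Rc f φ ρ₁ m x₀ 0 x₀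
  | succ (j : ℕ) (x y : M) : Rc f φ ρ₁ m x₀ j x → Nx f φ ρ₁ (m + j) x y →
      Rc f φ ρ₁ m x₀ (j + 1) y

theorem η_le (S : Sys f u φ C a b κ₀ r r₁ e ρ) (hc : Sc C e ρ η ρ₁) : 16 * η ≤ e := by
  have h1 := S.C1
  have h2 := hc.η_le
  have h3 := hc.η_pos
  nlinarith

theorem nx_disc (S : Sys f u φ C a b κ₀ r r₁ e ρ) (hc : Sc C e ρ η ρ₁) {n : ℕ} {x y : M}
    (h : Nx f φ ρ₁ n x y) : f^[n] y ∈ Wl f.symm η (f^[n] x) := by
  obtain ⟨s, hs, h1⟩ := h
  rw [h1]
  exact Sc.disc S hc _ hs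

theorem nx_wl (S : Sys f u φ C a b κ₀ r r₁ e ρ) (hc : Sc C e ρ η ρ₁) {n : ℕ} {x y : M}
    (h : Nx f φ ρ₁ n x y) : y ∈ Wl f.symm (C * Real.exp (-(a * n)) * η) x := by
  have h0 := nx_disc S hc h
  have h1 := η_le S hc
  have h2 := S.e_le_r
  have h3 := hc.η_pos
  have hC := S.C1
  have h4 : f^[n] y ∈ Wl f.symm r (f^[n] x) := Wl_mono (by linarith) h0
  intro k
  have h5 := S.dec_un h4 (k + n)
  rw [iterate_add_apply, iterate_add_apply, Cf.symm_iterate_iterate, Cf.symm_iterate_iterate] at h5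
  refine h5.trans ?_
  have h6 : dist (f^[n] y) (f^[n] x) ≤ η := Wl_dist h0
  have h7 : Real.exp (-(a * ((k + n : ℕ) : ℝ))) ≤ Real.exp (-(a * n)) := by
    apply Real.exp_le_exp.2
    push_cast
    have h8 : 0 ≤ a * (k : ℝ) := mul_nonneg S.a_pos.le (Nat.cast_nonneg _)
    linarith
  have h8 : (0 : ℝ) ≤ dist (f^[n] y) (f^[n] x) := dist_nonneg
  gcongr

theorem inv_iter (hA : Attr f A r) (n : ℕ) (x : M) : f^[n] x ∈ A ↔ x ∈ A := by
  induction n with
  | zero => rfl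
  | succ n ih => rw [iterate_succ_apply', hA.inv, ih]

theorem nx_mem (S : Sys f u φ C a b κ₀ r r₁ e ρ) (hc : Sc C e ρ η ρ₁) (hA : Attr f A r) {n : ℕ}
    {x y : M} (h : Nx f φ ρ₁ n x y) (hx : x ∈ A) : y ∈ A := by
  rw [← inv_iter hA n]
  have h1 := η_le S hc
  have h2 := S.e_le_r
  have h3 := hc.η_pos
  exact hA.sat _ ((inv_iter hA n x).2 hx) _ (Wl_mono (by linarith) (nx_disc S hc h))

theorem rc_mem (S : Sys f u φ C a b κ₀ r r₁ e ρ) (hc : Sc C e ρ η ρ₁) (hA : Attr f A r) {m : ℕ}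
    {x₀ : M} (h0 : x₀ ∈ A) {j : ℕ} {x : M} (h : Rc f φ ρ₁ m x₀ j x) : x ∈ A := by
  induction h with
  | zero => exact h0
  | succ j x y _ h2 ih => exact nx_mem S hc hA h2 ih

/-- A disc point is joined to the centre by boundedly many points of inner halves of discs of the
next level. -/
theorem nx_pieces (S : Sys f u φ C a b κ₀ r r₁ e ρ) (hc : Sc C e ρ η ρ₁) {n₀ : ℕ}
    (hn₀ : 2 * C ^ 3 ≤ n₀) {n : ℕ} {x y : M} (h : Nx f φ ρ₁ n x y) :
    ∃ g : ℕ → M, g 0 = x ∧ g n₀ = y ∧ (∀ i ≤ n₀, Nx f φ ρ₁ n x (g i)) ∧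
      ∀ i < n₀, ∃ s ∈ closedBall (0 : EuclideanSpace ℝ (Fin u)) (ρ₁ / 2),
        f^[n + 1] (g (i + 1)) = φ (f^[n + 1] (g i)) s := by
  obtain ⟨s, hs, h1⟩ := h
  have hC := S.C1
  have hρ := hc.ρ₁_pos
  have hη := hc.η_pos
  have hn₀' : (0 : ℝ) < n₀ := by
    have : (0 : ℝ) < C ^ 3 := by positivity
    linarith
  rw [mem_closedBall_zero_iff] at hs
  have hs' : ∀ i ≤ n₀, ((i : ℝ) / n₀) • s ∈ closedBall (0 : EuclideanSpace ℝ (Fin u)) ρ₁ := by
    intro i hi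
    rw [mem_closedBall_zero_iff, norm_smul, Real.norm_of_nonneg (by positivity)]
    have h2 : (i : ℝ) / n₀ ≤ 1 := by
      rw [div_le_one hn₀']
      exact_mod_cast hi
    have h3 : 0 ≤ ‖s‖ := norm_nonneg _
    nlinarith
  have hfg : ∀ i : ℕ, f^[n] (f.symm^[n] (φ (f^[n] x) (((i : ℝ) / n₀) • s))) =
      φ (f^[n] x) (((i : ℝ) / n₀) • s) := fun i => Cf.iterate_symm_iterate f n _
  refine ⟨fun i => f.symm^[n] (φ (f^[n] x) (((i : ℝ) / n₀) • s)), ?_, ?_, ?_, ?_⟩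
  · simp only [Nat.cast_zero, zero_div, zero_smul, S.zero]
    exact Cf.symm_iterate_iterate f n x
  · simp only [div_self hn₀'.ne', one_smul, ← h1]
    exact Cf.symm_iterate_iterate f n y
  · intro i hi
    exact ⟨_, hs' i hi, hfg i⟩
  · intro i hi
    simp only
    have hI := hs' i hi.le
    have hI' := hs' (i + 1) hi
    have hρ' : ρ₁ ≤ ρ := by
      have := hc.ρ₁_le'
      linarith
    have hd : dist (φ (f^[n] x) ((((i + 1 : ℕ) : ℝ) / n₀) • s)) (φ (f^[n] x) (((i : ℝ) / n₀) • s)) ≤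
        C * (ρ₁ / n₀) := by
      refine (S.upper _ _ (closedBall_subset_closedBall hρ' hI') _
        (closedBall_subset_closedBall hρ' hI)).trans ?_
      rw [dist_eq_norm, ← sub_smul, norm_smul]
      have h2 : (((i + 1 : ℕ) : ℝ) / n₀ - (i : ℝ) / n₀) = 1 / n₀ := by
        push_cast
        ring
      rw [h2, Real.norm_of_nonneg (by positivity)]
      have h3 : 1 / (n₀ : ℝ) * ‖s‖ ≤ 1 / (n₀ : ℝ) * ρ₁ := by gcongr
      have h4 : 1 / (n₀ : ℝ) * ρ₁ = ρ₁ / n₀ := by ring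
      rw [h4] at h3
      gcongr
    rw [iterate_succ_apply', iterate_succ_apply', hfg, hfg]
    set P := φ (f^[n] x) (((i : ℝ) / n₀) • s) with hP
    set P' := φ (f^[n] x) ((((i + 1 : ℕ) : ℝ) / n₀) • s) with hP'
    have h2 : P' ∈ Wl f.symm (2 * η) P := by
      have h3 : P ∈ Wl f.symm η (f^[n] x) := Sc.disc S hc _ hI
      have h4 : P' ∈ Wl f.symm η (f^[n] x) := Sc.disc S hc _ hI'
      rw [two_mul]
      exact Wl_trans (Wl_comm h3) h4
    have h3 : dist (f P') (f P) ≤ C ^ 2 * (ρ₁ / n₀) := by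
      refine (S.lip _ _).trans ?_
      calc C * dist P' P ≤ C * (C * (ρ₁ / n₀)) := by gcongr
        _ = C ^ 2 * (ρ₁ / n₀) := by ring
    have hn1 : (1 : ℝ) ≤ n₀ := by
      have : (1 : ℝ) ≤ C ^ 3 := one_le_pow₀ hC
      linarith
    have h4 : C ^ 2 * (ρ₁ / n₀) ≤ 2 * η := by
      have h5 : ρ₁ / n₀ ≤ ρ₁ := div_le_self hρ.le hn1
      have h6 := hc.ρ₁_le
      calc C ^ 2 * (ρ₁ / n₀) ≤ C ^ 2 * ρ₁ := by gcongr
        _ ≤ 2 * η := by linarith
    have h5 : f P' ∈ Wl f.symm (2 * η) (f P) := Cf.H1.wl_back h2 (h3.trans h4)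
    have h6 := η_le S hc
    obtain ⟨t, -, ht, ht'⟩ := S.onto_small (Wl_mono (by linarith [S.e_pos]) h5)
    refine ⟨t, ?_, ht'.symm⟩
    rw [mem_closedBall_zero_iff]
    refine ht.trans ?_
    calc C * dist (f P') (f P) ≤ C * (C ^ 2 * (ρ₁ / n₀)) := by gcongr
      _ = (2 * C ^ 3) * (ρ₁ / 2) / n₀ := by ring
      _ ≤ n₀ * (ρ₁ / 2) / n₀ := by gcongr
      _ = ρ₁ / 2 := by field_simp

/-- The bracket gives the next stage of a ladder. -/
theorem next (S : Sys f u φ C a b κ₀ r r₁ e ρ) {z : ℕ → M} {k : ℕ} {x x' : M} {h₀ E : ℝ}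
    (hh : h₀ ≤ e / (16 * C ^ 2)) (hE : E ≤ e / (16 * C ^ 2)) (hz : z (k + 1) ∈ Wl f h₀ (z k))
    (h : Lad f e z k x x') (hx : x' ∈ Wl f.symm E (z k)) : ∃ x'', Lad f e z (k + 1) x x'' := by
  have hC := S.C1
  have he := S.e_pos
  have h1 : dist x' (z (k + 1)) ≤ h₀ + E := by
    have h2 := Wl_dist hx
    have h3 := Wl_dist hz
    have h4 := dist_triangle_right x' (z (k + 1)) (z k)
    linarith
  have hC2 : 1 ≤ C ^ 2 := one_le_pow₀ hC
  have h2 : e / (16 * C ^ 2) * (8 * C ^ 2) = e / 2 := by field_simp; ring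
  have h3 : (h₀ + E) * (4 * C ^ 2) ≤ e / 2 := by
    have h4 : (h₀ + E) ≤ 2 * (e / (16 * C ^ 2)) := by linarith
    calc (h₀ + E) * (4 * C ^ 2) ≤ 2 * (e / (16 * C ^ 2)) * (4 * C ^ 2) := by gcongr
      _ = e / (16 * C ^ 2) * (8 * C ^ 2) := by ring
      _ = e / 2 := h2
  have hd0 : 0 ≤ h₀ + E := dist_nonneg.trans h1
  have h4 : h₀ + E ≤ r₁ := by
    have h5 := S.e_le'
    nlinarith
  obtain ⟨w, hw1, hw2⟩ := S.step (z (k + 1)) x' (by rw [dist_comm]; exact h1.trans h4)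
  have hr := S.r_pos
  have hw1' : w ∈ Wl f.symm r (z (k + 1)) := Wl_mono (by linarith) hw1
  have hw2' : w ∈ Wl f r x' := Wl_mono (by linarith) hw2
  have h5 := S.br.left _ _ _ hw2' hw1'
  have h6 := S.br.right _ _ _ hw2' hw1'
  have h7 : C * (C * (h₀ + E)) ≤ e := by nlinarith
  refine ⟨w, h.succ (S.wl_st hw2' ?_) (S.wl_un hw1' ?_)⟩
  · calc C * dist w x' ≤ C * (C * dist x' (z (k + 1))) := by gcongr
      _ ≤ C * (C * (h₀ + E)) := by gcongr
      _ ≤ e := h7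
  · calc C * dist w (z (k + 1)) ≤ C * (C * dist x' (z (k + 1))) := by gcongr
      _ ≤ C * (C * (h₀ + E)) := by gcongr
      _ ≤ e := h7

end JohnM

open JohnM

/-- Module JOHN. -/
theorem specJohn (hEy : SpecEyOn.{v}) : SpecJohn.{v} := by
  intro M _ _ f u φ C a b κ₀ r r₁ e ρ η ρ₁ κ C₂ A S hA hc h1 h2 hC₂ hκ hq
  obtain ⟨C₁', hC₁', hey⟩ := hEy f u φ C a b κ₀ r r₁ e ρ η ρ₁ κ C₂ A S hA hc h1 h2 hC₂ hκ hq
  have hC := S.C1
  have ha := S.a_pos
  have he := S.e_pos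
  have hη := hc.η_pos
  obtain ⟨n₀, hn₀⟩ := exists_nat_ge (2 * C ^ 3)
  set G : ℝ := max (C * η * Real.exp a) (n₀ * C₁') with hG
  have hG1 : C * η * Real.exp a ≤ G := le_max_left _ _
  have hG2 : n₀ * C₁' ≤ G := le_max_right _ _
  have hG0 : 0 < G := lt_of_lt_of_le (by positivity) hG1
  set θ : ℝ := Real.exp (-a) with hθ
  have hθ0 : 0 < θ := Real.exp_pos _
  have hθ1 : θ < 1 := by rw [hθ, Real.exp_lt_one_iff]; linarith
  have h16 : 0 < e / (16 * C ^ 2) := by positivity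
  refine ⟨G / (1 - θ), e / (16 * C ^ 2), div_pos hG0 (by linarith), h16, ?_⟩
  intro z y l m N E hzA hz hy hyz hs hl hE hEe
  set E₀ : ℝ := (N + 1) ^ (u - 1) * Real.exp (u ^ 2 * κ * (N - m : ℕ) - a * m) with hE₀
  have hE₀0 : 0 < E₀ := by positivity
  have hEE : E = G / (1 - θ) * E₀ := by rw [hE, hE₀]; ring
  set F : ℕ → ℝ := fun j => G * E₀ * ∑ t ∈ Finset.range j, θ ^ (t + 1) with hF
  have hFs : ∀ j, F (j + 1) = F j + G * E₀ * θ ^ (j + 1) := by
    intro j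
    simp only [hF]
    rw [Finset.sum_range_succ]
    ring
  have hFE : ∀ j, F j ≤ E := by
    intro j
    have h3 : (∑ t ∈ Finset.range j, θ ^ (t + 1)) ≤ 1 / (1 - θ) := by
      calc (∑ t ∈ Finset.range j, θ ^ (t + 1)) ≤ ∑ t ∈ Finset.range j, θ ^ t := by
            refine Finset.sum_le_sum fun t _ => ?_
            exact pow_le_pow_of_le_one hθ0.le hθ1.le (Nat.le_succ t)
        _ ≤ 1 / (1 - θ) := by
            have h4 := Summable.sum_le_tsum (f := fun t : ℕ => θ ^ t) (Finset.range j)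
              (fun t _ => by positivity) (summable_geometric_of_lt_one hθ0.le hθ1)
            rw [tsum_geometric_of_lt_one hθ0.le hθ1] at h4
            rwa [one_div]
    rw [hEE]
    calc F j = G * E₀ * ∑ t ∈ Finset.range j, θ ^ (t + 1) := rfl
      _ ≤ G * E₀ * (1 / (1 - θ)) := by gcongr
      _ = G / (1 - θ) * E₀ := by ring
  -- sizes
  have hθpow : ∀ j : ℕ, Real.exp (-(a * ((m + j : ℕ) : ℝ))) * θ =
      Real.exp (-(a * m)) * θ ^ (j + 1) := by
    intro j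
    rw [hθ, ← Real.exp_nat_mul, ← Real.exp_add, ← Real.exp_add]
    congr 1
    push_cast
    ring
  have hE₀m : Real.exp (-(a * m)) ≤ E₀ := by
    rw [hE₀]
    have h3 : (1 : ℝ) ≤ ((N : ℝ) + 1) ^ (u - 1) := one_le_pow₀ (by
      have : (0 : ℝ) ≤ N := Nat.cast_nonneg _
      linarith)
    have h4 : Real.exp (-(a * m)) ≤ Real.exp (u ^ 2 * κ * (N - m : ℕ) - a * m) := by
      apply Real.exp_le_exp.2
      have : 0 ≤ (u : ℝ) ^ 2 * κ * ((N - m : ℕ) : ℝ) := by positivity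
      linarith
    calc Real.exp (-(a * m)) ≤ 1 * Real.exp (u ^ 2 * κ * (N - m : ℕ) - a * m) := by
          rw [one_mul]; exact h4
      _ ≤ _ := by gcongr
  have hsz0 : ∀ j : ℕ, C * Real.exp (-(a * ((m + j : ℕ) : ℝ))) * η ≤ G * E₀ * θ ^ (j + 1) := by
    intro j
    have h3 := hθpow j
    have h4 : Real.exp a * θ = 1 := by rw [hθ, ← Real.exp_add]; simp
    calc C * Real.exp (-(a * ((m + j : ℕ) : ℝ))) * η
        = (C * η * Real.exp a) * (Real.exp (-(a * ((m + j : ℕ) : ℝ))) * θ) := by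
          linear_combination (-(C * η * Real.exp (-(a * ((m + j : ℕ) : ℝ))))) * h4
      _ = (C * η * Real.exp a) * (Real.exp (-(a * m)) * θ ^ (j + 1)) := by rw [h3]
      _ ≤ G * (E₀ * θ ^ (j + 1)) := by gcongr
      _ = G * E₀ * θ ^ (j + 1) := by ring
  have hsz1 : ∀ j : ℕ, n₀ * (C₁' * (N + 1) ^ (u - 1) *
      Real.exp (u ^ 2 * κ * (N - (m + j + 1) : ℕ) - a * ((m + j + 1 : ℕ) : ℝ))) ≤
        G * E₀ * θ ^ (j + 1) := by
    intro j
    have h3 : Real.exp (u ^ 2 * κ * (N - (m + j + 1) : ℕ) - a * ((m + j + 1 : ℕ) : ℝ)) ≤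
        Real.exp (u ^ 2 * κ * (N - m : ℕ) - a * m) * θ ^ (j + 1) := by
      rw [hθ, ← Real.exp_nat_mul, ← Real.exp_add]
      apply Real.exp_le_exp.2
      have h4 : ((N - (m + j + 1) : ℕ) : ℝ) ≤ ((N - m : ℕ) : ℝ) := by
        exact_mod_cast (by omega : N - (m + j + 1) ≤ N - m)
      have h5 : (u : ℝ) ^ 2 * κ * ((N - (m + j + 1) : ℕ) : ℝ) ≤
          (u : ℝ) ^ 2 * κ * ((N - m : ℕ) : ℝ) := by gcongr
      push_cast at h5 ⊢
      linarith
    calc n₀ * (C₁' * (N + 1) ^ (u - 1) *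
          Real.exp (u ^ 2 * κ * (N - (m + j + 1) : ℕ) - a * ((m + j + 1 : ℕ) : ℝ)))
        ≤ n₀ * (C₁' * (N + 1) ^ (u - 1) *
          (Real.exp (u ^ 2 * κ * (N - m : ℕ) - a * m) * θ ^ (j + 1))) := by gcongr
      _ = (n₀ * C₁') * E₀ * θ ^ (j + 1) := by rw [hE₀]; ring
      _ ≤ G * E₀ * θ ^ (j + 1) := by gcongr
  -- uniqueness of the stages
  have huniq : ∀ (k : ℕ) (x x' x'' : M), Lad f e z k x x' → Lad f e z k x x'' → x' = x'' :=
    fun k x x' x'' h3 h4 => (specTr f u φ C a b κ₀ r r₁ e ρ S z k).1 x x' x''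
      (h3.mono (by linarith)) (h4.mono (by linarith))
  have hee : e / (16 * C ^ 2) ≤ e := by
    apply div_le_self he.le
    have : (1 : ℝ) ≤ C ^ 2 := one_le_pow₀ hC
    linarith
  have hself : ∀ k ≤ l, Lad f e z k (z 0) (z k) := fun k hk =>
    ⟨z, rfl, rfl, fun i hi => Wl_mono hee (hz i (by omega)), fun i _ => mem_Wl_self he.le⟩
  -- the claim
  have key : ∀ k ≤ l, ∀ (j : ℕ) (x : M), Rc f φ ρ₁ m (z 0) j x →
      ∃ x', Lad f e z k x x' ∧ x' ∈ Wl f.symm (F j) (z k) := by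
    intro k
    induction k with
    | zero =>
      intro _ j x hx
      have h3 : x ∈ Wl f.symm (F j) (z 0) := by
        induction hx with
        | zero => simpa [hF] using mem_Wl_self (f := f.symm) (x := z 0) le_rfl
        | succ j x y _ h4 ih =>
          rw [hFs]
          exact Wl_trans ih (Wl_mono (hsz0 j) (nx_wl S hc h4))
      exact ⟨x, Lad.zero (Wl_mono (((hFE j).trans hEe).trans hee) h3), h3⟩
    | succ k ih =>
      intro hk
      have ih := ih (by omega)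
      have hex : ∀ (j : ℕ) (x : M), Rc f φ ρ₁ m (z 0) j x → ∃ x', Lad f e z (k + 1) x x' := by
        intro j x hx
        obtain ⟨x', h3, h4⟩ := ih j x hx
        exact JohnM.next S le_rfl hEe (hz k (by omega)) h3 (Wl_mono (hFE j) h4)
      intro j x hx
      induction hx with
      | zero => exact ⟨z (k + 1), hself _ hk, by simpa [hF] using mem_Wl_self le_rfl⟩
      | succ j x y hx h4 ihj =>
        obtain ⟨X, hX, hX'⟩ := ihj
        obtain ⟨g, hg0, hg1, hg2, hg3⟩ := nx_pieces S hc hn₀ h4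
        have hgR : ∀ i ≤ n₀, Rc f φ ρ₁ m (z 0) (j + 1) (g i) := fun i hi =>
          .succ j x _ hx (hg2 i hi)
        have hst : ∀ i : ℕ, ∃ X', i ≤ n₀ → Lad f e z (k + 1) (g i) X' := by
          intro i
          by_cases hi : i ≤ n₀
          · obtain ⟨X', h5⟩ := hex _ _ (hgR i hi)
            exact ⟨X', fun _ => h5⟩
          · exact ⟨x, fun h => absurd h hi⟩
        choose G' hG' using hst
        set δ : ℝ := C₁' * (N + 1) ^ (u - 1) *
          Real.exp (u ^ 2 * κ * (N - (m + j + 1) : ℕ) - a * ((m + j + 1 : ℕ) : ℝ)) with hδ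
        have hδ0 : 0 ≤ δ := by positivity
        have hstep : ∀ i < n₀, G' (i + 1) ∈ Wl f.symm δ (G' i) := by
          intro i hi
          obtain ⟨s, hs1, hs2⟩ := hg3 i hi
          have hgA : f^[m + j + 1] (g i) ∈ A :=
            (inv_iter hA _ _).2 (rc_mem S hc hA (hzA 0 (Nat.zero_le _)) (hgR i hi.le))
          have hdom : Dom f φ e ρ₁ z (k + 1) (m + j + 1) (f^[m + j + 1] (g i)) := by
            intro s' hs'
            refine hex (j + 1 + 1) _ (.succ (j + 1) (g i) _ (hgR i hi.le) ⟨s', hs', ?_⟩)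
            rw [← add_assoc]
            exact Cf.iterate_symm_iterate f (m + j + 1) _
          have hkl : ((k + 1 : ℕ) : ℝ) * (C * Real.exp (-(b * N)) * (2 * e)) ≤ η / (4 * C) := by
            refine le_trans ?_ hl
            have h5 : ((k + 1 : ℕ) : ℝ) ≤ l := by exact_mod_cast hk
            have h6 : 0 ≤ C * Real.exp (-(b * N)) * (2 * e) := by positivity
            exact mul_le_mul_of_nonneg_right h5 h6
          have hρ2 : (0 : EuclideanSpace ℝ (Fin u)) ∈ closedBall 0 (ρ₁ / 2) :=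
            mem_closedBall_self (by linarith [hc.ρ₁_pos])
          refine hey z (k + 1) (m + j + 1) N _ hgA (fun i hi => hzA i (by omega)) hkl hdom 0 hρ2
            s hs1 (G' i) (G' (i + 1)) ?_ ?_
          · rw [S.zero, Cf.symm_iterate_iterate]
            exact hG' i hi.le
          · rw [← hs2, Cf.symm_iterate_iterate]
            exact hG' (i + 1) hi
        have hsum : ∀ i ≤ n₀, G' i ∈ Wl f.symm (i * δ) (G' 0) := by
          intro i
          induction i with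
          | zero => intro _; simpa using mem_Wl_self (f := f.symm) (x := G' 0) le_rfl
          | succ i ihi =>
            intro hi
            have h5 := Wl_trans (ihi (by omega)) (hstep i hi)
            have h6 : (i : ℝ) * δ + δ = ((i + 1 : ℕ) : ℝ) * δ := by push_cast; ring
            rwa [h6] at h5
        have hX0 : G' 0 = X := huniq (k + 1) x _ _ (by
          have := hG' 0 (Nat.zero_le _)
          rwa [hg0] at this) hX
        refine ⟨G' n₀, ?_, ?_⟩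
        · have := hG' n₀ le_rfl
          rwa [hg1] at this
        · rw [hFs]
          have h5 := hsum n₀ le_rfl
          rw [hX0] at h5
          exact Wl_trans hX' (Wl_mono (hsz1 j) h5)
  -- the end
  obtain ⟨s, hs1, hs2⟩ := hs
  have hR : Rc f φ ρ₁ m (z 0) 1 (y 0) := .succ 0 (z 0) (y 0) .zero ⟨s, hs1, hs2⟩
  obtain ⟨x', h3, h4⟩ := key l le_rfl 1 (y 0) hR
  have h5 : Lad f e z l (y 0) (y l) := ⟨y, rfl, rfl, hy, hyz⟩
  rw [← huniq l (y 0) _ _ h3 h5]
  exact Wl_mono (hFE 1) h4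

end Pool.Agent.Lib.MP610fe3.AC
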