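import Pool.Agent.Lib.MP_610fe3_an.AC.Spec

/-!
# Module MIX: a mixing attractor inside a proper trapping region (helper44)
-/

open Set Filter Function Metric
open scoped Topology

namespace Pool.Agent.Lib.MP610fe3.AC

open Cf H6 T4

universe v

namespace MIXM

open TM

variable {M : Type v} [MetricSpace M] [CompactSpace M] {f : M ≃ₜ M} {c : ℝ} {U : Set M}

/-- Chains starting in a trapping region stay in it. -/
theorem reach_trap (hU : N3.Trap f U) {x y : M} (hx : x ∈ U) (h : Reach f x y) : y ∈ U := by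
  obtain ⟨η, hη, hm⟩ := hU.exists_margin
  obtain ⟨n, -, s, h0, h1, h2⟩ := chainN_of_chain (h η hη)
  have h3 : ∀ i ≤ n, s i ∈ U := by
    intro i
    induction i with
    | zero =>
      intro _
      rw [h0]
      exact hx
    | succ i ih =>
      intro hi
      exact hm (s i) (ih (by omega)) _ (by rw [dist_comm]; exact h2 i (by omega))
  rw [← h1]
  exact h3 n le_rfl

theorem reach_att (hU : N3.Trap f U) {x y : M} (hx : x ∈ U) (hy : y ∈ Om f) (h : Reach f x y) :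
    y ∈ N3.Att f U := by
  intro n
  have h1 : f^[n] (f.symm^[n] y) = y := (Function.RightInverse.iterate f.apply_symm_apply n) y
  have h2 := reach_of_mem_Om (symm_iterate_mem_Om hy n) n
  rw [h1] at h2
  rw [ev_neg_nat]
  exact reach_trap hU hx (h.trans h2)

/-- A terminal piece in the attractor. -/
theorem exists_piece (H : TM.Hyp f c) (hU : N3.Trap f U) (hne : U.Nonempty) :
    ∃ (A : Set M) (m l : ℕ), 0 < m ∧ 0 < l ∧ A ⊆ N3.Att f U ∧
      (∀ N : ℕ, 0 < N → m ∣ N → l ∣ N → TM.Half f N A) ∧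
      ∀ a ∈ A, ∀ y, FwdAsymp f.symm y a → y ∈ A := by
  obtain ⟨m, hm0, hm⟩ := H.exists_period
  have hOmG : Om (f ^ m) = Om f := Om_pow f hm0
  obtain ⟨x₀, hx₀⟩ := hne
  obtain ⟨y₀, hy₀, hxy⟩ := H.symm_fwd x₀
  have hy₀A : y₀ ∈ N3.Att f U := reach_att hU hx₀ hy₀ (reach_of_fwdAsymp hy₀ hxy)
  obtain ⟨a₀, ⟨ha₀, ha₀A⟩, hmin⟩ := exists_min (S := {y | y ∈ Om f ∧ y ∈ N3.Att f U})
    ⟨y₀, hy₀, hy₀A⟩ (rk f m)
  have hatt : ∀ y ∈ Om f, Reach (f ^ m) a₀ y → y ∈ N3.Att f U := fun y hy h =>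
    reach_att hU (N3.att_sub ha₀A) hy (reach_of_pow hm0 h)
  have hterm : ∀ y ∈ Om f, Reach (f ^ m) a₀ y → Reach (f ^ m) y a₀ := by
    intro y hy h
    by_contra hn
    exact absurd (H.rk_lt hm0 hm ha₀ h hn) (not_lt.2 (hmin y ⟨hy, hatt y hy h⟩))
  have hAr : ∀ a ∈ At f a₀, Reach (f ^ m) a a₀ ∧ Reach (f ^ m) a₀ a := fun a ha =>
    ⟨H.At_reach ha.1 (At_comm ha₀ ha) hm0, H.At_reach ha₀ ha hm0⟩
  have hsatA : ∀ a ∈ At f a₀, ∀ y, FwdAsymp f.symm y a → y ∈ At f a₀ := by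
    intro a ha y hy
    obtain ⟨b, hb, hyb⟩ := H.symm_fwd y
    have h1 : Reach (f ^ m) a y := reach_of_bwdAsymp (by rw [hOmG]; exact ha.1)
      (fwd_pow_symm hy hm0)
    have h2 : Reach (f ^ m) y b := reach_of_fwdAsymp (by rw [hOmG]; exact hb) (fwd_pow hyb hm0)
    have h3 : Reach (f ^ m) b a₀ := hterm b hb ((hAr a ha).2.trans (h1.trans h2))
    have h4 : Reach (f ^ m) y a₀ := h2.trans h3
    have h5 : Reach (f ^ m) a₀ y := (hAr a ha).2.trans h1
    have hyO : y ∈ Om f := mem_closure_of_reach H.c0 H.exp H.sh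
      (reach_of_pow hm0 (h4.trans h5))
    exact H.At_iso hm0 hm ha₀ hyO h5 h4
  obtain ⟨l, hl, hh⟩ := H.half hm ha₀
  exact ⟨At f a₀, m, l, hm0, hl, fun a ha => hatt a ha.1 (hAr a ha).2, hh, hsatA⟩

/-- The attractor property for the power. -/
theorem attr_of_half (H : TM.Hyp f c) {n : ℕ} (hn : 0 < n) {A : Set M} (hA : TM.Half f n A)
    (hsat : ∀ a ∈ A, ∀ y, FwdAsymp f.symm y a → y ∈ A) :
    ∃ r₀ : ℝ, 0 < r₀ ∧ ∀ g : M ≃ₜ M, ⇑g = (⇑f)^[n] → ⇑g.symm = (⇑f.symm)^[n] →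
      ∀ r, r ≤ r₀ → Attr g A r := by
  obtain ⟨η, hη, hu⟩ := TM.unif_cont f n H.c0
  refine ⟨η / 2, by positivity, fun g hg hg' r hr => ⟨hA.ne, hA.closed, ?_, ?_, ?_⟩⟩
  · intro x
    have h0 : g x = TM.ev f n x := by rw [hg, TM.ev_nat]
    constructor
    · intro h
      have := hA.inv _ h (-1)
      rw [h0, show (-1 : ℤ) * (n : ℤ) = -n by ring, TM.ev_neg_ev] at this
      exact this
    · intro h
      have := hA.inv _ h 1
      rwa [one_mul, ← h0] at this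
  · intro a ha y hy
    have hy' := Wl_mono hr hy
    refine hsat a ha y (TM.Sp_fwd H.exp.symm le_rfl ?_)
    rw [TM.mem_Sp_symm]
    intro k
    have h1 := hy' (k / n)
    rw [hg', ← iterate_mul] at h1
    have h2 := hu _ _ (h1.trans_lt (by linarith)) (-(k % n : ℕ))
      (by have := (Nat.mod_lt k hn).le; omega) (by omega)
    rw [← TM.ev_neg_nat, ← TM.ev_neg_nat, ← TM.ev_add, ← TM.ev_add] at h2
    have h3 : -((k % n : ℕ) : ℤ) + -((n * (k / n) : ℕ) : ℤ) = -k := by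
      rw [← neg_add, ← Nat.cast_add, Nat.mod_add_div]
    rw [h3] at h2
    exact h2.le
  · intro δ hδ
    obtain ⟨N₀, hN₀⟩ := hA.mix δ hδ
    refine ⟨N₀, fun N hN a ha a' ha' => ?_⟩
    obtain ⟨z, hz1, hz2⟩ := hN₀ N hN a ha a' ha'
    refine ⟨z, fun k => ?_, fun k => ?_⟩
    · rw [TM.mem_Sp_symm] at hz1
      have := hz1 (n * k)
      rw [TM.ev_neg_nat, TM.ev_neg_nat, iterate_mul, ← hg'] at this
      exact this
    · have := hz2 (n * k)
      rw [TM.ev_nat, TM.ev_nat, TM.ev_nat, iterate_mul, iterate_mul, ← hg] at this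
      exact this

end MIXM

open MIXM

theorem specMix : SpecMix.{v} := by
  intro M _ _ _ f c e C a s H _ U hU hne huniv
  obtain ⟨A, m, l, hm, hl, hAU, hhalf, hsat⟩ := exists_piece H hU hne
  obtain ⟨δ, hδ, -, hb⟩ := TM.bracketE H.sh H.c0
  -- stable companions
  have hcomp : ∀ x, (∃ a ∈ A, dist x a < δ) → ∃ z ∈ A, x ∈ TM.Sp f c z := by
    rintro x ⟨a, ha, hxa⟩
    obtain ⟨z, hz1, hz2⟩ := hb x a hxa
    exact ⟨z, hsat a ha z (TM.Sp_fwd H.exp.symm le_rfl hz2), TM.Sp_comm hz1⟩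
  obtain ⟨K, hK⟩ := TM.unif_contr H.exp (show (0 : ℝ) < δ / 4 by positivity)
  have hn0 : 0 < m * l * (K + 1) := Nat.mul_pos (Nat.mul_pos hm hl) (Nat.succ_pos _)
  have hKn : K ≤ m * l * (K + 1) := by
    have h1 : 1 ≤ m * l := Nat.mul_pos hm hl
    nlinarith
  have hA : TM.Half f (m * l * (K + 1)) A :=
    hhalf _ hn0 ⟨l * (K + 1), by ring⟩ ⟨m * (K + 1), by ring⟩
  obtain ⟨n, hn⟩ : ∃ n, n = m * l * (K + 1) := ⟨_, rfl⟩
  rw [← hn] at hn0 hKn hA
  obtain ⟨r₀, hr₀, hattr⟩ := attr_of_half H hn0 hA hsat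
  refine ⟨n, A, Metric.thickening (δ / 2) A, r₀, hn0, hAU, hr₀, fun g hg hg' => ?_⟩
  have hinv : ∀ x ∈ A, ∀ j : ℤ, TM.ev f (j * n) x ∈ A := hA.inv
  have hmem : ∀ x, x ∈ Metric.thickening (δ / 2) A ↔ ∃ a ∈ A, dist x a < δ / 2 := fun x =>
    Metric.mem_thickening_iff
  have hcl : ∀ x ∈ closure (Metric.thickening (δ / 2) A), ∃ a ∈ A, dist x a < δ := by
    intro x hx
    obtain ⟨x', hx', hd⟩ := Metric.mem_closure_iff.1 hx (δ / 2) (by positivity)
    obtain ⟨a, ha, hd'⟩ := (hmem x').1 hx'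
    exact ⟨a, ha, by have := dist_triangle x x' a; linarith⟩
  have htrap : N3.Trap g (Metric.thickening (δ / 2) A) := by
    refine ⟨Metric.isOpen_thickening, fun x hx => ?_⟩
    obtain ⟨z, hz, hxz⟩ := hcomp x (hcl x hx)
    have h1 := hK z x hxz n hKn
    rw [hmem]
    refine ⟨TM.ev f n z, by simpa using hinv z hz 1, ?_⟩
    rw [hg, ← TM.ev_nat]
    linarith
  have hevg : ∀ (k : ℕ) (x : M), TM.ev g (-k) x = TM.ev f (-((n * k : ℕ) : ℤ)) x := by
    intro k x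
    rw [TM.ev_neg_nat, TM.ev_neg_nat, hg', ← iterate_mul]
  have hatt : N3.Att g (Metric.thickening (δ / 2) A) = A := by
    apply Subset.antisymm
    · intro x hx
      rw [← hA.closed.closure_eq, Metric.mem_closure_iff]
      intro ε hε
      obtain ⟨K', hK'⟩ := TM.unif_contr H.exp (show (0 : ℝ) < ε / 2 by positivity)
      have h1 := hx K'
      rw [hevg] at h1
      obtain ⟨a, ha, hd⟩ := (hmem _).1 h1
      obtain ⟨z, hz, hwz⟩ := hcomp _ ⟨a, ha, by linarith⟩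
      have hle : K' ≤ n * K' := Nat.le_mul_of_pos_left _ hn0
      have h2 := hK' z _ hwz (n * K') hle
      rw [TM.ev_ev_neg] at h2
      refine ⟨TM.ev f ((n * K' : ℕ) : ℤ) z, ?_, by linarith⟩
      have := hinv z hz K'
      rwa [show (K' : ℤ) * n = ((n * K' : ℕ) : ℤ) by push_cast; ring] at this
    · intro x hx k
      rw [hevg, hmem]
      refine ⟨_, ?_, by rw [dist_self]; positivity⟩
      have := hinv x hx (-k)
      rwa [show (-(k : ℤ)) * n = -((n * k : ℕ) : ℤ) by push_cast; ring] at this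
  refine ⟨htrap, ?_, hatt, fun r _ hr => hattr g hg hg' r hr⟩
  -- the frontier
  rw [Set.nonempty_iff_ne_empty]
  intro hfr
  have hclo : IsClopen (Metric.thickening (δ / 2) A) := isClopen_iff_frontier_eq_empty.2 hfr
  obtain ⟨a₀, ha₀⟩ := hA.ne
  have hu : Metric.thickening (δ / 2) A = univ := hclo.eq_univ
    ⟨a₀, (hmem a₀).2 ⟨a₀, ha₀, by rw [dist_self]; positivity⟩⟩
  apply huniv
  rw [eq_univ_iff_forall]
  intro x
  have hx : x ∈ A := by
    rw [← hatt, hu]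
    intro k
    exact mem_univ _
  exact N3.att_sub (hAU hx)

end Pool.Agent.Lib.MP610fe3.AC
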