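import Pool.Agent.Lib.MP_610fe3_an.AC.Spec
import Pool.Agent.Lib.MP_610fe3_an.AC.Statement
import Pool.Agent.Lib.MP_610fe3_an.PR.PER

/-!
# Module PERA: the conformality defect of a proper attractor, in terms of the periodic points
-/

open Set Filter Function Bundle
open scoped Manifold ContDiff Topology

namespace Pool.Agent.Lib.MP610fe3.AC

universe u v

namespace PerAM

open Gen Cf Cf.Mfd PR PR.PER


/-- Distortion at one point: from the ambient space to the tangent bundle. -/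
theorem conf_mfd_at {V : Type*} [NormedAddCommGroup V] [NormedSpace ℝ V] {N : ℕ}
    {M : Type*} [MetricSpace M] [ChartedSpace V M]
    [RiemannianBundle (fun x : M => TangentSpace 𝓘(ℝ, V) x)]
    {e : M → EuclideanSpace ℝ (Fin N)} {h : M → M}
    {D Q : M → EuclideanSpace ℝ (Fin N) →L[ℝ] EuclideanSpace ℝ (Fin N)}
    {F : ∀ x : M, Submodule ℝ (TangentSpace 𝓘(ℝ, V) x)} {c₀ C₁ : ℝ}
    (hc₀ : 0 < c₀) (hC₁ : 0 < C₁)
    (hn : ∀ x (v : TangentSpace 𝓘(ℝ, V) x), c₀ * ‖v‖ ≤ ‖dE V e x v‖ ∧ ‖dE V e x v‖ ≤ C₁ * ‖v‖)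
    (hit : ∀ (k : ℕ) x (v : TangentSpace 𝓘(ℝ, V) x), iterD D h k x (dE V e x v) =
      dE V e (h^[k] x) (mfderiv 𝓘(ℝ, V) 𝓘(ℝ, V) (h^[k]) x v))
    (hm2 : ∀ x, ∀ v ∈ F x, Q x (dE V e x v) = dE V e x v) {C t : ℝ} {x : M}
    (H : ∀ (n : ℕ) (v w : EuclideanSpace ℝ (Fin N)),
      ‖iterD D h n x (Q x v)‖ * ‖Q x w‖ ≤
        C * Real.exp (t * n) * ‖iterD D h n x (Q x w)‖ * ‖Q x v‖) (n : ℕ)
    (v : TangentSpace 𝓘(ℝ, V) x) (hv : v ∈ F x) (w : TangentSpace 𝓘(ℝ, V) x) (hw : w ∈ F x) :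
    ‖mfderiv 𝓘(ℝ, V) 𝓘(ℝ, V) (h^[n]) x v‖ * ‖w‖ ≤
      |C| * C₁ * C₁ * (1 / c₀) * (1 / c₀) * Real.exp (t * n) *
        ‖mfderiv 𝓘(ℝ, V) 𝓘(ℝ, V) (h^[n]) x w‖ * ‖v‖ := by
  have hlow : ∀ x (v : TangentSpace 𝓘(ℝ, V) x), ‖v‖ ≤ 1 / c₀ * ‖dE V e x v‖ := by
    intro x v
    rw [one_div, inv_mul_eq_div, le_div_iff₀ hc₀, mul_comm]
    exact (hn x v).1
  have h1 := H n (dE V e x v) (dE V e x w)
  rw [hm2 x v hv, hm2 x w hw, hit, hit] at h1
  set Dv := mfderiv 𝓘(ℝ, V) 𝓘(ℝ, V) (h^[n]) x v with hDv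
  set Dw := mfderiv 𝓘(ℝ, V) 𝓘(ℝ, V) (h^[n]) x w with hDw
  calc ‖Dv‖ * ‖w‖ ≤ (1 / c₀ * ‖dE V e (h^[n] x) Dv‖) * (1 / c₀ * ‖dE V e x w‖) := by
        have i1 := hlow _ Dv
        have i2 := hlow _ w
        gcongr
    _ = 1 / c₀ * (1 / c₀) * (‖dE V e (h^[n] x) Dv‖ * ‖dE V e x w‖) := by ring
    _ ≤ 1 / c₀ * (1 / c₀) * (C * Real.exp (t * n) * ‖dE V e (h^[n] x) Dw‖ * ‖dE V e x v‖) := by
        gcongr
    _ ≤ 1 / c₀ * (1 / c₀) * (|C| * Real.exp (t * n) * (C₁ * ‖Dw‖) * (C₁ * ‖v‖)) := by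
        have i0 := le_abs_self C
        have i1 := (hn _ Dw).2
        have i2 := (hn _ v).2
        gcongr
    _ = _ := by ring

section Metric

variable {V : Type u} [NormedAddCommGroup V] [NormedSpace ℝ V] [FiniteDimensional ℝ V] {N : ℕ}
  {M : Type v} [MetricSpace M] [CompactSpace M]
  [ChartedSpace V M] [IsManifold 𝓘(ℝ, V) ∞ M]
  [RiemannianBundle (fun x : M => TangentSpace 𝓘(ℝ, V) x)]
  [IsContinuousRiemannianBundle V (fun x : M => TangentSpace 𝓘(ℝ, V) x)]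

/-- The rates of `f` are those at the periodic points; the distortion over the attractor is that
at the periodic points in `U`. -/
theorem rates_metric (hHol : PR.SpecHol.{v, 0}) (hRat : PR.SpecRat.{v, 0})
    (hAd : SpecAdOn.{v, 0})
    (e : M → EuclideanSpace ℝ (Fin N)) (hiso : Isometry e)
    (he : ContMDiff 𝓘(ℝ, V) (𝓡 N) ∞ e)
    (hinj : ∀ x, Injective (mfderiv 𝓘(ℝ, V) (𝓡 N) e x))
    (f : M ≃ₘ^1⟮𝓘(ℝ, V), 𝓘(ℝ, V)⟯ M) (hf : ContMDiff 𝓘(ℝ, V) 𝓘(ℝ, V) 2 f)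
    (hfs : ContMDiff 𝓘(ℝ, V) 𝓘(ℝ, V) 2 f.symm)
    (Es Eu : ∀ x : M, Submodule ℝ (TangentSpace 𝓘(ℝ, V) x))
    (hA : Gen.IsAnosovSplitting f Es Eu) {U : Set M} (hU : ProperAttracting f U)
    {s b a b' κ : ℝ} (hR : PerBounds f Es Eu s b a b')
    (hK' : ∀ p ∈ periodicPts f, p ∈ U → DefectAt f Eu κ p)
    {ε : ℝ} (hε : 0 < ε) :
    ∃ C : ℝ, UniRates f Es Eu C (s - ε) (b + ε) (a - ε) (b' + ε) ∧
      ∀ (n : ℕ) (x : M), (∀ k : ℕ, f.symm^[k] x ∈ U) → ∀ v ∈ Eu x, ∀ w ∈ Eu x,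
        ‖mfderiv 𝓘(ℝ, V) 𝓘(ℝ, V) ((⇑f)^[n]) x v‖ * ‖w‖ ≤
          C * Real.exp ((κ + ε) * n) * ‖mfderiv 𝓘(ℝ, V) 𝓘(ℝ, V) ((⇑f)^[n]) x w‖ * ‖v‖ := by
  obtain ⟨E, hE, hEP, hr⟩ := Gen.exists_emb e hiso he hinj
  subst hE
  obtain ⟨S, hS, hSs, hSu⟩ := Gen.exists_split E he hinj hr f Es Eu hA
  have hinj' : ∀ x, Injective (dF V E.e x) := hinj
  have he2 : ContMDiff 𝓘(ℝ, V) (𝓡 N) 2 E.e := he.of_le two_le_infty
  obtain ⟨C₂, hSq⟩ := Cf.specSq V N M E he hinj hEP f.toHomeomorph hf hfs S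
  obtain ⟨K, hK1, hK⟩ := S.exists_bdd
  obtain ⟨L₁, r₁, hL₁, hr₁, hl₁⟩ := S.hD.exists_lip
  obtain ⟨L₂, r₂, hL₂, hr₂, hl₂⟩ := S.hDi.exists_lip
  obtain ⟨L₃, hL₃, hlip₁⟩ := T6.MainB.lip_of_local (f := f) (by linarith : (0 : ℝ) ≤ L₁) hr₁ hl₁
  obtain ⟨L₄, hL₄, hlip₂⟩ := T6.MainB.lip_of_local (f := f.symm) (by linarith : (0 : ℝ) ≤ L₂)
    hr₂ hl₂
  obtain ⟨C₃, hC₃⟩ := lip_KF he2 he2 E.isom hinj'
  set L : ℝ := max (max L₃ L₄) (max |C₂| |C₃|) with hL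
  have hL0 : 0 ≤ L := hL₃.trans ((le_max_left _ _).trans (le_max_left _ _))
  have hLD : ∀ x y, ‖S.D x - S.D y‖ ≤ L * dist x y := fun x y => by
    refine (hSq.lipD y x).trans ?_
    gcongr
    exact (le_abs_self _).trans ((le_max_left _ _).trans (le_max_right _ _))
  have hLDi : ∀ x y, ‖S.Di x - S.Di y‖ ≤ L * dist x y := fun x y => by
    refine (hSq.lipDi y x).trans ?_
    gcongr
    exact (le_abs_self _).trans ((le_max_left _ _).trans (le_max_right _ _))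
  have hLP : ∀ x y, ‖E.P x - E.P y‖ ≤ L * dist x y := fun x y => by
    rw [hEP x, hEP y]
    refine (hC₃ y x).trans ?_
    gcongr
    exact (le_abs_self _).trans ((le_max_right _ _).trans (le_max_right _ _))
  have hLf : ∀ x y, dist (f.toHomeomorph x) (f.toHomeomorph y) ≤ L * dist x y := fun x y => by
    refine (hlip₁ x y).trans ?_
    gcongr
    exact (le_max_left _ _).trans (le_max_left _ _)
  have hLfs : ∀ x y, dist (f.toHomeomorph.symm x) (f.toHomeomorph.symm y) ≤ L * dist x y :=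
    fun x y => by
      refine (hlip₂ x y).trans ?_
      gcongr
      exact (le_max_right _ _).trans (le_max_left _ _)
  obtain ⟨C₄, β, hβ, hβ1, hC₄, hHl⟩ := hHol S hS L hLD hLDi hLP hLf hLfs
  obtain ⟨K₀, hK₀, hdist⟩ := dist_le_rpow (M := M) hβ hβ1
  set B : ℝ := max (max C₄ L) (L * K₀) with hB
  have hup : ∀ {t : ℝ} {x y : M}, t ≤ L * dist x y → t ≤ B * dist x y ^ β := by
    intro t x y h
    have h0 : 0 ≤ dist x y ^ β := by positivity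
    calc t ≤ L * dist x y := h
      _ ≤ L * (K₀ * dist x y ^ β) := by
          have := hdist x y
          gcongr
      _ = L * K₀ * dist x y ^ β := by ring
      _ ≤ B * dist x y ^ β := by
          gcongr
          exact le_max_right _ _
  have hBD : ∀ x y, ‖S.D x - S.D y‖ ≤ B * dist x y ^ β := fun x y => hup (hLD x y)
  have hBDi : ∀ x y, ‖S.Di x - S.Di y‖ ≤ B * dist x y ^ β := fun x y => hup (hLDi x y)
  have hBS : ∀ x y, ‖S.S x - S.S y‖ ≤ B * dist x y ^ β := fun x y => by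
    refine (hHl x y).1.trans ?_
    have h0 : 0 ≤ dist x y ^ β := by positivity
    gcongr
    exact (le_max_left _ _).trans (le_max_left _ _)
  have hBU : ∀ x y, ‖S.U x - S.U y‖ ≤ B * dist x y ^ β := fun x y => by
    refine (hHl x y).2.trans ?_
    have h0 : 0 ≤ dist x y ^ β := by positivity
    gcongr
    exact (le_max_left _ _).trans (le_max_left _ _)
  have hBf : ∀ x y, dist (f.toHomeomorph x) (f.toHomeomorph y) ≤ B * dist x y := fun x y => by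
    refine (hLf x y).trans ?_
    gcongr
    exact (le_max_right _ _).trans (le_max_left _ _)
  -- the dictionary
  obtain ⟨c₀, C₁, hc₀, hC₁, hn⟩ := exists_norm_bounds E.e he hinj
  have hn' : ∀ x (v : TangentSpace 𝓘(ℝ, V) x), c₀ * ‖v‖ ≤ ‖dE V E.e x v‖ ∧
      ‖dE V E.e x v‖ ≤ C₁ * ‖v‖ := by
    intro x v
    have h1 := hn x v
    rw [norm_tangentSpace_vectorSpace] at h1
    exact h1
  have he1 : ContMDiff 𝓘(ℝ, V) (𝓡 N) 1 E.e := he.of_le (by exact_mod_cast le_top)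
  have hit : ∀ {h : M → M}, ContMDiff 𝓘(ℝ, V) 𝓘(ℝ, V) 1 h →
      ∀ {D : M → EuclideanSpace ℝ (Fin N) →L[ℝ] EuclideanSpace ℝ (Fin N)}, HasD E h D →
      ∀ (k : ℕ) x (v : TangentSpace 𝓘(ℝ, V) x), iterD D h k x (dE V E.e x v) =
        dE V E.e (h^[k] x) (mfderiv 𝓘(ℝ, V) 𝓘(ℝ, V) (h^[k]) x v) := by
    intro h hh D hD k x v
    refine iterD_dE he hh (fun x u => ?_) k x v
    have h3 := mfderiv_comp (I := 𝓘(ℝ, V)) (I' := 𝓘(ℝ, V)) (I'' := 𝓡 N) (f := h) x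
      (he1.mdifferentiable (by norm_num) (h x)) (hh.mdifferentiable (by norm_num) x)
    rw [HasD_eq_KF E he hinj hEP hh hD x]
    refine (KF_apply hinj' x u).trans ?_
    unfold dF
    rw [h3]
    rfl
  have hm1 : ∀ {Q : M → EuclideanSpace ℝ (Fin N) →L[ℝ] EuclideanSpace ℝ (Fin N)}
      {F : ∀ x : M, Submodule ℝ (TangentSpace 𝓘(ℝ, V) x)},
      (∀ x, (Q x).range = (F x).map (mfderiv 𝓘(ℝ, V) (𝓡 N) E.e x).toLinearMap) →
      ∀ x w, ∃ v ∈ F x, dE V E.e x v = Q x w := by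
    intro Q F hF x w
    have h1 : Q x w ∈ (Q x).range := ⟨w, rfl⟩
    rw [hF x] at h1
    obtain ⟨v', hv', hvv'⟩ := h1
    exact ⟨v', hv', hvv'⟩
  have hm2 : ∀ {Q : M → EuclideanSpace ℝ (Fin N) →L[ℝ] EuclideanSpace ℝ (Fin N)}
      {F : ∀ x : M, Submodule ℝ (TangentSpace 𝓘(ℝ, V) x)}, (∀ x, Q x ∘L Q x = Q x) →
      (∀ x, (Q x).range = (F x).map (mfderiv 𝓘(ℝ, V) (𝓡 N) E.e x).toLinearMap) →
      ∀ x, ∀ v ∈ F x, Q x (dE V E.e x v) = dE V E.e x v := by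
    intro Q F hQ hF x v hv
    have h1 : dE V E.e x v ∈ (F x).map (mfderiv 𝓘(ℝ, V) (𝓡 N) E.e x).toLinearMap := ⟨v, hv, rfl⟩
    rw [← hF x] at h1
    obtain ⟨w, hw⟩ := h1
    have h2 := congrArg (fun L => L w) (hQ x)
    simp only [ContinuousLinearMap.comp_apply] at h2
    have hw' : Q x w = dE V E.e x v := hw
    rw [← hw', h2]
  have hper : ∀ (q : ℕ) (p : M), (⇑f.toHomeomorph.symm)^[q] p = p → (⇑f)^[q] p = p := by
    intro q p hp
    have h1 : (⇑f)^[q] ((⇑f.toHomeomorph.symm)^[q] p) = p :=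
      (Function.LeftInverse.iterate (f := ⇑f.toHomeomorph.symm) (g := ⇑f)
        f.toHomeomorph.apply_symm_apply q) p
    rw [hp] at h1
    exact h1
  have hpp : ∀ (p : M) (q : ℕ), 0 < q → (⇑f)^[q] p = p → p ∈ periodicPts f :=
    fun p q hq hp => ⟨q, hq, hp⟩
  have hTrap : N3.Trap f.toHomeomorph U :=
    ⟨hU.1, fun x hx => hU.2.2.2 ⟨x, hx, rfl⟩⟩
  -- the five estimates
  obtain ⟨A₁, hA₁⟩ := hRat S hS S.S K B β S.SS S.DS (fun x => (hK x).1) hβ hβ1 hBD hBS (-s)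
    (fun p q hq hp ε' hε' => by
      obtain ⟨C, hC⟩ := (hR p (hpp p q hq hp)).1 ε' hε'
      exact ⟨_, fun n w => to_amb hc₀ hC₁ hn' (hit f.contMDiff S.hD) (hm1 hSs)
        (fun x => (hK x).1) hC n w⟩) ε hε
  obtain ⟨A₂, hA₂⟩ := hRat S.swap hS.swap S.S K B β S.SS S.swap.DU (fun x => (hK x).1) hβ hβ1
    hBDi hBS b
    (fun p q hq hp ε' hε' => by
      obtain ⟨C, hC⟩ := (hR p (hpp p q hq (hper q p hp))).2.1 ε' hε'
      exact ⟨_, fun n w => to_amb hc₀ hC₁ hn' (hit f.symm.contMDiff S.hDi) (hm1 hSs)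
        (fun x => (hK x).1) hC n w⟩) ε hε
  obtain ⟨A₃, hA₃⟩ := hRat S.swap hS.swap S.U K B β S.UU S.swap.DS (fun x => (hK x).2) hβ hβ1
    hBDi hBU (-a)
    (fun p q hq hp ε' hε' => by
      obtain ⟨C, hC⟩ := (hR p (hpp p q hq (hper q p hp))).2.2.1 ε' hε'
      exact ⟨_, fun n w => to_amb hc₀ hC₁ hn' (hit f.symm.contMDiff S.hDi) (hm1 hSu)
        (fun x => (hK x).2) hC n w⟩) ε hε
  obtain ⟨A₅, hA₅⟩ := hRat S hS S.U K B β S.UU S.DU (fun x => (hK x).2) hβ hβ1 hBD hBU b'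
    (fun p q hq hp ε' hε' => by
      obtain ⟨C, hC⟩ := (hR p (hpp p q hq hp)).2.2.2 ε' hε'
      exact ⟨_, fun n w => to_amb hc₀ hC₁ hn' (hit f.contMDiff S.hD) (hm1 hSu)
        (fun x => (hK x).2) hC n w⟩) ε hε
  obtain ⟨A₄, hA₄⟩ := hAd S hS B β hβ hβ1 hBD hBDi hBU hBf U hTrap κ
    (fun p hpU q hq hp ε' hε' => by
      obtain ⟨C, hC⟩ := hK' p (hpp p q hq hp) hpU ε' hε'
      exact ⟨_, fun n v w => conf_amb hc₀ hC₁ hn' (hit f.contMDiff S.hD) (hm1 hSu) hC n v w⟩)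
    ε hε
  have B₁ := to_mfd hc₀ hC₁ hn' (hit f.contMDiff S.hD) (hm2 S.SS hSs) hA₁
  have B₂ := to_mfd hc₀ hC₁ hn' (hit f.symm.contMDiff S.hDi) (hm2 S.SS hSs) hA₂
  have B₃ := to_mfd hc₀ hC₁ hn' (hit f.symm.contMDiff S.hDi) (hm2 S.UU hSu) hA₃
  have B₅ := to_mfd hc₀ hC₁ hn' (hit f.contMDiff S.hD) (hm2 S.UU hSu) hA₅
  set b₁ := |A₁| * C₁ * (1 / c₀) with hb₁
  set b₂ := |A₂| * C₁ * (1 / c₀) with hb₂
  set b₃ := |A₃| * C₁ * (1 / c₀) with hb₃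
  set b₄ := |A₄| * C₁ * C₁ * (1 / c₀) * (1 / c₀) with hb₄
  set b₅ := |A₅| * C₁ * (1 / c₀) with hb₅
  refine ⟨max (max (max b₁ b₂) (max b₃ b₄)) b₅, ⟨fun n x v hv => ?_, fun n x v hv => ?_,
    fun n x v hv => ?_, fun n x v hv => ?_⟩, fun n x hx v hv w hw => ?_⟩
  · have h1 := B₁ n x v hv
    have h2 : -(s - ε) * (n : ℝ) = (-s + ε) * n := by ring
    rw [h2]
    refine h1.trans ?_
    gcongr
    exact ((le_max_left _ _).trans (le_max_left _ _)).trans (le_max_left _ _)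
  · have h1 := B₂ n x v hv
    refine h1.trans ?_
    gcongr
    exact ((le_max_right _ _).trans (le_max_left _ _)).trans (le_max_left _ _)
  · have h1 := B₃ n x v hv
    have h2 : -(a - ε) * (n : ℝ) = (-a + ε) * n := by ring
    rw [h2]
    refine h1.trans ?_
    gcongr
    exact ((le_max_left _ _).trans (le_max_right _ _)).trans (le_max_left _ _)
  · have h1 := B₅ n x v hv
    refine h1.trans ?_
    gcongr
    exact le_max_right _ _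
  · have hxA : x ∈ N3.Att f.toHomeomorph U := by
      intro k
      rw [TM.ev_neg_nat]
      exact hx k
    have h1 := conf_mfd_at hc₀ hC₁ hn' (hit f.contMDiff S.hD) (hm2 S.UU hSu)
      (fun n v w => hA₄ n x hxA v w) n v hv w hw
    refine h1.trans ?_
    gcongr
    exact ((le_max_right _ _).trans (le_max_right _ _)).trans (le_max_left _ _)

end Metric

end PerAM

/-- **Module PERA.** -/
theorem specPerA_of (hMfd : SpecMfd.{u, v}) (hAdOn : SpecAdOn.{v, 0}) (hHol : PR.SpecHol.{v, 0})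
    (hRat : PR.SpecRat.{v, 0}) : SpecPerA.{u, v} := by
  intro V _ _ _ M _ _ _ _ _ _ _ _ f hf hfs Es Eu hA U hU s b a B κ hs hsb ha haB hκ hR hK' x
  obtain ⟨N, e, he, hemb, hinj⟩ := exists_embedding_euclidean_of_compact (I := 𝓘(ℝ, V)) (M := M)
  let _ : MetricSpace M := hemb.isEmbedding.comapMetricSpace e
  have hiso : Isometry e := hemb.isEmbedding.to_isometry
  set d : ℝ := (Module.finrank ℝ (Eu x) : ℝ) with hd
  have hc : Continuous fun ε : ℝ => d ^ 2 * (κ + ε) * ((b + ε) * (B + ε) - (a - ε) * (s - ε)) -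
      (a - ε) ^ 2 * (s - ε) := by fun_prop
  have h1 : ∀ᶠ ε in 𝓝[>] (0 : ℝ), 0 ≤ d ^ 2 * (κ + ε) * ((b + ε) * (B + ε) - (a - ε) * (s - ε)) -
      (a - ε) ^ 2 * (s - ε) := by
    have h2 : ∀ᶠ ε in 𝓝[>] (0 : ℝ), ε < min s a :=
      (eventually_lt_nhds (lt_min hs ha)).filter_mono nhdsWithin_le_nhds
    filter_upwards [h2, self_mem_nhdsWithin] with ε h3 h4
    have h5 := lt_min_iff.1 h3
    have h6 : (0 : ℝ) < ε := h4
    obtain ⟨C, hC1, hC2⟩ := PerAM.rates_metric hHol hRat hAdOn e hiso he hinj f hf hfs Es Eu hA hU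
      hR hK' h6
    have h7 := hMfd f Es Eu hA C (s - ε) (b + ε) (a - ε) (B + ε) (κ + ε) (by linarith [h5.1])
      (by linarith) (by linarith [h5.2]) (by linarith) (by linarith) hC1 U hU hC2 x
    linarith
  have h8 : 0 ≤ (fun ε : ℝ => d ^ 2 * (κ + ε) * ((b + ε) * (B + ε) - (a - ε) * (s - ε)) -
      (a - ε) ^ 2 * (s - ε)) 0 :=
    ge_of_tendsto ((hc.tendsto 0).mono_left nhdsWithin_le_nhds) h1
  simp only [add_zero, sub_zero] at h8
  linarith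

end Pool.Agent.Lib.MP610fe3.AC
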