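import Pool.Agent.Lib.MP_610fe3_an.AC.Spec
import Pool.Agent.Lib.MP_610fe3_an.T6.Qc

/-! # Module QCON: quasiconformality of the unstable sets of the points of an invariant set, from
the derivative over this set (as T6/Qc.lean) -/

set_option autoImplicit false

open Set Filter Function Metric
open scoped Topology

namespace Pool.Agent.Lib.MP610fe3.AC

open Cf H6 T4 T6

universe v w

theorem specQcOn : SpecQcOn.{v, w} := by
  intro M W _ _ _ _ E f s hs A hA C₀ k k' hk hkk H
  have hAs : ∀ (n : ℕ), ∀ z ∈ A, f.symm^[n] z ∈ A := by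
    intro n z hz
    induction n with
    | zero => exact hz
    | succ n ih =>
      rw [iterate_succ_apply']
      refine (hA _).1 ?_
      rw [f.apply_symm_apply]
      exact ih
  set C₁ : ℝ := max C₀ 0 with hC₁
  have hC₁0 : 0 ≤ C₁ := le_max_right _ _
  have hk0 : 0 < k := by linarith
  have hk'0 : 0 < k' := by linarith
  have hk'1 : 1 ≤ k' := by linarith
  -- the block length
  obtain ⟨N, hN1, hNpos⟩ : ∃ N : ℕ, (4 * C₁ + 2) * (k / k') ^ N ≤ 1 ∧ 1 ≤ N := by
    have h := (tendsto_pow_atTop_nhds_zero_of_lt_one (r := k / k') (by positivity)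
      ((div_lt_one hk'0).2 hkk)).const_mul (4 * C₁ + 2)
    rw [mul_zero] at h
    obtain ⟨N, h1, h2⟩ := ((h.eventually (gt_mem_nhds (show (0 : ℝ) < 1 by norm_num))).and
      (eventually_ge_atTop 1)).exists
    exact ⟨N, h1.le, h2⟩
  have hN : 4 * (C₁ * k ^ N) + 2 ≤ k' ^ N := by
    have h1 : (4 * C₁ + 2) * k ^ N ≤ k' ^ N := by
      rw [div_pow, ← mul_div_assoc, div_le_one (by positivity)] at hN1
      exact hN1
    have h2 : (1 : ℝ) ≤ k ^ N := one_le_pow₀ hk
    nlinarith
  -- the lower bound of the derivative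
  obtain ⟨B, hB1, hB⟩ := exists_norm_bound
    (continuous_iterD (D := s.D) (f := f) s.hD.cont f.continuous N)
  have hB0 : 0 < B := by linarith
  have hlow : ∀ (z : M) (x : W), ‖s.U z x‖ ≤ B * ‖iterD s.Di f.symm N z (s.U z x)‖ := by
    intro z x
    have h1 := s.iter_forthU N z x
    calc ‖s.U z x‖ = ‖iterD s.D f N (f.symm^[N] z) (iterD s.Di f.symm N z (s.U z x))‖ := by
          rw [h1]
      _ ≤ B * ‖iterD s.Di f.symm N z (s.U z x)‖ := (iterD s.D f N _).le_of_opNorm_le (hB _) _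
  have hinv : ∀ z ∈ A, ∀ (x y : W), ‖iterD s.Di f.symm N z (s.U z x)‖ * ‖s.U z y‖ ≤
      C₁ * k ^ N * ‖iterD s.Di f.symm N z (s.U z y)‖ * ‖s.U z x‖ := by
    intro z hz x y
    have h1 := H N (f.symm^[N] z) (hAs N z hz) (iterD s.Di f.symm N z y) (iterD s.Di f.symm N z x)
    rw [← s.iterDiU_apply, ← s.iterDiU_apply, s.iter_forthU, s.iter_forthU] at h1
    have h2 : C₀ * k ^ N * ‖s.U z x‖ * ‖iterD s.Di f.symm N z (s.U z y)‖ ≤
        C₁ * k ^ N * ‖s.U z x‖ * ‖iterD s.Di f.symm N z (s.U z y)‖ := by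
      have : C₀ ≤ C₁ := le_max_left _ _
      gcongr
    linarith
  -- the block
  obtain ⟨r₁, hr₁, hblock⟩ := QcM.block s hs N (ω := 1 / (4 * B)) (by positivity)
  obtain ⟨L, r₂, hL1, hr₂, hlip⟩ := s.hD.exists_lip
  obtain ⟨L', r₃, hL'1, hr₃, hlip'⟩ := s.hDi.exists_lip
  set r : ℝ := min r₁ (min (r₂ / 4) (r₃ / 4)) with hr
  have hr0 : 0 < r := by positivity
  have hra : r ≤ r₁ := min_le_left _ _
  have hrb : r ≤ r₂ / 4 := (min_le_right _ _).trans (min_le_left _ _)
  have hrc : r ≤ r₃ / 4 := (min_le_right _ _).trans (min_le_right _ _)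
  have hstep : ∀ z ∈ A, ∀ p ∈ Wl f.symm r z, ∀ q ∈ Wl f.symm r z, ∀ p' ∈ Wl f.symm r z,
      ∀ q' ∈ Wl f.symm r z, dist (f.symm^[N] p) (f.symm^[N] q) * dist p' q' ≤
        k' ^ N * dist (f.symm^[N] p') (f.symm^[N] q') * dist p q := by
    intro z hz p hp q hq p' hp' q' hq'
    obtain ⟨a1, a2⟩ := hblock z p (Wl_mono hra hp) q (Wl_mono hra hq)
    obtain ⟨b1, b2⟩ := hblock z p' (Wl_mono hra hp') q' (Wl_mono hra hq')
    have c1 := hinv z hz (E.e p - E.e q) (E.e p' - E.e q')
    have c2 := hlow z (E.e p' - E.e q')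
    set X := ‖iterD s.Di f.symm N z (s.U z (E.e p - E.e q))‖ with hX
    set Y := ‖iterD s.Di f.symm N z (s.U z (E.e p' - E.e q'))‖ with hY
    set x := ‖s.U z (E.e p - E.e q)‖ with hx
    set y := ‖s.U z (E.e p' - E.e q')‖ with hy
    set D := dist (f.symm^[N] p) (f.symm^[N] q) with hD
    set D' := dist (f.symm^[N] p') (f.symm^[N] q') with hD'
    have X0 : 0 ≤ X := norm_nonneg _
    have Y0 : 0 ≤ Y := norm_nonneg _
    have x0 : 0 ≤ x := norm_nonneg _
    have y0 : 0 ≤ y := norm_nonneg _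
    have D0 : 0 ≤ D := dist_nonneg
    have D'0 : 0 ≤ D' := dist_nonneg
    have p0 : 0 ≤ dist p q := dist_nonneg
    have p'0 : 0 ≤ dist p' q' := dist_nonneg
    have hω : 1 / (4 * B) ≤ 1 / 4 := by
      apply one_div_le_one_div_of_le <;> linarith
    have hωB : 1 / (4 * B) * B = 1 / 4 := by field_simp
    set ω : ℝ := 1 / (4 * B) with hωd
    have hω0 : 0 < ω := by positivity
    obtain ⟨-, a1u⟩ := abs_le.1 a1
    obtain ⟨a2l, a2u⟩ := abs_le.1 a2
    obtain ⟨b1l, -⟩ := abs_le.1 b1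
    obtain ⟨-, b2u⟩ := abs_le.1 b2
    have m1 : ω * dist p q ≤ 1 / 4 * dist p q := mul_le_mul_of_nonneg_right hω p0
    have m2 : ω * dist p' q' ≤ 1 / 4 * dist p' q' := mul_le_mul_of_nonneg_right hω p'0
    -- |p', q'| ≤ (4/3) y, x ≤ (5/4) |p, q|
    have n1 : dist p' q' ≤ 4 / 3 * y := by linarith
    have n2 : x ≤ 5 / 4 * dist p q := by linarith
    have n3 : ω * dist p' q' ≤ 1 / 3 * Y := by
      calc ω * dist p' q' ≤ ω * (4 / 3 * y) := by gcongr
        _ ≤ ω * (4 / 3 * (B * Y)) := by gcongr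
        _ = 4 / 3 * (ω * B) * Y := by ring
        _ = 1 / 3 * Y := by rw [hωB]; ring
    have n4 : Y ≤ 3 / 2 * D' := by linarith
    have n5 : X * dist p' q' ≤ 5 / 3 * (C₁ * k ^ N) * Y * dist p q := by
      have t1 : 0 ≤ C₁ * k ^ N * Y := by positivity
      calc X * dist p' q' ≤ X * (4 / 3 * y) := by gcongr
        _ = 4 / 3 * (X * y) := by ring
        _ ≤ 4 / 3 * (C₁ * k ^ N * Y * x) := by gcongr
        _ ≤ 4 / 3 * (C₁ * k ^ N * Y * (5 / 4 * dist p q)) := by gcongr
        _ = 5 / 3 * (C₁ * k ^ N) * Y * dist p q := by ring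
    have n6 : ω * dist p q * dist p' q' ≤ 1 / 3 * Y * dist p q := by
      calc ω * dist p q * dist p' q' = ω * dist p' q' * dist p q := by ring
        _ ≤ 1 / 3 * Y * dist p q := by gcongr
    have t2 : 0 ≤ C₁ * k ^ N := by positivity
    calc D * dist p' q' ≤ (X + ω * dist p q) * dist p' q' := by gcongr; linarith
      _ = X * dist p' q' + ω * dist p q * dist p' q' := by ring
      _ ≤ 5 / 3 * (C₁ * k ^ N) * Y * dist p q + 1 / 3 * Y * dist p q := by linarith
      _ = (5 / 3 * (C₁ * k ^ N) + 1 / 3) * Y * dist p q := by ring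
      _ ≤ (5 / 3 * (C₁ * k ^ N) + 1 / 3) * (3 / 2 * D') * dist p q := by gcongr
      _ = (5 / 2 * (C₁ * k ^ N) + 1 / 2) * D' * dist p q := by ring
      _ ≤ (4 * (C₁ * k ^ N) + 2) * D' * dist p q := by gcongr <;> linarith
      _ ≤ k' ^ N * D' * dist p q := by gcongr
  have hblocks : ∀ (j : ℕ), ∀ z ∈ A, ∀ p ∈ Wl f.symm r z, ∀ q ∈ Wl f.symm r z,
      ∀ p' ∈ Wl f.symm r z, ∀ q' ∈ Wl f.symm r z,
      dist (f.symm^[N * j] p) (f.symm^[N * j] q) * dist p' q' ≤
        k' ^ (N * j) * dist (f.symm^[N * j] p') (f.symm^[N * j] q') * dist p q := by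
    intro j z hz p hp q hq p' hp' q' hq'
    induction j with
    | zero =>
      simp only [Nat.mul_zero, iterate_zero, id_eq, pow_zero, one_mul]
      rw [mul_comm]
    | succ j ih =>
      have h1 := hstep (f.symm^[N * j] z) (hAs _ z hz) _ (Wl_iter hp _) _ (Wl_iter hq _) _ (Wl_iter hp' _) _
        (Wl_iter hq' _)
      rw [← iterate_add_apply, ← iterate_add_apply, ← iterate_add_apply, ← iterate_add_apply] at h1
      have h2 : N + N * j = N * (j + 1) := by ring
      rw [h2] at h1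
      set Aa := dist (f.symm^[N * (j + 1)] p) (f.symm^[N * (j + 1)] q)
      set A' := dist (f.symm^[N * (j + 1)] p') (f.symm^[N * (j + 1)] q')
      have A0 : 0 ≤ Aa := dist_nonneg
      have A'0 : 0 ≤ A' := dist_nonneg
      rcases (dist_nonneg (x := f.symm^[N * j] p') (y := f.symm^[N * j] q')).eq_or_lt with h3 | h3
      · have h4 : f.symm^[N * j] p' = f.symm^[N * j] q' := dist_eq_zero.1 h3.symm
        have h5 : p' = q' := (f.symm.injective.iterate (N * j)) h4
        rw [h5, dist_self, mul_zero]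
        positivity
      · refine le_of_mul_le_mul_right ?_ h3
        have e1 : k' ^ (N * (j + 1)) = k' ^ N * k' ^ (N * j) := by rw [← pow_add, h2]
        calc Aa * dist p' q' * dist (f.symm^[N * j] p') (f.symm^[N * j] q')
            = (Aa * dist (f.symm^[N * j] p') (f.symm^[N * j] q')) * dist p' q' := by ring
          _ ≤ (k' ^ N * A' * dist (f.symm^[N * j] p) (f.symm^[N * j] q)) * dist p' q' := by gcongr
          _ = k' ^ N * A' * (dist (f.symm^[N * j] p) (f.symm^[N * j] q) * dist p' q') := by ring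
          _ ≤ k' ^ N * A' * (k' ^ (N * j) * dist (f.symm^[N * j] p') (f.symm^[N * j] q') *
              dist p q) := by gcongr
          _ = k' ^ (N * (j + 1)) * A' * dist p q *
              dist (f.symm^[N * j] p') (f.symm^[N * j] q') := by rw [e1]; ring
  -- Lipschitz bounds
  have hup : ∀ (i : ℕ) (a b : M), a ∈ Wl f.symm (r + r) b →
      dist (f.symm^[i] a) (f.symm^[i] b) ≤ L' ^ i * dist a b := by
    intro i a b hab
    induction i with
    | zero => simp
    | succ i ih =>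
      have h2 := hlip' (f.symm^[i] a) (f.symm^[i] b) ((hab i).trans_lt (by linarith))
      rw [iterate_succ_apply', iterate_succ_apply']
      calc _ ≤ L' * dist (f.symm^[i] a) (f.symm^[i] b) := h2
        _ ≤ L' * (L' ^ i * dist a b) := by gcongr
        _ = L' ^ (i + 1) * dist a b := by ring
  have hlo : ∀ (i : ℕ) (a b : M), a ∈ Wl f.symm (r + r) b →
      dist a b ≤ L ^ i * dist (f.symm^[i] a) (f.symm^[i] b) := by
    intro i a b hab
    induction i with
    | zero => simp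
    | succ i ih =>
      have h2 := hlip (f.symm^[i + 1] a) (f.symm^[i + 1] b) ((hab (i + 1)).trans_lt (by linarith))
      rw [iterate_succ_apply' f.symm i a, iterate_succ_apply' f.symm i b, f.apply_symm_apply,
        f.apply_symm_apply] at h2
      rw [iterate_succ_apply' f.symm i a, iterate_succ_apply' f.symm i b]
      calc dist a b ≤ L ^ i * dist (f.symm^[i] a) (f.symm^[i] b) := ih
        _ ≤ L ^ i * (L * dist (f.symm (f.symm^[i] a)) (f.symm (f.symm^[i] b))) := by gcongr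
        _ = L ^ (i + 1) * dist (f.symm (f.symm^[i] a)) (f.symm (f.symm^[i] b)) := by ring
  refine ⟨r, L' ^ N * L ^ N, hr0, ?_, fun n z hz p hp q hq p' hp' q' hq' => ?_⟩
  · exact one_le_mul_of_one_le_of_one_le (one_le_pow₀ hL'1) (one_le_pow₀ hL1)
  set j := n / N with hj
  set i := n % N with hi
  have hij : N * j + i = n := Nat.div_add_mod n N
  have hiN : i < N := Nat.mod_lt _ hNpos
  have h1 := hblocks j z hz p hp q hq p' hp' q' hq'
  have h2 := hup i _ _ (Wl_iter (Wl_trans (Wl_comm hq) hp) (N * j))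
  have h3 := hlo i _ _ (Wl_iter (Wl_trans (Wl_comm hq') hp') (N * j))
  rw [← iterate_add_apply, ← iterate_add_apply, add_comm i, hij] at h2 h3
  have h4 : Real.exp (Real.log k' * n) = k' ^ n := by
    rw [mul_comm, Real.exp_nat_mul, Real.exp_log hk'0]
  rw [h4]
  have h5 : L' ^ i ≤ L' ^ N := pow_le_pow_right₀ hL'1 hiN.le
  have h6 : L ^ i ≤ L ^ N := pow_le_pow_right₀ hL1 hiN.le
  have h7 : k' ^ (N * j) ≤ k' ^ n := pow_le_pow_right₀ hk'1 (by omega)
  calc dist (f.symm^[n] p) (f.symm^[n] q) * dist p' q'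
      ≤ (L' ^ i * dist (f.symm^[N * j] p) (f.symm^[N * j] q)) * dist p' q' := by gcongr
    _ = L' ^ i * (dist (f.symm^[N * j] p) (f.symm^[N * j] q) * dist p' q') := by ring
    _ ≤ L' ^ i * (k' ^ (N * j) * dist (f.symm^[N * j] p') (f.symm^[N * j] q') * dist p q) := by
        gcongr
    _ ≤ L' ^ i * (k' ^ (N * j) * (L ^ i * dist (f.symm^[n] p') (f.symm^[n] q')) * dist p q) := by
        gcongr
    _ ≤ L' ^ N * (k' ^ n * (L ^ N * dist (f.symm^[n] p') (f.symm^[n] q')) * dist p q) := by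
        gcongr
    _ = L' ^ N * L ^ N * k' ^ n * dist (f.symm^[n] p') (f.symm^[n] q') * dist p q := by ring

end Pool.Agent.Lib.MP610fe3.AC
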