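import Pool.Agent.Lib.MP_610fe3_an.AC.Spec
import Pool.Agent.Lib.MP_610fe3_an.T6.MainB
import Pool.Agent.Lib.MP_610fe3_an.T6.Qc
import Pool.Agent.Lib.MP_610fe3_an.H6N.Side
import Pool.Agent.Lib.MP_610fe3_an.Cf.Main4

/-!
# Nearly conformal attractors: the inequality for splittings
-/

set_option autoImplicit false

open Set Filter Function Metric MeasureTheory
open scoped Topology ENNReal

namespace Pool.Agent.Lib.MP610fe3.AC

open Cf H6 T4 T6 TM

universe v w

namespace SplitM

/-- Rates with strict inequalities. -/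
theorem exists_rates {D a s t κ : ℝ} (ha : 0 < a) (hs : 0 < s)
    (h : D * κ * (t - a * s) < a ^ 2 * s) : ∃ a' s' κ' : ℝ, 0 < a' ∧ a' < a ∧ 0 < s' ∧ s' < s ∧
      κ < κ' ∧ D * κ' * (t - a' * s') < a' ^ 2 * s' := by
  have h1 : Tendsto (fun x : ℝ => (a - x) ^ 2 * (s - x) -
      D * (κ + x) * (t - (a - x) * (s - x))) (𝓝 0) (𝓝 (a ^ 2 * s - D * κ * (t - a * s))) := by
    have : Continuous (fun x : ℝ => (a - x) ^ 2 * (s - x) -
        D * (κ + x) * (t - (a - x) * (s - x))) := by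
      fun_prop
    have h2 := this.tendsto 0
    simpa using h2
  have h3 : ∀ᶠ x : ℝ in 𝓝[>] 0, 0 < (a - x) ^ 2 * (s - x) -
      D * (κ + x) * (t - (a - x) * (s - x)) :=
    (h1.eventually (lt_mem_nhds (by linarith))).filter_mono nhdsWithin_le_nhds
  have h5 : ∀ᶠ x : ℝ in 𝓝[>] 0, x < min a s :=
    (eventually_lt_nhds (lt_min ha hs)).filter_mono nhdsWithin_le_nhds
  obtain ⟨x, ⟨h6, h8⟩, h9⟩ := ((h3.and h5).and self_mem_nhdsWithin).exists
  have h9' : 0 < x := h9
  have h10 := lt_min_iff.1 h8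
  exact ⟨a - x, s - x, κ + x, by linarith [h10.1], by linarith, by linarith [h10.2],
    by linarith, by linarith, by linarith⟩

/-- The attractor is invariant. -/
theorem att_inv {M : Type v} [MetricSpace M] {f : M ≃ₜ M} {U : Set M} (hU : N3.Trap f U) (x : M) :
    f x ∈ N3.Att f U ↔ x ∈ N3.Att f U := by
  have e : ∀ n : ℕ, ev f (-((n + 1 : ℕ) : ℤ)) (f x) = ev f (-(n : ℤ)) x := by
    intro n
    rw [ev_neg_nat, ev_neg_nat, iterate_succ_apply, f.symm_apply_apply]
  constructor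
  · intro h n
    have h1 := h (n + 1)
    rwa [e] at h1
  · intro h n
    cases n with
    | zero =>
      have h1 := h 0
      simp only [Nat.cast_zero, neg_zero, ev_zero] at h1 ⊢
      exact hU.2 x (subset_closure h1)
    | succ n =>
      rw [e]
      exact h n

end SplitM

open SplitM in
/-- **The inequality for splittings.** -/
theorem specSplit (hComb : SpecComb.{v}) (hQc : SpecQcOn.{v, w}) : SpecSplit.{v, w} := by
  intro M _ _ _ W _ _ _ J f S hS d hd1 hrank C₀ a s b B κ hC₀ ha hs hsb haB hκ h1 h2 h3 h4 U hU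
    hfr h5 rA hrA hattr
  by_contra hcon
  rw [not_le] at hcon
  obtain ⟨a', s', κ', ha'0, ha', hs'0, hs', hκ', hineq⟩ := exists_rates ha hs hcon
  -- contraction
  obtain ⟨ε₁, C₁, hD₁⟩ := exists_dec_rate S hS (m := Real.exp (-s)) (l := Real.exp (-s'))
    (Real.exp_pos _) (Real.exp_lt_exp.2 (by linarith)) (by rw [Real.exp_lt_one_iff]; linarith) h1
  obtain ⟨ε₂, C₂, hD₂⟩ := exists_dec_rate S.swap hS.swap (m := Real.exp (-a))
    (l := Real.exp (-a')) (Real.exp_pos _) (Real.exp_lt_exp.2 (by linarith))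
    (by rw [Real.exp_lt_one_iff]; linarith) h3
  have hε₁ := hD₁.ε_pos
  have hε₂ := hD₂.ε_pos
  -- local product structure
  obtain ⟨εB, CB, hBr⟩ := br M W J f S hS
  have hεB := hBr.ε_pos
  -- crude quasiconformality
  have h6 : ∀ (n : ℕ) (x : M) (v w : W), ‖iterD S.D f n x (S.U x v)‖ * ‖S.U x w‖ ≤
      C₀ * C₀ * Real.exp (B - a) ^ n * ‖iterD S.D f n x (S.U x w)‖ * ‖S.U x v‖ := by
    intro n x v w
    have e1 : ‖iterD S.D f n x (S.U x v)‖ ≤ C₀ * Real.exp B ^ n * ‖S.U x v‖ := by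
      have := h4 n x (S.U x v)
      rwa [S.UU_apply] at this
    have e2 : ‖S.U x w‖ ≤ C₀ * Real.exp (-a) ^ n * ‖iterD S.D f n x (S.U x w)‖ := by
      have h7 := S.iter_backU n x w
      have h8 : iterD S.D f n x (S.U x w) = S.U (f^[n] x) (iterD S.D f n x (S.U x w)) := by
        rw [S.iterDU_apply, S.UU_apply]
      have h9 := h3 n (f^[n] x) (iterD S.D f n x (S.U x w))
      rw [← h8, h7] at h9
      exact h9
    have e3 : Real.exp (B - a) ^ n = Real.exp B ^ n * Real.exp (-a) ^ n := by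
      rw [← mul_pow, ← Real.exp_add, ← sub_eq_add_neg]
    rw [e3]
    calc ‖iterD S.D f n x (S.U x v)‖ * ‖S.U x w‖ ≤ (C₀ * Real.exp B ^ n * ‖S.U x v‖) *
        (C₀ * Real.exp (-a) ^ n * ‖iterD S.D f n x (S.U x w)‖) := by gcongr
      _ = _ := by ring
  obtain ⟨rq, Cq, hrq, hCq, hqc⟩ := T6.specQc S hS (C₀ * C₀) (Real.exp (B - a))
    (Real.exp (B - a + 1)) (Real.one_le_exp (by linarith)) (Real.exp_lt_exp.2 (by linarith)) h6
  rw [Real.log_exp] at hqc
  -- quasiconformality over the attractor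
  obtain ⟨ro, Co, hro, hCo, hqo⟩ := hQc S hS (N3.Att f U) (att_inv hU) C₀ (Real.exp κ)
    (Real.exp κ') (Real.one_le_exp hκ) (Real.exp_lt_exp.2 hκ') h5
  rw [Real.log_exp] at hqo
  -- parametrizations
  obtain ⟨ρU, Λ, φ, hφ⟩ := exists_uplaq S.swap hS.swap (u := d) hrank
  obtain ⟨ds, hds⟩ := Cf.exists_rank S hS
  obtain ⟨ρS, ΛS, φS, hφS⟩ := exists_uplaq S hS (u := ds) hds
  -- Lipschitz bound
  obtain ⟨L₀, r₀, hL₀, hr₀, hlip₀⟩ := S.hD.exists_lip
  obtain ⟨L, hL, hlip⟩ := MainB.lip_of_local (f := f) (by linarith : (0 : ℝ) ≤ L₀) hr₀ hlip₀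
  -- the number of steps
  obtain ⟨ρs, Λs, hρs, hΛs, hslow⟩ := exists_slow S hS (κ := Real.exp b) hC₀
    (Real.exp_pos _).le h2 (ε₁ := ε₁) hε₁
  obtain ⟨ρu, Λu, hρu, hΛu, hslow'⟩ := exists_slow S.swap hS.swap (κ := Real.exp B) hC₀
    (Real.exp_pos _).le h4 (ε₁ := ε₂) hε₂
  obtain ⟨es, hes, hRs⟩ := reachP_univ (f := f.symm) (b := b) hφS hD₁ (by linarith) hρs hΛs hslow
  obtain ⟨eu, heu, hRu⟩ := reachP_univ (f := f) (b := B) hφ hD₂ (by linarith) hρu hΛu hslow'
  have hReachU : N3.Reaches f univ (min es eu) B :=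
    N3.ReachW.reaches (by
      rw [preimage_univ]
      exact (hRu.mono subset_rfl (min_le_right _ _) le_rfl).reachW hD₂)
  have hReachS : N3.Reaches f.symm univ (min es eu) b :=
    N3.ReachW.reaches (by
      rw [preimage_univ]
      exact (hRs.mono subset_rfl (min_le_left _ _) le_rfl).reachW (f := f.symm) hD₁)
  -- the constant
  set C : ℝ := max (max (max C₁ C₂) CB) (max (max Cq Λ) L) with hC
  have hC1 : 1 ≤ C := hD₁.one_le.trans ((le_max_left _ _).trans ((le_max_left _ _).trans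
    (le_max_left _ _)))
  have hC0 : 0 < C := by linarith
  have hCC₁ : C₁ ≤ C := (le_max_left _ _).trans ((le_max_left _ _).trans (le_max_left _ _))
  have hCC₂ : C₂ ≤ C := (le_max_right _ _).trans ((le_max_left _ _).trans (le_max_left _ _))
  have hCCB : CB ≤ C := (le_max_right _ _).trans (le_max_left _ _)
  have hCCq : Cq ≤ C := (le_max_left _ _).trans ((le_max_left _ _).trans (le_max_right _ _))
  have hCΛ : Λ ≤ C := (le_max_right _ _).trans ((le_max_left _ _).trans (le_max_right _ _))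
  have hCL : L ≤ C := (le_max_right _ _).trans (le_max_right _ _)
  -- the scales
  set r : ℝ := min (min (min ε₁ ε₂) (min εB rq)) (min rA ro) with hr
  have hr0 : 0 < r := by positivity
  have hr1 : r ≤ ε₁ := (min_le_left _ _).trans ((min_le_left _ _).trans (min_le_left _ _))
  have hr2 : r ≤ ε₂ := (min_le_left _ _).trans ((min_le_left _ _).trans (min_le_right _ _))
  have hr3 : r ≤ εB := (min_le_left _ _).trans ((min_le_right _ _).trans (min_le_left _ _))
  have hr4 : r ≤ rq := (min_le_left _ _).trans ((min_le_right _ _).trans (min_le_right _ _))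
  have hr5 : r ≤ rA := (min_le_right _ _).trans (min_le_left _ _)
  have hr6 : r ≤ ro := (min_le_right _ _).trans (min_le_right _ _)
  obtain ⟨δ, hδ, hbr⟩ := hBr.exist (r / 16) (by positivity)
  set r₁ : ℝ := δ / 2 with hr₁
  have hr₁0 : 0 < r₁ := by positivity
  obtain ⟨ρ, hρ0, hρU, hρm⟩ := hφ.mem (r / 4) (by positivity)
  obtain ⟨ε', hε'0, honto⟩ := hφ.onto (ρ / 2) (by positivity)
  set e : ℝ := min (min (r / (64 * C)) (r₁ / 4)) (ε' / 4) with he
  have he0 : 0 < e := by positivity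
  have he1 : e ≤ r / (64 * C) := (min_le_left _ _).trans (min_le_left _ _)
  have he2 : e ≤ r₁ / 4 := (min_le_left _ _).trans (min_le_right _ _)
  have he3 : e ≤ ε' / 4 := min_le_right _ _
  have hsub : closedBall (0 : EuclideanSpace ℝ (Fin d)) ρ ⊆ closedBall 0 ρU :=
    closedBall_subset_closedBall hρU
  have hSys : Sys f d φ C a' s' (B - a + 1) r r₁ e ρ :=
    { u_pos := hd1
      a_pos := ha'0
      b_pos := hs'0
      κ_nonneg := by linarith
      fwd := hD₁.mono hr0 hr1 hCC₁ le_rfl hD₁.l_lt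
      bwd := hD₂.mono hr0 hr2 hCC₂ le_rfl hD₂.l_lt
      br := hBr.mono hr0 hr3 hCCB
      lip := fun x y => (hlip x y).trans (mul_le_mul_of_nonneg_right hCL dist_nonneg)
      qc := MainB.Qc.mono hqc hr4 hCCq
      e_pos := he0
      e_le := by
        calc 64 * C * e ≤ 64 * C * (r / (64 * C)) := by gcongr
          _ = r := by field_simp
      r₁_pos := hr₁0
      e_le' := by linarith
      step := fun p q hpq => by
        have h5 : dist q p < δ := by
          rw [dist_comm]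
          exact hpq.trans_lt (by rw [hr₁]; linarith)
        obtain ⟨z, hz1, hz2⟩ := hbr q p h5
        exact ⟨z, hz2, hz1⟩
      ρ_pos := hρ0
      zero := hφ.zero
      upper := fun x p hp q hq => (hφ.upper x p (hsub hp) q (hsub hq)).trans
        (mul_le_mul_of_nonneg_right hCΛ dist_nonneg)
      lower := fun x p hp q hq => (hφ.lower x p (hsub hp) q (hsub hq)).trans
        (mul_le_mul_of_nonneg_right hCΛ dist_nonneg)
      mem := hρm
      onto := fun x z hz => honto x z (Wl_mono (by linarith) hz) }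
  have hqo' : QcOn f (N3.Att f U) r Co κ' := fun n z hz p hp q hq p' hp' q' hq' =>
    hqo n z hz p (Wl_mono hr6 hp) q (Wl_mono hr6 hq) p' (Wl_mono hr6 hp') q' (Wl_mono hr6 hq')
  have hfin := hComb f d φ C a' s' (B - a + 1) r r₁ e ρ κ' Co b B (min es eu) U hSys hU hfr
    (hattr r hr0 hr5) (by linarith) (by linarith) hqo' (lt_min hes heu) (by linarith)
    (by linarith) hReachU hReachS
  linarith

end Pool.Agent.Lib.MP610fe3.AC
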