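import Pool.Agent.Lib.MP_610fe3_an.AC.ADON
import Pool.Agent.Lib.MP_610fe3_an.AC.CORQ
import Pool.Agent.Lib.MP_610fe3_an.AC.Comb
import Pool.Agent.Lib.MP_610fe3_an.AC.EXTQ
import Pool.Agent.Lib.MP_610fe3_an.AC.FinalOf
import Pool.Agent.Lib.MP_610fe3_an.AC.JOHN
import Pool.Agent.Lib.MP_610fe3_an.AC.MIX
import Pool.Agent.Lib.MP_610fe3_an.AC.PERA
import Pool.Agent.Lib.MP_610fe3_an.AC.QCON
import Pool.Agent.Lib.MP_610fe3_an.AC.SPLIT
import Pool.Agent.Lib.MP_610fe3_an.PR.All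

/-!
# Attractors of Anosov diffeomorphisms are not nearly conformal: assembly, from SpecEyOn
-/

namespace Pool.Agent.Lib.MP610fe3.AC

universe u v

theorem kal : PR.SpecKal.{v, 0} :=
  PR.specKal PR.specForms PR.specRank PR.specChoice
    (PR.specScale (PR.specSimple_of PR.specGood PR.specDom PR.specPert PR.specCone))

/-- The `C^1` theorem. -/
theorem mfd_of (hEy : SpecEyOn.{v}) : SpecMfd.{u, v} :=
  specMfd_of specMix (specSplit (specComb (specJohn hEy) (specExtQ_of specCorQ)) specQcOn)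

/-- The `C^2` theorem. -/
theorem perA_of (hEy : SpecEyOn.{v}) : SpecPerA.{u, v} :=
  specPerA_of (mfd_of hEy) (specAdOn kal) PR.specHol (PR.specRat kal PR.specClo)

end Pool.Agent.Lib.MP610fe3.AC
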