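import Pool.Agent.Lib.MP_610fe3_an.AC.Spec

/-!
# Nearly conformal attractors: the theorem with sharper numbers

The inequality `a² s ≤ P κ ((b - s) B - a s)`, where `P = u²`, or `P = u (u - 1)`.
-/

open Set Filter Function Metric MeasureTheory
open scoped Topology ENNReal

namespace Pool.Agent.Lib.MP610fe3.AC

open Cf H6 T4 T6

universe v w

/-- Module COMB with sharper numbers: as `SpecComb`, from `JOHN` and `SpecExtQ2`. -/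
def SpecComb2 (P : ℕ → ℝ) : Prop :=
  ∀ {M : Type v} [MetricSpace M] [CompactSpace M] (f : M ≃ₜ M) (u : ℕ)
    (φ : M → EuclideanSpace ℝ (Fin u) → M) (C a s κ₀ r r₁ e ρ κ C₂ b B e₁ : ℝ) (U : Set M),
    Sys f u φ C a s κ₀ r r₁ e ρ → N3.Trap f U → (frontier U).Nonempty →
    Attr f (N3.Att f U) r → 0 ≤ C₂ → 0 ≤ κ → QcOn f (N3.Att f U) r C₂ κ → 0 < e₁ → s ≤ b →
    0 < b → 0 < B →
    N3.Reaches f univ e₁ B → N3.Reaches f.symm univ e₁ b →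
    a ^ 2 * s ≤ P u * κ * ((b - s) * B - a * s)

/-- Module SPLIT with sharper numbers. -/
def SpecSplit2 (P : ℕ → ℝ) : Prop :=
  ∀ {M : Type v} [MetricSpace M] [CompactSpace M] [ConnectedSpace M] {W : Type w}
    [NormedAddCommGroup W] [InnerProductSpace ℝ W] [FiniteDimensional ℝ W] {J : Emb M W}
    {f : M ≃ₜ M} (S : Split J f), S.Hyperbolic → ∀ {d : ℕ}, 1 ≤ d →
    (∀ x, Module.finrank ℝ ((S.U x).range) = d) → ∀ {C₀ a s b B κ : ℝ}, 0 ≤ C₀ → 0 < a → 0 < s →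
    s ≤ b → a ≤ B → 0 ≤ κ →
    (∀ (k : ℕ) (x : M) (w : W), ‖iterD S.D f k x (S.S x w)‖ ≤ C₀ * Real.exp (-s) ^ k * ‖w‖) →
    (∀ (k : ℕ) (x : M) (w : W), ‖iterD S.Di f.symm k x (S.S x w)‖ ≤ C₀ * Real.exp b ^ k * ‖w‖) →
    (∀ (k : ℕ) (x : M) (w : W), ‖iterD S.Di f.symm k x (S.U x w)‖ ≤ C₀ * Real.exp (-a) ^ k * ‖w‖) →
    (∀ (k : ℕ) (x : M) (w : W), ‖iterD S.D f k x (S.U x w)‖ ≤ C₀ * Real.exp B ^ k * ‖w‖) →
    ∀ U : Set M, N3.Trap f U → (frontier U).Nonempty →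
    (∀ (n : ℕ), ∀ x ∈ N3.Att f U, ∀ v w : W, ‖iterD S.D f n x (S.U x v)‖ * ‖S.U x w‖ ≤
      C₀ * Real.exp κ ^ n * ‖iterD S.D f n x (S.U x w)‖ * ‖S.U x v‖) →
    ∀ rA : ℝ, 0 < rA → (∀ r, 0 < r → r ≤ rA → Attr f (N3.Att f U) r) →
    a ^ 2 * s ≤ P d * κ * ((b - s) * B - a * s)

end Pool.Agent.Lib.MP610fe3.AC
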