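import Pool.Agent.Lib.MP_610fe3_an.AC.Statement

/-!
# Attractors of Anosov diffeomorphisms are not nearly conformal: sharper numbers
-/

open Set Filter Function Bundle
open scoped Manifold ContDiff Topology

namespace Pool.Agent.Lib.MP610fe3.AC

section Main

variable {V : Type*} [NormedAddCommGroup V] [NormedSpace ℝ V]
  {M : Type*} [TopologicalSpace M] [ChartedSpace V M]
  [RiemannianBundle (fun x : M => TangentSpace 𝓘(ℝ, V) x)]

/-- The conclusion for a proper attracting region `U`, in terms of the periodic points: if the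
exponents at all periodic points satisfy `PerBounds`, the defect of conformality `κ` of `Eu` at the
periodic points IN `U` cannot be small. -/
def NonConf2 (P : ℕ → ℝ) (f : M ≃ₘ^1⟮𝓘(ℝ, V), 𝓘(ℝ, V)⟯ M)
    (Es Eu : ∀ x : M, Submodule ℝ (TangentSpace 𝓘(ℝ, V) x)) (U : Set M) : Prop :=
  ∀ s b a B κ : ℝ, 0 < s → s ≤ b → 0 < a → a ≤ B → 0 ≤ κ → PerBounds f Es Eu s b a B →
    (∀ p ∈ periodicPts f, p ∈ U → DefectAt f Eu κ p) →
    ∀ x : M, a ^ 2 * s ≤ P (Module.finrank ℝ (Eu x)) * κ * ((b - s) * B - a * s)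

end Main

universe u v

/-- Module MFD: the `C^1` theorem. Proof: as T6.MainC.main_metric: MIX gives the power `n` and the
mixing attractor `A ⊆ Att f U`; the rates of `g = f^n` are `n s, n b, n a, n B, n κ` (both sides of the
inequality are multiplied by `n^3`); `Gen.exists_split` for `g`, transfer of the rates, SPLIT. If
`Eu = 0` then `f` is transitive (`Holo.trans_of_zero`), so that `U` does not exist. -/
def SpecMfd2 (P : ℕ → ℝ) : Prop :=
  ∀ {V : Type u} [NormedAddCommGroup V] [NormedSpace ℝ V] [FiniteDimensional ℝ V]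
    {M : Type v} [TopologicalSpace M] [CompactSpace M] [T2Space M] [ConnectedSpace M]
    [ChartedSpace V M] [IsManifold 𝓘(ℝ, V) ∞ M]
    [RiemannianBundle (fun x : M => TangentSpace 𝓘(ℝ, V) x)]
    [IsContinuousRiemannianBundle V (fun x : M => TangentSpace 𝓘(ℝ, V) x)]
    (f : M ≃ₘ^1⟮𝓘(ℝ, V), 𝓘(ℝ, V)⟯ M)
    (Es Eu : ∀ x : M, Submodule ℝ (TangentSpace 𝓘(ℝ, V) x)),
    Gen.IsAnosovSplitting f Es Eu → ∀ C s b a B κ : ℝ, 0 < s → s ≤ b → 0 < a → a ≤ B → 0 ≤ κ →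
    UniRates f Es Eu C s b a B → ∀ U : Set M, ProperAttracting f U →
    (∀ (n : ℕ) (x : M), (∀ k : ℕ, f.symm^[k] x ∈ U) → ∀ v ∈ Eu x, ∀ w ∈ Eu x,
      ‖mfderiv 𝓘(ℝ, V) 𝓘(ℝ, V) ((⇑f)^[n]) x v‖ * ‖w‖ ≤
        C * Real.exp (κ * n) * ‖mfderiv 𝓘(ℝ, V) 𝓘(ℝ, V) ((⇑f)^[n]) x w‖ * ‖v‖) →
    ∀ x : M, a ^ 2 * s ≤ P (Module.finrank ℝ (Eu x)) * κ * ((b - s) * B - a * s)

/-- Module PERA: the `C^2` theorem, in terms of the periodic points. Proof: as PR/PER.lean
`rates_metric`: embedding, `Split`, HOL, RAT for the four growth conditions, ADON for the distortion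
over `Att f U`, translation to `UniRates` and the hypothesis of MFD with slightly worse numbers, and
`ε → 0` in the inequality. -/
def SpecPerA2 (P : ℕ → ℝ) : Prop :=
  ∀ {V : Type u} [NormedAddCommGroup V] [NormedSpace ℝ V] [FiniteDimensional ℝ V]
    {M : Type v} [TopologicalSpace M] [CompactSpace M] [T2Space M] [ConnectedSpace M]
    [ChartedSpace V M] [IsManifold 𝓘(ℝ, V) ∞ M]
    [RiemannianBundle (fun x : M => TangentSpace 𝓘(ℝ, V) x)]
    [IsContinuousRiemannianBundle V (fun x : M => TangentSpace 𝓘(ℝ, V) x)]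
    (f : M ≃ₘ^1⟮𝓘(ℝ, V), 𝓘(ℝ, V)⟯ M), ContMDiff 𝓘(ℝ, V) 𝓘(ℝ, V) 2 f →
    ContMDiff 𝓘(ℝ, V) 𝓘(ℝ, V) 2 f.symm → ∀ (Es Eu : ∀ x : M, Submodule ℝ (TangentSpace 𝓘(ℝ, V) x)),
    Gen.IsAnosovSplitting f Es Eu → ∀ U : Set M, ProperAttracting f U → NonConf2 P f Es Eu U

end Pool.Agent.Lib.MP610fe3.AC
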