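import Pool.Agent.Lib.MP_610fe3_an.AC.PERA
import Pool.Agent.Lib.MP_610fe3_an.AC.Spec2
import Pool.Agent.Lib.MP_610fe3_an.AC.Statement2

/-!
# Module PERA with sharper numbers
-/

open Set Filter Function Bundle
open scoped Manifold ContDiff Topology

namespace Pool.Agent.Lib.MP610fe3.AC

universe u v

/-- **Module PERA.** -/
theorem specPerA2_of {P : ℕ → ℝ} (hMfd : SpecMfd2.{u, v} P) (hAdOn : SpecAdOn.{v, 0})
    (hHol : PR.SpecHol.{v, 0}) (hRat : PR.SpecRat.{v, 0}) : SpecPerA2.{u, v} P := by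
  intro V _ _ _ M _ _ _ _ _ _ _ _ f hf hfs Es Eu hA U hU s b a B κ hs hsb ha haB hκ hR hK' x
  obtain ⟨N, e, he, hemb, hinj⟩ := exists_embedding_euclidean_of_compact (I := 𝓘(ℝ, V)) (M := M)
  let _ : MetricSpace M := hemb.isEmbedding.comapMetricSpace e
  have hiso : Isometry e := hemb.isEmbedding.to_isometry
  set d : ℝ := P (Module.finrank ℝ (Eu x)) with hd
  have hc : Continuous fun ε : ℝ => d * (κ + ε) * ((b + ε - (s - ε)) * (B + ε) - (a - ε) * (s - ε)) -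
      (a - ε) ^ 2 * (s - ε) := by fun_prop
  have h1 : ∀ᶠ ε in 𝓝[>] (0 : ℝ), 0 ≤ d * (κ + ε) * ((b + ε - (s - ε)) * (B + ε) - (a - ε) * (s - ε)) -
      (a - ε) ^ 2 * (s - ε) := by
    have h2 : ∀ᶠ ε in 𝓝[>] (0 : ℝ), ε < min s a :=
      (eventually_lt_nhds (lt_min hs ha)).filter_mono nhdsWithin_le_nhds
    filter_upwards [h2, self_mem_nhdsWithin] with ε h3 h4
    have h5 := lt_min_iff.1 h3
    have h6 : (0 : ℝ) < ε := h4
    obtain ⟨C, hC1, hC2⟩ := PerAM.rates_metric hHol hRat hAdOn e hiso he hinj f hf hfs Es Eu hA hU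
      hR hK' h6
    have h7 := hMfd f Es Eu hA C (s - ε) (b + ε) (a - ε) (B + ε) (κ + ε) (by linarith [h5.1])
      (by linarith) (by linarith [h5.2]) (by linarith) (by linarith) hC1 U hU hC2 x
    linarith
  have h8 : 0 ≤ (fun ε : ℝ => d * (κ + ε) * ((b + ε - (s - ε)) * (B + ε) - (a - ε) * (s - ε)) -
      (a - ε) ^ 2 * (s - ε)) 0 :=
    ge_of_tendsto ((hc.tendsto 0).mono_left nhdsWithin_le_nhds) h1
  simp only [add_zero, sub_zero] at h8
  linarith

end Pool.Agent.Lib.MP610fe3.AC
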