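import Pool.Agent.Lib.MP_610fe3_an.AC.FinalOf
import Pool.Agent.Lib.MP_610fe3_an.AC.PERA2

/-!
# The final theorems, from SpecPerA2
-/

open Set Filter Function Bundle
open scoped Manifold ContDiff Topology

namespace Pool.Agent.Lib.MP610fe3.AC

open Cf

universe u v

section

variable {V : Type u} [NormedAddCommGroup V] [NormedSpace ℝ V] [FiniteDimensional ℝ V]
  {M : Type v} [TopologicalSpace M] [CompactSpace M] [T2Space M] [ConnectedSpace M]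
  [ChartedSpace V M] [IsManifold 𝓘(ℝ, V) ∞ M]
  [RiemannianBundle (fun x : M => TangentSpace 𝓘(ℝ, V) x)]
  [IsContinuousRiemannianBundle V (fun x : M => TangentSpace 𝓘(ℝ, V) x)]

/-- Both inequalities. -/
theorem both2_of {P : ℕ → ℝ} (hPerA : SpecPerA2.{u, v} P)
    (f : M ≃ₘ^1⟮𝓘(ℝ, V), 𝓘(ℝ, V)⟯ M)
    (hf : ContMDiff 𝓘(ℝ, V) 𝓘(ℝ, V) 2 f) (hf' : ContMDiff 𝓘(ℝ, V) 𝓘(ℝ, V) 2 f.symm)
    (Es Eu : ∀ x : M, Submodule ℝ (TangentSpace 𝓘(ℝ, V) x)) (hA : Gen.IsAnosovSplitting f Es Eu)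
    {U : Set M} (hU : ProperAttracting f U) :
    NonConf2 P f Es Eu U ∧ NonConf2 P f.symm Eu Es (closure U)ᶜ :=
  ⟨hPerA f hf hf' Es Eu hA U hU,
    hPerA f.symm hf' hf Eu Es (IsAnosovSplitting.symm hA) _
      (ProperAttracting.dual (f := f.toHomeomorph) hU)⟩

/-- One side of the conformal case. -/
theorem exists_defect2_of {P : ℕ → ℝ} (hP0 : ∀ n, 0 ≤ P n) (hPerA : SpecPerA2.{u, v} P)
    (f : M ≃ₘ^1⟮𝓘(ℝ, V), 𝓘(ℝ, V)⟯ M)
    (hf : ContMDiff 𝓘(ℝ, V) 𝓘(ℝ, V) 2 f) (hf' : ContMDiff 𝓘(ℝ, V) 𝓘(ℝ, V) 2 f.symm)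
    (Es Eu : ∀ x : M, Submodule ℝ (TangentSpace 𝓘(ℝ, V) x)) (hA : Gen.IsAnosovSplitting f Es Eu)
    {U : Set M} (hU : ProperAttracting f U) :
    ∃ κ : ℝ, 0 < κ ∧ ∃ p ∈ periodicPts f, p ∈ U ∧ ¬ DefectAt f Eu κ p := by
  obtain ⟨s, b, a, B, hs, hsb, ha, haB, hP⟩ := exists_perBounds f Es Eu hA
  obtain ⟨x⟩ : Nonempty M := inferInstance
  have H := hPerA f hf hf' Es Eu hA U hU
  set d : ℝ := P (Module.finrank ℝ (Eu x)) with hd
  have hd0 : 0 ≤ d := hP0 _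
  have hb : 0 < b := by linarith
  have hB : 0 < B := by linarith
  set κ : ℝ := a ^ 2 * s / (2 * (d * (b * B) + 1)) with hκ
  have hden : 0 < 2 * (d * (b * B) + 1) := by positivity
  have hκ0 : 0 < κ := by positivity
  refine ⟨κ, hκ0, ?_⟩
  by_contra hnot
  push Not at hnot
  have h1 := H s b a B κ hs hsb ha haB hκ0.le hP (fun p hp hpU => hnot p hp hpU) x
  have h2 : d * κ * ((b - s) * B - a * s) ≤ κ * (d * (b * B) + 1) := by
    have i1 : 0 ≤ a * s := by positivity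
    have i2 : 0 ≤ d * κ * (a * s) := by positivity
    have i3 : 0 ≤ d * κ * (s * B) := by positivity
    nlinarith
  have h3 : κ * (2 * (d * (b * B) + 1)) = a ^ 2 * s := div_mul_cancel₀ _ hden.ne'
  have h4 : 0 < a ^ 2 * s := by positivity
  rw [← hd] at h1
  linarith

/-- The conformal case. -/
theorem two_exponents2_of {P : ℕ → ℝ} (hP0 : ∀ n, 0 ≤ P n) (hPerA : SpecPerA2.{u, v} P)
    (f : M ≃ₘ^1⟮𝓘(ℝ, V), 𝓘(ℝ, V)⟯ M)
    (hf : ContMDiff 𝓘(ℝ, V) 𝓘(ℝ, V) 2 f) (hf' : ContMDiff 𝓘(ℝ, V) 𝓘(ℝ, V) 2 f.symm)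
    (Es Eu : ∀ x : M, Submodule ℝ (TangentSpace 𝓘(ℝ, V) x)) (hA : Gen.IsAnosovSplitting f Es Eu)
    {U : Set M} (hU : ProperAttracting f U) :
    (∃ p ∈ periodicPts f, p ∈ U ∧ ¬ DefectAt f Eu 0 p) ∧
      ∃ p ∈ periodicPts f, p ∉ U ∧ ¬ DefectAt f.symm Es 0 p := by
  have mono : ∀ (g : M → M) (F : ∀ x : M, Submodule ℝ (TangentSpace 𝓘(ℝ, V) x)) (κ : ℝ), 0 < κ →
      ∀ p, DefectAt g F 0 p → DefectAt g F κ p := by
    intro g F κ hκ p h ε hε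
    obtain ⟨C, hC⟩ := h ε hε
    refine ⟨|C|, fun n v hv w hw => (hC n v hv w hw).trans ?_⟩
    have : (0 : ℝ) ≤ n := Nat.cast_nonneg n
    gcongr
    exact le_abs_self C
  constructor
  · obtain ⟨κ, hκ, p, hp, hpU, h⟩ := exists_defect2_of hP0 hPerA f hf hf' Es Eu hA hU
    exact ⟨p, hp, hpU, fun h0 => h (mono _ _ κ hκ p h0)⟩
  · obtain ⟨κ, hκ, p, hp, hpU, h⟩ := exists_defect2_of hP0 hPerA f.symm hf' hf Eu Es
      (IsAnosovSplitting.symm hA) (ProperAttracting.dual (f := f.toHomeomorph) hU)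
    refine ⟨p, ?_, fun h1 => hpU (subset_closure h1), fun h0 => h (mono _ _ κ hκ p h0)⟩
    have h1 := periodicPts_symm f.toHomeomorph.toEquiv
    exact (h1 ▸ hp : p ∈ periodicPts f.toHomeomorph.toEquiv)

end

end Pool.Agent.Lib.MP610fe3.AC
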