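import Pool.Agent.Lib.MP_610fe3_an.AC.Spec2
import Pool.Agent.Lib.MP_610fe3_an.AC.Statement2
import Pool.Agent.Lib.MP_610fe3_an.AC.MFD
import Pool.Agent.Lib.MP_610fe3_an.PR.PER
import Pool.Agent.Lib.MP_610fe3_an.TD.Mfd
import Pool.Agent.Lib.MP_610fe3_an.Holo.Main

/-!
# Module MFD: the `C^1` theorem for manifolds
-/

open Set Filter Function Bundle
open scoped Manifold ContDiff Topology

namespace Pool.Agent.Lib.MP610fe3.AC

open Cf H6 T4 Gen Mfd T4.MainA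

universe u v

namespace Mfd2M

open MfdM

/-- The theorem for metric spaces. -/
theorem main_metric {P : ℕ → ℝ} (specMix : SpecMix.{v}) (specSplit : SpecSplit2.{v, 0} P)
    {V : Type u} [NormedAddCommGroup V] [NormedSpace ℝ V] [FiniteDimensional ℝ V] {N : ℕ}
    {M : Type v} [MetricSpace M] [CompactSpace M] [ConnectedSpace M]
    [ChartedSpace V M] [IsManifold 𝓘(ℝ, V) ∞ M]
    [RiemannianBundle (fun x : M => TangentSpace 𝓘(ℝ, V) x)]
    [IsContinuousRiemannianBundle V (fun x : M => TangentSpace 𝓘(ℝ, V) x)]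
    (e : M → EuclideanSpace ℝ (Fin N)) (hiso : Isometry e)
    (he : ContMDiff 𝓘(ℝ, V) (𝓡 N) ∞ e)
    (hinj : ∀ x, Injective (mfderiv 𝓘(ℝ, V) (𝓡 N) e x))
    (f : M ≃ₘ^1⟮𝓘(ℝ, V), 𝓘(ℝ, V)⟯ M)
    (Es Eu : ∀ x : M, Submodule ℝ (TangentSpace 𝓘(ℝ, V) x))
    (hA : Gen.IsAnosovSplitting f Es Eu) {C₀ s b a B κ : ℝ} {d : ℕ} (hd : 1 ≤ d)
    (hdim : ∀ x, Module.finrank ℝ (Eu x) = d) (hs : 0 < s) (hsb : s ≤ b)
    (ha : 0 < a) (haB : a ≤ B) (hκ : 0 ≤ κ) (hR₀ : UniRates f Es Eu C₀ s b a B) {U : Set M}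
    (hU : ProperAttracting f U)
    (hconf : ∀ (n : ℕ) (x : M), (∀ k : ℕ, f.symm^[k] x ∈ U) → ∀ v ∈ Eu x, ∀ w ∈ Eu x,
      ‖mfderiv 𝓘(ℝ, V) 𝓘(ℝ, V) ((⇑f)^[n]) x v‖ * ‖w‖ ≤
        C₀ * Real.exp (κ * n) * ‖mfderiv 𝓘(ℝ, V) 𝓘(ℝ, V) ((⇑f)^[n]) x w‖ * ‖v‖) :
    a ^ 2 * s ≤ P d * κ * ((b - s) * B - a * s) := by
  obtain ⟨E, hE, hEP, hr⟩ := Gen.exists_emb e hiso he hinj
  subst hE
  have hinj' : ∀ x, Injective (dF V E.e x) := hinj
  -- a nonnegative constant
  set C : ℝ := max C₀ 0 with hC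
  have hC0 : 0 ≤ C := le_max_right _ _
  have hCC : C₀ ≤ C := le_max_left _ _
  have hR : UniRates f Es Eu C s b a B := by
    refine ⟨fun n x v hv => ?_, fun n x v hv => ?_, fun n x v hv => ?_, fun n x v hv => ?_⟩
    · refine (hR₀.s_fwd n x v hv).trans ?_
      gcongr
    · refine (hR₀.s_bwd n x v hv).trans ?_
      gcongr
    · refine (hR₀.u_bwd n x v hv).trans ?_
      gcongr
    · refine (hR₀.u_fwd n x v hv).trans ?_
      gcongr
  -- the power
  obtain ⟨S₀, hS₀, -, -⟩ := Gen.exists_split E he hinj hr f Es Eu hA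
  obtain ⟨c, hc0, hc⟩ := S₀.expansive hS₀
  have hTM : TM.Hyp f.toHomeomorph c := ⟨hc0, hc, S₀.shadowing hS₀⟩
  obtain ⟨e₀, C', a₀, -, -, hrates, -, -⟩ := TD.exists_base S₀ hS₀
  obtain ⟨hop, hne, huniv, htrap⟩ := hU
  have hT : N3.Trap f.toHomeomorph U := ⟨hop, fun x hx => htrap ⟨x, hx, rfl⟩⟩
  obtain ⟨n, A, U₁, rA, hn, hAU, hrA, hmix⟩ := specMix hTM hrates U hT hne huniv
  have hn0 : (0 : ℝ) < n := by exact_mod_cast hn
  obtain ⟨g, hg, hg', hAg, hRg⟩ := exists_pow f Es Eu C s b a B hn hA hR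
  obtain ⟨hTg, hfr, hAtt, hattr⟩ := hmix g.toHomeomorph hg hg'
  obtain ⟨S, hS, hSs, hSu⟩ := Gen.exists_split E he hinj hr g Es Eu hAg
  obtain ⟨K, hK1, hK⟩ := S.exists_bdd
  have hK0 : 0 ≤ K := by linarith
  have hexp : ∀ (t : ℝ) (k : ℕ), Real.exp (t * k) = Real.exp t ^ k := fun t k => exp_rate t k
  obtain ⟨C₁, hC₁, H₁⟩ := rate_transfer E he hinj hEP g.contMDiff S.hD hK0 (fun x => (hK x).1)
    hSs hC0 (Real.exp_pos (-(n * s))).le (fun k x v hv => by
      rw [← hexp]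
      exact hRg.s_fwd k x v hv)
  obtain ⟨C₂, hC₂, H₂⟩ := rate_transfer E he hinj hEP g.symm.contMDiff S.hDi hK0
    (fun x => (hK x).1) hSs hC0 (Real.exp_pos (n * b)).le (fun k x v hv => by
      rw [← hexp]
      exact hRg.s_bwd k x v hv)
  obtain ⟨C₃, hC₃, H₃⟩ := rate_transfer E he hinj hEP g.symm.contMDiff S.hDi hK0
    (fun x => (hK x).2) hSu hC0 (Real.exp_pos (-(n * a))).le (fun k x v hv => by
      rw [← hexp]
      exact hRg.u_bwd k x v hv)
  obtain ⟨C₄, hC₄, H₄⟩ := rate_transfer E he hinj hEP g.contMDiff S.hD hK0 (fun x => (hK x).2)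
    hSu hC0 (Real.exp_pos (n * B)).le (fun k x v hv => by
      rw [← hexp]
      exact hRg.u_fwd k x v hv)
  -- the distortion
  obtain ⟨c₀, D₁, hc₀, hD₁, hnb⟩ := exists_norm_bounds E.e he hinj
  have hn' : ∀ x (v : TangentSpace 𝓘(ℝ, V) x), c₀ * ‖v‖ ≤ ‖dE V E.e x v‖ ∧
      ‖dE V E.e x v‖ ≤ D₁ * ‖v‖ := by
    intro x v
    have h1 := hnb x v
    rw [norm_tangentSpace_vectorSpace] at h1
    exact h1
  have he1 : ContMDiff 𝓘(ℝ, V) (𝓡 N) 1 E.e := he.of_le (by exact_mod_cast le_top)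
  have hit : ∀ (k : ℕ) x (v : TangentSpace 𝓘(ℝ, V) x), iterD S.D g k x (dE V E.e x v) =
      dE V E.e ((⇑g)^[k] x) (mfderiv 𝓘(ℝ, V) 𝓘(ℝ, V) ((⇑g)^[k]) x v) := by
    intro k x v
    refine iterD_dE he g.contMDiff (fun x u => ?_) k x v
    have h3 := mfderiv_comp (I := 𝓘(ℝ, V)) (I' := 𝓘(ℝ, V)) (I'' := 𝓡 N) (f := g) x
      (he1.mdifferentiable (by norm_num) (g x)) (g.contMDiff.mdifferentiable (by norm_num) x)
    rw [HasD_eq_KF E he hinj hEP g.contMDiff S.hD x]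
    refine (KF_apply hinj' x u).trans ?_
    unfold dF
    rw [h3]
    rfl
  have hm1 : ∀ x w, ∃ v ∈ Eu x, dE V E.e x v = S.U x w := by
    intro x w
    have h1 : S.U x w ∈ (S.U x).range := ⟨w, rfl⟩
    rw [hSu x] at h1
    obtain ⟨v', hv', hvv'⟩ := h1
    exact ⟨v', hv', hvv'⟩
  have hgk : ∀ k, (⇑g)^[k] = (⇑f)^[n * k] := fun k => by rw [hg, iterate_mul]
  have hev : ∀ x ∈ A, ∀ k : ℕ, f.symm^[k] x ∈ U := by
    intro x hx k
    have h1 := hAU hx k
    rw [TM.ev_neg_nat] at h1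
    exact h1
  have H₅ := fun (k : ℕ) (x : M) (hx : x ∈ A) (v w : EuclideanSpace ℝ (Fin N)) =>
    PR.PER.conf_amb (D := S.D) (Q := S.U) (F := Eu) (h := g) hc₀ hD₁ hn' hit hm1 (x := x) (C := C)
      (t := n * κ) (fun k v hv w hw => by
        rw [hgk]
        have h1 := hconf (n * k) x (hev x hx) v hv w hw
        have h2 : κ * ((n * k : ℕ) : ℝ) = n * κ * k := by
          push_cast
          ring
        rw [h2] at h1
        refine h1.trans ?_
        gcongr) k v w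
  set C₅ : ℝ := D₁ * D₁ * |C| * (1 / c₀) * (1 / c₀) with hC₅
  have hC₅0 : 0 ≤ C₅ := by positivity
  set C'' : ℝ := max (max (max C₁ C₂) (max C₃ C₄)) C₅ with hC''
  have hC''0 : 0 ≤ C'' := hC₅0.trans (le_max_right _ _)
  have i1 : C₁ ≤ C'' := (le_max_left _ _).trans ((le_max_left _ _).trans (le_max_left _ _))
  have i2 : C₂ ≤ C'' := (le_max_right _ _).trans ((le_max_left _ _).trans (le_max_left _ _))
  have i3 : C₃ ≤ C'' := (le_max_left _ _).trans ((le_max_right _ _).trans (le_max_left _ _))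
  have i4 : C₄ ≤ C'' := (le_max_right _ _).trans ((le_max_right _ _).trans (le_max_left _ _))
  have i5 : C₅ ≤ C'' := le_max_right _ _
  have hrank : ∀ x, Module.finrank ℝ ((S.U x).range) = d := finrank_range_eq E hinj hSu hdim
  have hfin : (n * a) ^ 2 * (n * s) ≤
      P d * (n * κ) * ((n * b - n * s) * (n * B) - n * a * (n * s)) :=
    specSplit S hS hd hrank (C₀ := C'') hC''0 (by positivity) (by positivity) (by gcongr)
      (by gcongr) (by positivity)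
      (fun k x w => (H₁ k x w).trans (by gcongr))
      (fun k x w => (H₂ k x w).trans (by gcongr))
      (fun k x w => (H₃ k x w).trans (by gcongr))
      (fun k x w => (H₄ k x w).trans (by gcongr))
      U₁ hTg hfr
      (fun k x hx v w => by
        rw [hAtt] at hx
        refine (H₅ k x hx v w).trans ?_
        rw [← hexp]
        gcongr
        exact le_rfl)
      rA hrA (fun r hr0 hr => by
        rw [hAtt]
        exact hattr r hr0 hr)
  have h1 : ((n : ℝ) * a) ^ 2 * (n * s) = n ^ 3 * (a ^ 2 * s) := by ring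
  have h2 : P d * (n * κ) * ((n * b - n * s) * (n * B) - n * a * (n * s)) =
      n ^ 3 * (P d * κ * ((b - s) * B - a * s)) := by ring
  rw [h1, h2] at hfin
  exact le_of_mul_le_mul_left hfin (by positivity)

end Mfd2M

/-- **Module MFD.** -/
theorem specMfd2_of {P : ℕ → ℝ} (specMix : SpecMix.{v}) (specSplit : SpecSplit2.{v, 0} P) :
    SpecMfd2.{u, v} P := by
  intro V _ _ _ M _ _ _ _ _ _ _ _ f Es Eu hA C s b a B κ hs hsb ha haB hκ hR U hU hconf x
  obtain ⟨N, e, he, hemb, hinj⟩ := exists_embedding_euclidean_of_compact (I := 𝓘(ℝ, V)) (M := M)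
  obtain ⟨d, hd⟩ : ∃ d : ℕ, ∀ x, Module.finrank ℝ (Eu x) = d := by
    let : MetricSpace M := hemb.isEmbedding.comapMetricSpace e
    exact exists_dim e hemb.isEmbedding.to_isometry he hinj f.symm Eu Es
      (IsAnosovSplitting.symm hA)
  rw [hd x]
  rcases Nat.eq_zero_or_pos d with h0 | hd0
  · exact absurd (Holo.trans_of_zero f Es Eu hA fun x => (hd x).trans h0)
      (MfdM.not_transitive f.surjective hU)
  let : MetricSpace M := hemb.isEmbedding.comapMetricSpace e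
  exact Mfd2M.main_metric specMix specSplit e hemb.isEmbedding.to_isometry he hinj f Es Eu hA hd0
    hd hs hsb ha haB hκ hR hU hconf

end Pool.Agent.Lib.MP610fe3.AC
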