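import Pool.Agent.Lib.MP_610fe3_an.AC.AllOf
import Pool.Agent.Lib.MP_610fe3_an.AC.FinalOf2
import Pool.Agent.Lib.MP_610fe3_an.AC.MFD2
import Pool.Agent.Lib.MP_610fe3_an.AC.SPLIT2

/-!
# Attractors of Anosov diffeomorphisms are not nearly conformal: assembly, from SpecComb2
-/

namespace Pool.Agent.Lib.MP610fe3.AC

universe u v

/-- The `C^1` theorem. -/
theorem mfd2_of {P : ℕ → ℝ} (hC : SpecComb2.{v} P) : SpecMfd2.{u, v} P :=
  specMfd2_of specMix (specSplit2 hC specQcOn)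

/-- The `C^2` theorem. -/
theorem perA2_of {P : ℕ → ℝ} (hC : SpecComb2.{v} P) : SpecPerA2.{u, v} P :=
  specPerA2_of (mfd2_of hC) (specAdOn kal) PR.specHol (PR.specRat kal PR.specClo)

end Pool.Agent.Lib.MP610fe3.AC
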