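import Pool.Agent.Lib.MP_610fe3_an.AC.CORQ

/-!
# Module CORQ2: the quantitative core with small displacements (MP_610fe3_an, AC)

As `AC.SpecCorQ`, but the hypothesis of invariance is only used for displacements which are small at
the time `-k₀`, so that their size is at most `τ = C exp (- as k₀) ε₂`.
-/

set_option autoImplicit false

open Set Filter Function
open scoped Topology

namespace Pool.Agent.Lib.MP610fe3.AC

universe v

namespace CorQ2

open TM N3 EQ CorQ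

variable {X : Type v} [MetricSpace X] {f : X ≃ₜ X} {U : Set X} {P : X → X → Prop}
  {Q : ℕ → X → X → Prop} {e C a aA as ε₁ ε₂ : ℝ} {N : ℕ} {x y z : X} {i k : ℕ}

/-- Contraction in the future. -/
theorem fwd (R : Rates f U e C aA a as) {p q : X} (hε : ε₂ ≤ e) (h : q ∈ Sp f ε₂ p) {k₀ K : ℕ}
    (hK : k₀ ≤ K) :
    ev f K q ∈ Sp f (C * Real.exp (-(as * k₀)) * ε₂) (ev f K p) := by
  intro j
  rw [← ev_add, ← ev_add, show (j : ℤ) + (K : ℤ) = ((j + K : ℕ) : ℤ) by push_cast; ring]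
  have h1 := R.st _ _ (Sp_mono hε h) (j + K)
  have h2 : dist q p ≤ ε₂ := Sp_dist h
  have h3 : Real.exp (-(as * ((j + K : ℕ) : ℝ))) ≤ Real.exp (-(as * k₀)) := by
    apply Real.exp_le_exp.2
    have h4 : (k₀ : ℝ) ≤ ((j + K : ℕ) : ℝ) := by exact_mod_cast (by omega : k₀ ≤ j + K)
    have h5 := R.as0
    nlinarith
  have hC := R.C1
  have h4 : (0 : ℝ) ≤ dist q p := dist_nonneg
  calc _ ≤ C * Real.exp (-(as * ((j + K : ℕ) : ℝ))) * dist q p := h1
    _ ≤ C * Real.exp (-(as * k₀)) * ε₂ := by gcongr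

/-- The stability step. -/
theorem stab (R : Rates f U e C aA a as) {P P' : X → X → Prop}
    (hmar : ∀ z ∈ U, ∀ z', dist z' z ≤ ε₂ → f z' ∈ U) (hε₁ : 0 ≤ ε₁)
    (he : ε₁ ≤ e) {δB η : ℝ} (hηB : η ≤ δB / 4) (hηε : η ≤ ε₂) (hη0 : 0 < η)
    (hbr : ∀ x y, dist x y < δB → ∃ z, z ∈ Sp f ε₂ x ∧ z ∈ Sp f.symm ε₂ y)
    (hup : ∀ x y, f x ∈ U → P x y → y ∈ Sp f.symm ε₁ x)
    (hup' : ∀ x y, f x ∈ U → P' x y → y ∈ Sp f.symm ε₁ x)
    {k₀ : ℕ} (hε₂e : ε₂ ≤ e)
    (hinv : ∀ x x' y y', f x ∈ U → f x' ∈ U → x' ∈ Sp f (C * Real.exp (-(as * k₀)) * ε₂) x →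
      P x y → y' ∈ Sp f (C * Real.exp (-(as * k₀)) * ε₂) y →
      y' ∈ Sp f.symm (ε₁ + 2 * ε₂) x' → P' x' y')
    (hF2 : ∀ x, ev f (-1) x ∉ U → ∃ k ≤ N, ∃ s : ℕ → X, s 0 = x ∧ s k ∈ Rep f U ∧
      ∀ i < k, f (s i) ∈ U → P' (s i) (s (i + 1)))
    (hk₀ : ε₁ * C * N / (1 - Real.exp (-a)) * Real.exp (-a) ^ k₀ ≤ η) {x x' : X}
    (hG : Good f U P' N x) (hvv : ev f (-(k₀ : ℤ)) x' ∈ Sp f η (ev f (-(k₀ : ℤ)) x)) :
    Good f U P N x' := by
  have hC := R.C1
  have ha := R.a0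
  have hun := R.un
  set θ : ℝ := Real.exp (-a) with hθ
  have hθ0 : 0 < θ := Real.exp_pos _
  have hθ1 : θ < 1 := by rw [hθ, Real.exp_lt_one_iff]; linarith
  have hpow : ∀ j : ℕ, Real.exp (-(a * j)) = θ ^ j := by
    intro j
    rw [hθ, ← Real.exp_nat_mul]
    congr 1
    ring
  set c : ℝ := ε₁ * C * θ ^ k₀ with hc
  have hc0 : 0 ≤ c := by positivity
  set σ : ℕ → ℕ → ℝ := fun k i => c * (N * ∑ j ∈ Finset.range k, θ ^ j + (N - i) * θ ^ k) with hσ
  have hσ0 : ∀ k i : ℕ, i ≤ N → 0 ≤ σ k i := by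
    intro k i hi
    have h1 : (0 : ℝ) ≤ (N : ℝ) - i := by
      have : (i : ℝ) ≤ N := by exact_mod_cast hi
      linarith
    have h2 : 0 ≤ ∑ j ∈ Finset.range k, θ ^ j := Finset.sum_nonneg fun j _ => by positivity
    simp only [hσ]
    positivity
  have hσ1 : ∀ k i : ℕ, σ k i ≤ η := by
    intro k i
    have h1 : (∑ j ∈ Finset.range (k + 1), θ ^ j) ≤ 1 / (1 - θ) := by
      have h2 := Summable.sum_le_tsum (f := fun j : ℕ => θ ^ j) (Finset.range (k + 1))
        (fun j _ => by positivity) (summable_geometric_of_lt_one hθ0.le hθ1)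
      rw [tsum_geometric_of_lt_one hθ0.le hθ1] at h2
      rwa [one_div]
    calc σ k i ≤ c * (N * ∑ j ∈ Finset.range (k + 1), θ ^ j) := by
          simp only [hσ]
          rw [Finset.sum_range_succ]
          have h2 : 0 ≤ (i : ℝ) * θ ^ k := by positivity
          apply mul_le_mul_of_nonneg_left _ hc0
          nlinarith
      _ ≤ c * (N * (1 / (1 - θ))) := by gcongr
      _ = ε₁ * C * N / (1 - θ) * θ ^ k₀ := by rw [hc]; ring
      _ ≤ η := hk₀
  set v : X := ev f (-(k₀ : ℤ)) x with hv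
  set v' : X := ev f (-(k₀ : ℤ)) x' with hv'
  have key : ∀ z' i k, Rch f U P N x' z' i k → ∃ z, Rch f U P' N x z i k ∧
      ev f (-((k + k₀ : ℕ) : ℤ)) z' ∈ Sp f ε₂ (ev f (-((k + k₀ : ℕ) : ℤ)) z) ∧
      ev f (-((k + k₀ : ℕ) : ℤ)) z ∈ Sp f.symm (σ k i) v ∧
      ev f (-((k + k₀ : ℕ) : ℤ)) z' ∈ Sp f.symm (σ k i) v' := by
    intro z' i k h
    induction h with
    | start =>
      refine ⟨x, .start, ?_, ?_, ?_⟩
      · rw [zero_add]
        exact Sp_mono hηε hvv
      · rw [zero_add]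
        exact Sp_self (hσ0 0 N le_rfl) _
      · rw [zero_add]
        exact Sp_self (hσ0 0 N le_rfl) _
    | up z' i k h hz' ih =>
      obtain ⟨z, h1, h2, h3, h4⟩ := ih
      have e1 : ∀ w : X, ev f (-((k + 1 + k₀ : ℕ) : ℤ)) (f w) = ev f (-((k + k₀ : ℕ) : ℤ)) w := by
        intro w
        rw [← ev_one (f := f), ← ev_add]
        congr 1
        push_cast
        ring
      have e2 : σ k i ≤ σ (k + 1) N := by
        simp only [hσ]
        rw [Finset.sum_range_succ]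
        have h5 : 0 ≤ (i : ℝ) * θ ^ k := by positivity
        apply mul_le_mul_of_nonneg_left _ hc0
        nlinarith
      refine ⟨f z, .up _ _ _ h1 (hG _ _ _ h1), ?_, ?_, ?_⟩
      · rw [e1, e1]
        exact h2
      · rw [e1]
        exact Sp_mono e2 h3
      · rw [e1]
        exact Sp_mono e2 h4
    | move z' y' i k h hz' hP ih =>
      obtain ⟨z, h1, h2, h3, h4⟩ := ih
      set K : ℕ := k + k₀ with hK
      have hiN : i + 1 ≤ N := h.le
      have hzU : f z ∈ U := hG _ _ _ h1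
      have hcθ : C * Real.exp (-(a * K)) * ε₁ = c * θ ^ k := by
        rw [hpow, hK, pow_add, hc]
        ring
      have hσs : σ k (i + 1) + c * θ ^ k = σ k i := by
        simp only [hσ]
        push_cast
        ring
      have h5 := contr (by linarith) ha.le hun he (hup _ _ hz' hP) K
      rw [hcθ] at h5
      have h6 : ev f (-(K : ℤ)) y' ∈ Sp f.symm (σ k i) v' := by
        rw [← hσs]
        exact Sp_trans h4 h5
      -- the bracket
      have h7 : dist (ev f (-(K : ℤ)) y') v < δB := by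
        have h8 : dist (ev f (-(K : ℤ)) y') v' ≤ σ k i := Sp_dist h6
        have h9 : dist v' v ≤ η := Sp_dist hvv
        have h10 := dist_triangle (ev f (-(K : ℤ)) y') v' v
        have h11 := hσ1 k i
        linarith
      obtain ⟨b, hb1, hb2⟩ := hbr _ _ h7
      set w : X := ev f K b with hw
      have hwb : ev f (-(K : ℤ)) w = b := by rw [hw, ev_neg_ev]
      have h9 : w ∈ Sp f.symm (ε₁ + 2 * ε₂) z := by
        rw [mem_Sp_symm]
        intro j
        rcases le_or_gt j K with hj | hj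
        · obtain ⟨t, ht⟩ := Nat.exists_eq_add_of_le hj
          have e1 : ∀ w : X, ev f (-(j : ℤ)) w = ev f t (ev f (-(K : ℤ)) w) := by
            intro w
            rw [← ev_add]
            congr 1
            omega
          have h10 := mem_Sp_symm.1 (hup _ _ hz' hP) j
          rw [e1 y', e1 z'] at h10
          have h11 := hb1 t
          have h12 := h2 t
          rw [e1 w, e1 z, hwb]
          have h13 := dist_triangle4 (ev f t b) (ev f t (ev f (-(K : ℤ)) y'))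
            (ev f t (ev f (-(K : ℤ)) z')) (ev f t (ev f (-(K : ℤ)) z))
          linarith
        · obtain ⟨t, ht⟩ := Nat.exists_eq_add_of_le hj.le
          have e1 : ∀ w : X, ev f (-(j : ℤ)) w = ev f (-(t : ℤ)) (ev f (-(K : ℤ)) w) := by
            intro w
            rw [← ev_add]
            congr 1
            omega
          rw [e1 w, e1 z, hwb]
          have h10 := mem_Sp_symm.1 hb2 t
          have h11 := mem_Sp_symm.1 h3 t
          have h12 := dist_triangle_right (ev f (-(t : ℤ)) b)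
            (ev f (-(t : ℤ)) (ev f (-(K : ℤ)) z)) (ev f (-(t : ℤ)) v)
          have h13 := hσ1 k (i + 1)
          linarith
      have h10 : P' z w := by
        refine hinv z' z y' w hz' hzU ?_ hP ?_ h9
        · have h11 := fwd R hε₂e (Sp_comm h2) (show k₀ ≤ K by omega)
          rwa [ev_ev_neg, ev_ev_neg] at h11
        · have h11 := fwd R hε₂e hb1 (show k₀ ≤ K by omega)
          rwa [ev_ev_neg] at h11
      have h11 := contr (by linarith) ha.le hun he (hup' _ _ hzU h10) K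
      rw [hcθ, hwb] at h11
      refine ⟨w, .move _ _ _ _ h1 hzU h10, ?_, ?_, h6⟩
      · rw [hwb]
        exact Sp_comm hb1
      · rw [hwb, ← hσs]
        exact Sp_trans h3 h11
  intro z' i k h
  obtain ⟨z, h1, h2, -, -⟩ := key z' i k h
  have h3 : z ∈ U := good_mem hF2 hG h1
  refine hmar z h3 z' ?_
  have h4 := Sp_ev h2 (k + k₀)
  rw [ev_ev_neg, ev_ev_neg] at h4
  exact Sp_dist h4

end CorQ2

/-- Module CORQ2: as `SpecCorQ`, with small displacements. -/
def SpecCorQ2 : Prop :=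
  ∀ {X : Type v} [MetricSpace X] [CompactSpace X] {f : X ≃ₜ X} {U : Set X} {e C aA a as : ℝ},
    N3.Rates f U e C aA a as → N3.Trap f U → ∀ {ε₁ ε₂ : ℝ}, 0 < ε₂ → ε₂ ≤ e → 0 ≤ ε₁ → ε₁ ≤ e →
    (∀ z ∈ U, ∀ z', dist z' z ≤ ε₂ → f z' ∈ U) →
    ∃ η₀ : ℝ, 0 < η₀ ∧ ∀ (P : ℕ → X → X → Prop) (S N k₀ : ℕ),
      (∀ i x y, P i x y → P (i + 1) x y) →
      (∀ i ≤ S, ∀ x y, f x ∈ U → P i x y → y ∈ TM.Sp f.symm ε₁ x) →
      (∀ i < S, ∀ x x' y y', f x ∈ U → f x' ∈ U →
        x' ∈ TM.Sp f (C * Real.exp (-(as * k₀)) * ε₂) x → P i x y →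
        y' ∈ TM.Sp f (C * Real.exp (-(as * k₀)) * ε₂) y →
        y' ∈ TM.Sp f.symm (ε₁ + 2 * ε₂) x' → P (i + 1) x' y') →
      (∀ x, TM.ev f (-1) x ∉ U → ∃ k ≤ N, ∃ s : ℕ → X, s 0 = x ∧ s k ∈ N3.Rep f U ∧
        ∀ i < k, f (s i) ∈ U → P 0 (s i) (s (i + 1))) →
      ε₁ * C * N / (1 - Real.exp (-a)) * Real.exp (-a) ^ k₀ ≤ η₀ →
      ∀ t : ℕ → X, TM.ev f (-1) (t 0) ∉ U → t S ∈ N3.Att f U →
        (∀ i < S, TM.ev f (-(k₀ : ℤ)) (t (i + 1)) ∈ TM.Sp f η₀ (TM.ev f (-(k₀ : ℤ)) (t i))) →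
        False

open CorQ CorQ2 TM N3 EQ in
/-- CORQ2 -/
theorem specCorQ2 : SpecCorQ2.{v} := by
  intro X _ _ f U e C aA a as R hT ε₁ ε₂ hε₂ hε₂e hε₁ he hmar
  obtain ⟨δB, hδB, hbr⟩ := R.br ε₂ hε₂
  refine ⟨min (δB / 4) ε₂, by positivity, ?_⟩
  intro P S N k₀ hmono hup hinv hF2 hk₀ t ht0 htS ht
  have hmono' : ∀ i x y, P 0 x y → P i x y := by
    intro i
    induction i with
    | zero => exact fun _ _ h => h
    | succ i ih => exact fun x y h => hmono i x y (ih x y h)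
  have hF2' : ∀ i, ∀ x, ev f (-1) x ∉ U → ∃ k ≤ N, ∃ s : ℕ → X, s 0 = x ∧ s k ∈ Rep f U ∧
      ∀ j < k, f (s j) ∈ U → P i (s j) (s (j + 1)) := by
    intro i x hx
    obtain ⟨k, hk, s, h0, h1, h2⟩ := hF2 x hx
    exact ⟨k, hk, s, h0, h1, fun j hj h => hmono' i _ _ (h2 j hj h)⟩
  have key : ∀ i ≤ S, Good f U (P (S - i)) N (t (S - i)) := by
    intro i
    induction i with
    | zero =>
      intro _
      rw [Nat.sub_zero]
      exact good_att hT (fun p q h => R.un_tendsto h) (hup S le_rfl) he htS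
    | succ i ih =>
      intro hi
      have h3 := ih (by omega)
      have h4 := ht (S - (i + 1)) (by omega)
      have h5 := hup (S - (i + 1)) (by omega)
      have h6 := hup (S - i) (by omega)
      have h7 := hinv (S - (i + 1)) (by omega)
      rw [show S - (i + 1) + 1 = S - i by omega] at h4 h7
      exact stab R hmar hε₁ he (min_le_left _ _) (min_le_right _ _) (by positivity) hbr h5 h6 hε₂e
        h7 (hF2' _) hk₀ h3 (Sp_comm h4)
  have h3 := key S le_rfl
  rw [Nat.sub_self] at h3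
  exact not_good (hF2' 0 _ ht0) h3

end Pool.Agent.Lib.MP610fe3.AC
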