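import Pool.Agent.Lib.MP_610fe3_an.AC.Spec

/-!
# Module COVER
-/

open Set Filter Function Metric
open scoped Topology

namespace Pool.Agent.Lib.MP610fe3.AC

universe v

/-- Module COVER. -/
theorem specCover : SpecCover.{v} := by
  intro M R E J g O hE hadd hmono hrefl hcl hcov hO
  have key : ∀ (n : ℕ) (F : Finset (Fin J)), F.card = n → ∀ a b : ℝ, 0 ≤ a → a ≤ b → b ≤ 1 →
      (Icc a b ⊆ ⋃ i ∈ F, O i) → R (n * E) (g a) (g b) := by
    intro n
    induction n with
    | zero =>
      intro F hF a b ha hab hb hc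
      rw [Finset.card_eq_zero] at hF
      subst hF
      have := hc (left_mem_Icc.2 hab)
      simp at this
    | succ n ih =>
      intro F hF a b ha hab hb hc
      rcases hab.eq_or_lt with rfl | hlt
      · refine hmono 0 _ _ _ ?_ (hrefl _)
        positivity
      · obtain ⟨i, hi, hai⟩ := mem_iUnion₂.1 (hc (left_mem_Icc.2 hab))
        have hK : IsCompact (O i ∩ Icc a b) := by
          rw [inter_comm]
          exact isCompact_Icc.inter_right (hcl i)
        have hne : (O i ∩ Icc a b).Nonempty := ⟨a, hai, left_mem_Icc.2 hab⟩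
        obtain ⟨c, hcmem, hcmax⟩ := hK.exists_isGreatest hne
        have h1 : R E (g a) (g c) :=
          hO i a hai c hcmem.1 ⟨ha, hab.trans hb⟩ ⟨ha.trans hcmem.2.1, hcmem.2.2.trans hb⟩
        rcases hcmem.2.2.eq_or_lt with h2 | h2
        · rw [h2] at h1
          refine hmono E _ _ _ ?_ h1
          push_cast
          nlinarith [show (0 : ℝ) ≤ n from Nat.cast_nonneg n]
        · have h3 : Icc c b ⊆ ⋃ j ∈ F.erase i, O j := by
            have hcl' : IsClosed (⋃ j ∈ F.erase i, O j) := by
              refine Set.Finite.isClosed_biUnion (Finset.finite_toSet _) fun j _ => hcl j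
            have h4 : Ioc c b ⊆ ⋃ j ∈ F.erase i, O j := by
              intro t ht
              obtain ⟨j, hj, htj⟩ := mem_iUnion₂.1 (hc ⟨hcmem.2.1.trans ht.1.le, ht.2⟩)
              refine mem_iUnion₂.2 ⟨j, Finset.mem_erase.2 ⟨?_, hj⟩, htj⟩
              rintro rfl
              exact absurd (hcmax ⟨htj, hcmem.2.1.trans ht.1.le, ht.2⟩) (not_le.2 ht.1)
            rw [← closure_Ioc h2.ne]
            exact hcl'.closure_subset_iff.2 h4
          have h5 := ih (F.erase i) (by rw [Finset.card_erase_of_mem hi, hF]; rfl) c b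
            (ha.trans hcmem.2.1) hcmem.2.2 hb h3
          have h6 := hadd _ _ _ _ _ h1 h5
          refine hmono _ _ _ _ (le_of_eq ?_) h6
          push_cast
          ring
  have h := key J Finset.univ (by simp) 0 1 le_rfl zero_le_one le_rfl (by
    intro t ht
    obtain ⟨i, hi⟩ := mem_iUnion.1 (hcov ht)
    exact mem_iUnion₂.2 ⟨i, Finset.mem_univ _, hi⟩)
  exact h

end Pool.Agent.Lib.MP610fe3.AC
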