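import Pool.Agent.Lib.MP_610fe3_an.AC.Spec

/-!
# Module CUTM
-/

open Set Filter Function Metric MeasureTheory
open scoped Topology ENNReal

namespace Pool.Agent.Lib.MP610fe3.AC

universe v

open scoped Classical in
/-- Module CUTM. -/
theorem specCutM : SpecCutM.{v} := by
  intro M _ u n Cl D h P hcont hop hcov hdiam hP hin hout
  by_contra hcon
  rw [not_le] at hcon
  set p : Fin n → Prop := fun i => ∃ s ∈ Cl i, s ∈ closedBall (0 : EuclideanSpace ℝ (Fin u)) 1 ∧
    h s ∈ P with hp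
  have hD : ∀ i, p i → 0 ≤ D i := by
    rintro i ⟨s, hs, -, -⟩
    have := hdiam i s hs s hs
    rwa [dist_self] at this
  set N : Fin n → Set ℝ := fun i => (fun s : EuclideanSpace ℝ (Fin u) => ‖s‖) '' Cl i with hN
  have hvol : ∀ i, volume (N i) ≤ ENNReal.ofReal (D i) := by
    intro i
    refine (Real.volume_le_diam _).trans (Metric.ediam_le_of_forall_dist_le ?_)
    rintro _ ⟨s, hs, rfl⟩ _ ⟨t, ht, rfl⟩
    refine le_trans ?_ (hdiam i s hs t ht)
    rw [Real.dist_eq, dist_eq_norm]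
    exact abs_norm_sub_norm_le s t
  set F : Finset (Fin n) := Finset.univ.filter p with hF
  have hsum : volume (⋃ i ∈ F, N i) < volume (Ioo (1 / 2 : ℝ) 1) := by
    calc volume (⋃ i ∈ F, N i) ≤ ∑ i ∈ F, volume (N i) := measure_biUnion_finset_le _ _
      _ ≤ ∑ i ∈ F, ENNReal.ofReal (D i) := Finset.sum_le_sum (fun i _ => hvol i)
      _ = ENNReal.ofReal (∑ i ∈ F, D i) := by
          rw [ENNReal.ofReal_sum_of_nonneg]
          intro i hi
          exact hD i (Finset.mem_filter.1 hi).2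
      _ = ENNReal.ofReal (∑ i, if p i then D i else 0) := by
          rw [hF, Finset.sum_filter]
      _ < ENNReal.ofReal (1 / 2) := by
          rw [ENNReal.ofReal_lt_ofReal_iff (by norm_num)]
          exact hcon
      _ = volume (Ioo (1 / 2 : ℝ) 1) := by
          rw [Real.volume_Ioo]; norm_num
  have hex : ∃ t ∈ Ioo (1 / 2 : ℝ) 1, t ∉ ⋃ i ∈ F, N i := by
    by_contra hno
    push Not at hno
    exact absurd (measure_mono (μ := volume) (fun t ht => hno t ht)) (not_le.2 hsum)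
  obtain ⟨t, ht, htN⟩ := hex
  have hball : closedBall (0 : EuclideanSpace ℝ (Fin u)) t ⊆ closedBall 0 1 :=
    closedBall_subset_closedBall ht.2.le
  have hcl : IsClosed (h '' closedBall 0 t) :=
    ((isCompact_closedBall _ _).image_of_continuousOn (hcont.mono hball)).isClosed
  choose! ε hε using hop t ht
  set V : Set M := ⋃ s ∈ {s | s ∈ ball (0 : EuclideanSpace ℝ (Fin u)) t ∧ h s ∈ P}, ball (h s) (ε s) with hV
  have hVo : IsOpen V := isOpen_biUnion fun s _ => isOpen_ball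
  have hVP : ∀ y ∈ P, y ∈ V → y ∈ h '' ball 0 t := by
    intro y hy hyV
    rw [hV, mem_iUnion₂] at hyV
    obtain ⟨s, ⟨hs, hsP⟩, hys⟩ := hyV
    obtain ⟨s', hs', e⟩ := (hε s hs hsP).2 y hy (mem_ball.1 hys)
    exact ⟨s', hs', e⟩
  have hPV : ∀ s ∈ ball (0 : EuclideanSpace ℝ (Fin u)) t, h s ∈ P → h s ∈ V := by
    intro s hs hsP
    rw [hV, mem_iUnion₂]
    exact ⟨s, ⟨hs, hsP⟩, mem_ball_self (hε s hs hsP).1⟩
  have hsub : P ⊆ V ∪ (h '' closedBall 0 t)ᶜ := by
    intro x hx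
    by_cases hxc : x ∈ h '' closedBall 0 t
    · left
      obtain ⟨s, hs, rfl⟩ := hxc
      refine hPV s ?_ hx
      rw [mem_ball_zero_iff]
      rw [mem_closedBall_zero_iff] at hs
      refine lt_of_le_of_ne hs ?_
      intro hst
      apply htN
      have hs1 : s ∈ closedBall (0 : EuclideanSpace ℝ (Fin u)) 1 := by
        rw [mem_closedBall_zero_iff]; linarith [ht.2]
      obtain ⟨i, hi⟩ := mem_iUnion.1 (hcov hs1)
      refine mem_biUnion (x := i) ?_ ⟨s, hi, hst⟩
      rw [hF]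
      exact Finset.mem_coe.2 (Finset.mem_filter.2 ⟨Finset.mem_univ _, s, hi, hs1, hx⟩)
    · exact Or.inr hxc
  obtain ⟨s, hs, hsP⟩ := hin
  obtain ⟨x, hxP, hx⟩ := hout
  have h1 : (P ∩ V).Nonempty := by
    refine ⟨h s, hsP, hPV s ?_ hsP⟩
    rw [mem_ball_zero_iff]
    rw [mem_closedBall_zero_iff] at hs
    linarith [ht.1]
  have h2 : (P ∩ (h '' closedBall 0 t)ᶜ).Nonempty := by
    refine ⟨x, hxP, ?_⟩
    rintro ⟨s', hs', e⟩
    exact hx s' (hball hs') e
  obtain ⟨y, hyP, hy1, hy2⟩ := hP _ _ hVo hcl.isOpen_compl hsub h1 h2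
  exact hy2 (image_mono ball_subset_closedBall (hVP y hyP hy1))

end Pool.Agent.Lib.MP610fe3.AC
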