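import Pool.Agent.Lib.MP_610fe3_an.AC.CORQ2
import Pool.Agent.Lib.MP_610fe3_an.AC.EXTQ

/-!
# Stable holonomy on a proper attractor: quantitative wildness, sharper exponent

Module EXTQ2: as EXTQ, but the number of steps is at most `Λ exp ((b - s) B / a * M')`, `s` the lower
stable rate. A pair of the attractor is kept as long as the accumulated displacement of the ladders is
small; each ladder displaces by at most `C exp (- s k₀) ε₃`.
-/

set_option autoImplicit false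

open Set Filter Function Metric
open scoped Topology

namespace Pool.Agent.Lib.MP610fe3.AC

open TM N3

universe v

/-- Module EXTQ2. -/
def SpecExtQ2 : Prop :=
  ∀ {X : Type v} [MetricSpace X] [CompactSpace X] {f : X ≃ₜ X} {e C a s b B e₁ : ℝ},
    (∀ U : Set X, N3.Rates f U e C a a s) → 0 < e₁ → s ≤ b → 0 < B → N3.Reaches f univ e₁ B →
    N3.Reaches f.symm univ e₁ b → ∀ e₂ : ℝ, 0 < e₂ → ∃ ε : ℝ, 0 < ε ∧ ∀ U : Set X, N3.Trap f U →
      (frontier U).Nonempty → ∀ η ρ : ℝ, 0 < η → 0 < ρ → ∃ Λ : ℝ, ∀ M' : ℕ,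
        ∃ (m : ℕ) (p q : ℕ → X), (m : ℝ) ≤ Λ * Real.exp ((b - s) * B / a * M') ∧
          EQ.Hol f (N3.Att f U) η e₂ m p q ∧ ev f M' (q 0) ∈ Sp f.symm ρ (ev f M' (p 0)) ∧
          ε < dist (q m) (p m)

namespace ExtQ2

open ExtQ

variable {X : Type v} [MetricSpace X] {f : X ≃ₜ X} {U : Set X} {e C a s : ℝ}

theorem main_aux [CompactSpace X] (hQ : SpecCorQ2.{v}) {b B e₁ e₂ : ℝ}
    (hR : ∀ U : Set X, Rates f U e C a a s) (he₁ : 0 < e₁) (hsb : s ≤ b) (hB : 0 < B)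
    (hreach : Reaches f univ e₁ B) (hreach' : Reaches f.symm univ e₁ b) (he₂ : 0 < e₂)
    (he₂e : e₂ ≤ e) :
    ∃ ε : ℝ, 0 < ε ∧ ∀ U : Set X, Trap f U → (frontier U).Nonempty → ∀ η ρ : ℝ, 0 < η → 0 < ρ →
      ∃ Λ : ℝ, ∀ M' : ℕ, ∃ (m : ℕ) (p q : ℕ → X), (m : ℝ) ≤ Λ * Real.exp ((b - s) * B / a * M') ∧
        EQ.Hol f (Att f U) η e₂ m p q ∧ ev f M' (q 0) ∈ Sp f.symm ρ (ev f M' (p 0)) ∧
        ε < dist (q m) (p m) := by
  have R := hR univ
  have Rm := rates_min R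
  have he := R.e0
  have hC := R.C1
  have ha := R.a0
  have hs := R.as0
  have hb : 0 < b := by linarith
  have h0 := reaches₀ hreach
  have h0' := reaches₀ hreach'
  set e₄ : ℝ := min e₂ (e / 4) with he₄
  have he₄0 : 0 < e₄ := by positivity
  have he₄2 : e₄ ≤ e₂ := min_le_left _ _
  have he₄e : 4 * e₄ ≤ e := by
    have : e₄ ≤ e / 4 := min_le_right _ _
    linarith
  obtain ⟨δ₃, hδ₃, hbr₃⟩ := R.br (e₄ / 3) (by positivity)
  set ε : ℝ := min (δ₃ / 4) (e₄ / (8 * C)) with hε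
  have hε0 : 0 < ε := by positivity
  have hεδ : ε ≤ δ₃ / 4 := min_le_left _ _
  have hεe : ε ≤ e₄ / (8 * C) := min_le_right _ _
  have h8C : e₄ / (8 * C) ≤ e₄ / 8 := by
    apply div_le_div_of_nonneg_left he₄0.le (by norm_num) (by linarith)
  have h16C : e₄ / (16 * C) ≤ e₄ / 16 := by
    apply div_le_div_of_nonneg_left he₄0.le (by norm_num) (by linarith)
  refine ⟨ε / C, by positivity, fun U hT hfr η r hη hr => ?_⟩
  have hfar : ∀ (x y : X) (c : ℝ), y ∈ Sp f.symm e x → dist y x ≤ c / C → y ∈ Sp f.symm c x := by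
    intro x y c h1 h2
    rw [mem_Sp_symm]
    intro j
    have h3 := R.un _ _ h1 j
    have h4 : Real.exp (-(a * j)) ≤ 1 := by
      rw [Real.exp_le_one_iff]
      have : 0 ≤ a * (j : ℝ) := by positivity
      linarith
    calc _ ≤ C * Real.exp (-(a * j)) * dist y x := h3
      _ ≤ C * 1 * (c / C) := by gcongr
      _ = c := by field_simp
  -- saturation
  have hsat : ∀ {x y : X} {c : ℝ}, x ∈ Att f U → c ≤ e → y ∈ Sp f.symm c x → y ∈ Att f U :=
    fun hx hc hy => att_sat hT hx (R.un_tendsto (Sp_mono hc hy))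
  -- the constants
  obtain ⟨τ₁, hτ₁, hcl₁⟩ := EQ.cl Rm he₄0.le (by linarith) hη
  set σ₁ : ℝ := min (e₄ / (16 * C)) (e₄ / 12) with hσ₁
  have hσ₁0 : 0 < σ₁ := by positivity
  have hσ₁a : σ₁ ≤ e₄ / (16 * C) := min_le_left _ _
  have hσ₁b : σ₁ ≤ e₄ / 12 := min_le_right _ _
  obtain ⟨τ₂, hτ₂, hcl₂⟩ := EQ.cl Rm he₄0.le (by linarith) hσ₁0
  set ρ : ℝ := min (σ₁ / 3) (min r e₂) with hρ
  have hρ0 : 0 < ρ := by positivity
  have hρσ : ρ ≤ σ₁ / 3 := min_le_left _ _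
  have hρr : ρ ≤ r := (min_le_right _ _).trans (min_le_left _ _)
  have hρe : ρ ≤ e₂ := (min_le_right _ _).trans (min_le_right _ _)
  obtain ⟨δρ, hδρ, hbrρ⟩ := R.br ρ hρ0
  obtain ⟨s₀, hs₀, hs₁, hs₂, hs₃, hs₄, hs₅, hs₆, hs₇⟩ : ∃ s₀ : ℝ, 0 < s₀ ∧ s₀ ≤ τ₁ / 5 ∧
      s₀ ≤ τ₂ ∧ s₀ ≤ η / 5 ∧ s₀ ≤ δ₃ / 20 ∧ s₀ ≤ δρ / 4 ∧ s₀ ≤ e₄ / (16 * C) ∧ s₀ ≤ σ₁ / 3 := by
    refine ⟨min (min (min (τ₁ / 5) τ₂) (min (min (η / 5) (δ₃ / 20))
      (min (δρ / 4) (e₄ / (16 * C))))) (σ₁ / 3), by positivity, ?_, ?_, ?_, ?_, ?_, ?_, ?_⟩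
    · exact (min_le_left _ _).trans ((min_le_left _ _).trans (min_le_left _ _))
    · exact (min_le_left _ _).trans ((min_le_left _ _).trans (min_le_right _ _))
    · exact (min_le_left _ _).trans
        ((min_le_right _ _).trans ((min_le_left _ _).trans (min_le_left _ _)))
    · exact (min_le_left _ _).trans
        ((min_le_right _ _).trans ((min_le_left _ _).trans (min_le_right _ _)))
    · exact (min_le_left _ _).trans
        ((min_le_right _ _).trans ((min_le_right _ _).trans (min_le_left _ _)))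
    · exact (min_le_left _ _).trans
        ((min_le_right _ _).trans ((min_le_right _ _).trans (min_le_right _ _)))
    · exact min_le_right _ _
  obtain ⟨δ₀, hδ₀, hbr₀⟩ := R.br s₀ hs₀
  obtain ⟨N₀, hN₀⟩ := close_rep hT.dual hδ₀
  rw [rep_dual hT] at hN₀
  -- the trapping region
  set V : Set X := {x | ev f (-(N₀ : ℤ)) x ∈ U} with hV
  have hTV : Trap f V := EQ.trap_iter hT N₀
  have hVA : Att f V = Att f U := EQ.att_iter hT N₀
  obtain ⟨y₀, hy₀⟩ := EQ.frontier_iter (f := f) N₀ hfr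
  rw [← hV, hTV.isOpen.frontier_eq] at hy₀
  -- the points `x` with `f x ∈ V` are close to the attractor
  have hnear : ∀ x, f x ∈ V → ∃ p ∈ Att f U, p ∈ Sp f s₀ x := by
    intro x hx
    rw [hV, mem_ofPred_eq] at hx
    obtain ⟨w, hw, hwd⟩ := hN₀ (ev f (-(N₀ : ℤ)) x) (by
      rw [mem_compl_iff, not_not, ev_symm, neg_neg, ← ev_add]
      refine subset_closure ?_
      rw [← ev_one (f := f) x, ← ev_add] at hx
      rwa [add_comm] at hx)
    rw [ev_symm, neg_neg, ev_ev_neg, dist_comm] at hwd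
    obtain ⟨p, hp1, hp2⟩ := hbr₀ _ _ hwd
    refine ⟨p, hsat hw ?_ hp2, hp1⟩
    have h1 : s₀ ≤ e₄ / 16 := hs₆.trans h16C
    linarith
  -- the margin
  obtain ⟨ηm, hηm, hmar⟩ := hTV.exists_margin
  obtain ⟨η', hη', hu⟩ := unif_cont f 1 hηm
  set ε₃ : ℝ := min (min (e₄ / 4) (s₀ / C)) (η' / 2) with hε₃
  have hε₃0 : 0 < ε₃ := by positivity
  have hε₃2 : ε₃ ≤ e₄ / 4 := (min_le_left _ _).trans (min_le_left _ _)
  have hε₃3 : ε₃ ≤ s₀ / C := (min_le_left _ _).trans (min_le_right _ _)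
  have hmar' : ∀ z ∈ V, ∀ z', dist z' z ≤ ε₃ → f z' ∈ V := by
    intro z hz z' hzz'
    refine hmar z hz _ ?_
    have h1 : dist z' z < η' := by
      have h2 : ε₃ ≤ η' / 2 := min_le_right _ _
      linarith
    have h2 := hu _ _ h1 1 (by norm_num) (by norm_num)
    rwa [ev_one, ev_one] at h2
  obtain ⟨η₀, hη₀, hcor⟩ := hQ (hR V) hTV (ε₁ := e₄ / 2) hε₃0 (by linarith) (by positivity)
    (by linarith) hmar'
  -- the size of the links to the repeller at the time `M'`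
  obtain ⟨r', hr', hr'a, hr'b, hr'c⟩ : ∃ r' : ℝ, 0 < r' ∧ r' ≤ δρ / 4 ∧ r' ≤ e₄ / 2 ∧
      r' ≤ σ₁ / 3 := by
    refine ⟨min (min (δρ / 4) (e₄ / 2)) (σ₁ / 3), by positivity, ?_, ?_, ?_⟩
    · exact (min_le_left _ _).trans (min_le_left _ _)
    · exact (min_le_left _ _).trans (min_le_right _ _)
    · exact min_le_right _ _
  obtain ⟨K₁, hK₁⟩ := exists_F2 hTV R.e0 (fun p q h => R.st_tendsto h) R.br he₁ h0 he₁
  obtain ⟨Λ₁, hΛ₁⟩ := hreach r' hr'
  have hbr' : ∀ e' : ℝ, 0 < e' → ∃ δ : ℝ, 0 < δ ∧ ∀ x y, dist x y < δ →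
      ∃ z, z ∈ Sp f.symm e' x ∧ z ∈ Sp f.symm.symm e' y := by
    intro e' he'
    obtain ⟨δ, hδ, h⟩ := R.br e' he'
    refine ⟨δ, hδ, fun x y hxy => ?_⟩
    rw [dist_comm] at hxy
    obtain ⟨z, hz1, hz2⟩ := h _ _ hxy
    exact ⟨z, hz2, hz1⟩
  obtain ⟨K₂, hK₂⟩ := exists_F2 hTV.dual R.e0 (fun p q h => by
    have := R.un_tendsto h
    simpa only [ev_symm] using this) hbr' he₁ h0' he₁
  obtain ⟨Λ₂, hΛ₂⟩ := hreach' η₀ hη₀
  obtain ⟨l, hl, q₀, hq₀, hch⟩ := hK₂ (f y₀) (by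
    rw [mem_compl_iff, not_not, ev_symm, neg_neg, ev_one]
    exact subset_closure (hTV.maps _ (subset_closure (hTV.maps _ hy₀.1))))
  rw [rep_dual hTV] at hq₀
  -- the constants of the numbers of steps
  set θ : ℝ := Real.exp (-a) with hθ
  have hθ0 : 0 < θ := Real.exp_pos _
  have hθ1 : θ < 1 := by rw [hθ, Real.exp_lt_one_iff]; linarith
  have hθ2 : 0 < 1 - θ := by linarith
  set A : ℝ := e₄ / 2 * C * (K₁ * max Λ₁ 0) / (1 - θ) / η₀ with hA
  have hΛ₁0 : 0 ≤ max Λ₁ 0 := le_max_right _ _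
  have hΛ₂0 : 0 ≤ max Λ₂ 0 := le_max_right _ _
  have hA0 : 0 ≤ A := by positivity
  set A' : ℝ := max A 1 with hA'
  have hA'1 : 1 ≤ A' := le_max_right _ _
  have hAA' : A ≤ A' := le_max_left _ _
  have hlog : 0 ≤ Real.log A' := Real.log_nonneg hA'1
  refine ⟨K₂ * max Λ₂ 0 * C * ε₃ / s₀ * Real.exp ((b - s) * (Real.log A' / a + 1)), fun M' => ?_⟩
  by_contra hnot
  -- the number of moves
  set N : ℕ := ⌊(K₁ : ℝ) * (max Λ₁ 0 * Real.exp (B * M'))⌋₊ with hN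
  have hNle : (N : ℝ) ≤ K₁ * max Λ₁ 0 * Real.exp (B * M') := by
    have h1 : (N : ℝ) ≤ (K₁ : ℝ) * (max Λ₁ 0 * Real.exp (B * M')) :=
      Nat.floor_le (by positivity)
    rwa [← mul_assoc] at h1
  -- the time
  set k₀ : ℕ := ⌈(Real.log A' + B * M') / a⌉₊ with hk₀
  have hk₀1 : (Real.log A' + B * M') / a ≤ k₀ := Nat.le_ceil _
  have hk₀2 : (k₀ : ℝ) ≤ (Real.log A' + B * M') / a + 1 :=
    (Nat.ceil_lt_add_one (by positivity)).le
  have hk₀3 : e₄ / 2 * C * N / (1 - θ) * θ ^ k₀ ≤ η₀ := by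
    have h1 : θ ^ k₀ = Real.exp (-(a * k₀)) := by
      rw [hθ, ← Real.exp_nat_mul]
      congr 1
      ring
    have h2 : Real.log A' + B * M' ≤ a * k₀ := by
      rw [div_le_iff₀ ha] at hk₀1
      linarith
    have h3 : θ ^ k₀ ≤ (A' * Real.exp (B * M'))⁻¹ := by
      rw [h1, Real.exp_neg]
      have h4 : A' * Real.exp (B * M') = Real.exp (Real.log A' + B * M') := by
        rw [Real.exp_add, Real.exp_log (by linarith)]
      rw [h4]
      exact inv_anti₀ (Real.exp_pos _) (Real.exp_le_exp.2 h2)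
    have h4 : e₄ / 2 * C * N / (1 - θ) ≤ A' * Real.exp (B * M') * η₀ := by
      calc e₄ / 2 * C * N / (1 - θ) ≤
          e₄ / 2 * C * (K₁ * max Λ₁ 0 * Real.exp (B * M')) / (1 - θ) := by gcongr
        _ = A * Real.exp (B * M') * η₀ := by
          rw [hA]
          field_simp
        _ ≤ _ := by gcongr
    have h5 : 0 < A' * Real.exp (B * M') := by positivity
    calc e₄ / 2 * C * N / (1 - θ) * θ ^ k₀
        ≤ (A' * Real.exp (B * M') * η₀) * (A' * Real.exp (B * M'))⁻¹ := by gcongr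
      _ = η₀ := by field_simp
  -- the drift
  obtain ⟨τ, hτ⟩ : ∃ τ : ℝ, τ = C * Real.exp (-(s * k₀)) * ε₃ := ⟨_, rfl⟩
  have hτ0 : 0 < τ := by
    rw [hτ]
    positivity
  have hτs : τ ≤ s₀ := by
    have h1 : Real.exp (-(s * (k₀ : ℝ))) ≤ 1 := by
      rw [Real.exp_le_one_iff]
      have : 0 ≤ s * (k₀ : ℝ) := by positivity
      linarith
    calc τ = C * Real.exp (-(s * k₀)) * ε₃ := hτ
      _ ≤ C * 1 * (s₀ / C) := by gcongr
      _ = s₀ := by field_simp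
  obtain ⟨n₀, hn₀⟩ : ∃ n₀ : ℕ, n₀ = ⌊s₀ / τ⌋₊ := ⟨_, rfl⟩
  have hn₀1 : n₀ * τ ≤ s₀ := by
    rw [← le_div_iff₀ hτ0, hn₀]
    exact Nat.floor_le (by positivity)
  have hn₀2 : s₀ ≤ ((n₀ : ℝ) + 1) * τ := by
    rw [← div_le_iff₀ hτ0, hn₀]
    exact (Nat.lt_floor_add_one _).le
  -- the stable steps
  obtain ⟨S, hS, w, hw0, hwS, hw⟩ := chain_image hΛ₂ hl hch k₀
  have hJle : ((S / (n₀ + 1) : ℕ) : ℝ) ≤
      K₂ * max Λ₂ 0 * C * ε₃ / s₀ * Real.exp ((b - s) * (Real.log A' / a + 1)) *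
        Real.exp ((b - s) * B / a * M') := by
    have h1 : ((S / (n₀ + 1) : ℕ) : ℝ) ≤ (S : ℝ) / ((n₀ : ℝ) + 1) := by
      have := @Nat.cast_div_le ℝ _ _ _ S (n₀ + 1)
      push_cast at this
      exact this
    have h2 : (S : ℝ) / ((n₀ : ℝ) + 1) ≤ S * τ / s₀ := by
      rw [div_le_div_iff₀ (by positivity) hs₀]
      calc (S : ℝ) * s₀ ≤ S * (((n₀ : ℝ) + 1) * τ) := by gcongr
        _ = _ := by ring
    have h3 : (S : ℝ) * τ / s₀ ≤ K₂ * (max Λ₂ 0 * Real.exp (b * k₀)) * τ / s₀ := by gcongr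
    have h4 : Real.exp (b * k₀) * Real.exp (-(s * k₀)) ≤
        Real.exp ((b - s) * (Real.log A' / a + 1)) * Real.exp ((b - s) * B / a * M') := by
      rw [← Real.exp_add, ← Real.exp_add]
      apply Real.exp_le_exp.2
      have h5 : 0 ≤ b - s := by linarith
      calc b * (k₀ : ℝ) + -(s * k₀) = (b - s) * k₀ := by ring
        _ ≤ (b - s) * ((Real.log A' + B * M') / a + 1) := by gcongr
        _ = _ := by field_simp; ring
    refine (h1.trans (h2.trans h3)).trans ?_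
    calc K₂ * (max Λ₂ 0 * Real.exp (b * k₀)) * τ / s₀
        = K₂ * max Λ₂ 0 * C * ε₃ / s₀ * (Real.exp (b * k₀) * Real.exp (-(s * k₀))) := by
          rw [hτ]
          ring
      _ ≤ K₂ * max Λ₂ 0 * C * ε₃ / s₀ * (Real.exp ((b - s) * (Real.log A' / a + 1)) *
          Real.exp ((b - s) * B / a * M')) := by gcongr
      _ = _ := by ring
  -- equicontinuity
  have hEQ : ∀ j ≤ S / (n₀ + 1), ∀ x y, TrN f (Att f U) η e₂ r M' j x y → x ∈ Att f U ∧
      y ∈ Att f U ∧ y ∈ Sp f.symm ε x := by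
    rintro i hi x y ⟨m, p, q, hm, hH, h1, rfl, rfl⟩
    obtain ⟨h2, h3, h4⟩ := hH.1 m le_rfl
    refine ⟨h2, h3, hfar _ _ _ (Sp_mono he₂e h4) ?_⟩
    by_contra h5
    refine hnot ⟨m, p, q, ?_, hH, h1, not_le.1 h5⟩
    refine le_trans ?_ hJle
    exact_mod_cast hm.trans hi
  refine hcor (fun i x y => y ∈ Sp f.symm (e₄ / 2) x ∧ ∃ (j t : ℕ) (p q : X),
    t + j * (n₀ + 1) ≤ i ∧ t ≤ n₀ ∧ TrN f (Att f U) η e₂ r M' j p q ∧
    p ∈ Sp f (s₀ + t * τ) x ∧ q ∈ Sp f (σ₁ + t * τ) y) S N k₀ ?_ (fun i _ x y _ h => h.1) ?_ ?_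
    hk₀3 (fun i => ev f k₀ (w i)) ?_ ?_ ?_
  · rintro i x y ⟨h1, j, t, p, q, h2, h3⟩
    exact ⟨h1, j, t, p, q, by omega, h3⟩
  · -- invariance
    rintro i hi x x' y y' hx hx' hxx' ⟨hyx, j, t, p, q, hij, ht, hpq, hpx, hqy⟩ hyy' hy'x'
    rw [← hτ] at hxx' hyy'
    have hjS : j ≤ S / (n₀ + 1) := by
      rw [Nat.le_div_iff_mul_le (by omega)]
      omega
    obtain ⟨hpA, hqA, hqp⟩ := hEQ j hjS _ _ hpq
    rcases Nat.lt_or_ge t n₀ with ht' | ht'
    · -- no jump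
      have h0 : ((t + 1 : ℕ) : ℝ) * τ ≤ s₀ := by
        refine le_trans ?_ hn₀1
        have : ((t + 1 : ℕ) : ℝ) ≤ n₀ := by exact_mod_cast ht'
        gcongr
      have h1 : p ∈ Sp f (s₀ + ((t + 1 : ℕ) : ℝ) * τ) x' := by
        refine Sp_mono (le_of_eq ?_) (Sp_trans (Sp_comm hxx') hpx)
        push_cast
        ring
      have h2 : q ∈ Sp f (σ₁ + ((t + 1 : ℕ) : ℝ) * τ) y' := by
        refine Sp_mono (le_of_eq ?_) (Sp_trans (Sp_comm hyy') hqy)
        push_cast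
        ring
      refine ⟨hfar _ _ _ (Sp_mono (by linarith) hy'x') ?_, j, t + 1, p, q, by omega, ht', hpq,
        h1, h2⟩
      have h8 : dist q y' ≤ σ₁ + ((t + 1 : ℕ) : ℝ) * τ := Sp_dist h2
      have h9 : dist q p ≤ ε := Sp_dist hqp
      have h10 : dist p x' ≤ s₀ + ((t + 1 : ℕ) : ℝ) * τ := Sp_dist h1
      have h11 := dist_triangle4 y' q p x'
      rw [dist_comm y' q] at h11
      have h12 : e₄ / (8 * C) + e₄ / (8 * C) + e₄ / (8 * C) ≤ e₄ / 2 / C := by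
        rw [show e₄ / (8 * C) + e₄ / (8 * C) + e₄ / (8 * C) = 3 * e₄ / 8 / C by ring]
        exact div_le_div_of_nonneg_right (by linarith) (by linarith)
      have h13 : e₄ / (16 * C) + e₄ / (16 * C) = e₄ / (8 * C) := by
        field_simp
        norm_num
      linarith
    · -- a jump
      have htn : t = n₀ := le_antisymm ht ht'
      subst htn
      have hpx2 : p ∈ Sp f (s₀ + s₀) x := Sp_mono (by linarith) hpx
      have hqy2 : q ∈ Sp f (σ₁ + s₀) y := Sp_mono (by linarith) hqy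
      obtain ⟨p', hp', hpx'⟩ := hnear x' hx'
      have h1 : p' ∈ Sp f (s₀ + s₀ + τ + s₀) p := Sp_trans (Sp_trans (Sp_comm hpx2) hxx') hpx'
      have h2 : dist q p' < δ₃ := by
        have h3 : dist q p ≤ ε := Sp_dist hqp
        have h4 : dist p' p ≤ s₀ + s₀ + τ + s₀ := Sp_dist h1
        have h5 := dist_triangle_right q p' p
        linarith
      obtain ⟨q', hq1, hq2⟩ := hbr₃ _ _ h2
      have hq'A : q' ∈ Att f U := hsat hp' (by linarith) hq2
      have h3 : q' ∈ Sp f η q := hcl₁ p q p' q' (Sp_mono (by linarith) hqp)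
        (Sp_mono (by linarith) h1) (Sp_mono (by linarith) hq2) (Sp_mono (by linarith) hq1)
      have h4 : TrN f (Att f U) η e₂ r M' (j + 1) p' q' := hpq.step hp' hq'A
        (Sp_mono (by linarith) hq2) (Sp_mono (by linarith) h1) h3
      have h5 : q' ∈ Sp f (τ + (σ₁ + s₀) + e₄ / 3) y' :=
        Sp_trans (Sp_trans (Sp_comm hyy') hqy2) hq1
      have h6 : q' ∈ Sp f σ₁ y' := hcl₂ x' y' p' q' (Sp_mono (by linarith) hy'x')
        (Sp_mono hs₂ hpx') (Sp_mono (by linarith) hq2) (Sp_mono (by linarith) h5)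
      have hij' : (j + 1) * (t + 1) ≤ i + 1 := by
        have : (j + 1) * (t + 1) = t + j * (t + 1) + 1 := by ring
        omega
      have hjS' : j + 1 ≤ S / (t + 1) := by
        rw [Nat.le_div_iff_mul_le (by omega)]
        omega
      obtain ⟨-, -, h7⟩ := hEQ (j + 1) hjS' _ _ h4
      refine ⟨hfar _ _ _ (Sp_mono (by linarith) hy'x') ?_, j + 1, 0, p', q', by omega,
        Nat.zero_le _, h4, Sp_mono (by simp) hpx', Sp_mono (by simp) h6⟩
      have h8 : dist q' y' ≤ σ₁ := Sp_dist h6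
      have h9 : dist q' p' ≤ ε := Sp_dist h7
      have h10 : dist p' x' ≤ s₀ := Sp_dist hpx'
      have h11 := dist_triangle4 y' q' p' x'
      rw [dist_comm y' q'] at h11
      have h12 : e₄ / (8 * C) + e₄ / (8 * C) + e₄ / (8 * C) ≤ e₄ / 2 / C := by
        rw [show e₄ / (8 * C) + e₄ / (8 * C) + e₄ / (8 * C) = 3 * e₄ / 8 / C by ring]
        exact div_le_div_of_nonneg_right (by linarith) (by linarith)
      have h13 : e₄ / (16 * C) + e₄ / (16 * C) = e₄ / (8 * C) := by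
        field_simp
        norm_num
      have h14 : 0 < e₄ / (16 * C) := by positivity
      linarith
  · -- the chains to the repeller
    intro x hx
    obtain ⟨k, hk, q, hq, hc⟩ := hK₁ x hx
    obtain ⟨k', hk', t, ht0, htk, ht⟩ := chain_image hΛ₁ hk hc M'
    refine ⟨k', Nat.le_floor hk', fun i => ev f (-(M' : ℤ)) (t i), ?_, ?_, fun i hi hfi => ?_⟩
    · simp only [ht0, ev_neg_ev]
    · simp only [htk, ev_neg_ev]
      exact hq
    · simp only at hfi ⊢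
      set x' : X := ev f (-(M' : ℤ)) (t i) with hx'
      set y' : X := ev f (-(M' : ℤ)) (t (i + 1)) with hy'
      have hlink : t (i + 1) ∈ Sp f.symm r' (t i) := (ht i hi).2
      refine ⟨Sp_mono hr'b (Sp_symm_ev hlink M'), ?_⟩
      obtain ⟨p, hp, hpx⟩ := hnear x' hfi
      have e1 : ev f M' x' = t i := ev_ev_neg _ _
      have e2 : ev f M' y' = t (i + 1) := ev_ev_neg _ _
      have h1 : dist (ev f M' y') (ev f M' p) < δρ := by
        rw [e2]
        have h2 : dist (t (i + 1)) (t i) ≤ r' := Sp_dist hlink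
        have h3 : dist (ev f M' p) (ev f M' x') ≤ s₀ := hpx M'
        rw [e1] at h3
        have h4 := dist_triangle_right (t (i + 1)) (ev f M' p) (t i)
        linarith
      obtain ⟨z, hz1, hz2⟩ := hbrρ _ _ h1
      have hzp : ev f (-(M' : ℤ)) z ∈ Sp f.symm ρ p := by
        have h2 := Sp_symm_ev hz2 M'
        rwa [ev_neg_ev] at h2
      have hzA : ev f (-(M' : ℤ)) z ∈ Att f U := hsat hp (hρe.trans he₂e) hzp
      refine ⟨0, 0, p, ev f (-(M' : ℤ)) z, by omega, Nat.zero_le _,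
        TrN.of hp hzA (Sp_mono hρe hzp) ?_, Sp_mono (by simp) hpx, ?_⟩
      · rw [ev_ev_neg]
        exact Sp_mono hρr hz2
      · refine Sp_mono (ε := σ₁) (by simp) fun j => ?_
        rcases le_or_gt M' j with hj | hj
        · obtain ⟨u, rfl⟩ := Nat.exists_eq_add_of_le hj
          have h2 := hz1 u
          rw [← ev_add, show ((M' + u : ℕ) : ℤ) + -(M' : ℤ) = (u : ℤ) by push_cast; ring]
          have h3 : ev f ((M' + u : ℕ) : ℤ) y' = ev f u (ev f M' y') := by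
            rw [show ((M' + u : ℕ) : ℤ) = (u : ℤ) + (M' : ℤ) by push_cast; ring]
            exact ev_add _ _ _
          rw [h3]
          linarith
        · obtain ⟨u, hu'⟩ := Nat.exists_eq_add_of_le hj.le
          have e3 : ∀ v : X, ev f j v = ev f (-(u : ℤ)) (ev f M' v) := by
            intro v
            rw [← ev_add]
            congr 1
            omega
          have h2 := mem_Sp_symm.1 hz2 u
          have h3 := hpx j
          have h4 := mem_Sp_symm.1 hlink u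
          rw [e3, e3, ev_ev_neg, e2]
          rw [e3, e3, e1] at h3
          have h5 := dist_triangle4 (ev f (-(u : ℤ)) z) (ev f (-(u : ℤ)) (ev f M' p))
            (ev f (-(u : ℤ)) (t i)) (ev f (-(u : ℤ)) (t (i + 1)))
          rw [dist_comm (ev f (-(u : ℤ)) (t i))] at h5
          linarith
  · simp only [hw0]
    rw [ev_symm, ev_ev_neg, ← ev_one (f := f) y₀, ev_neg_ev]
    exact hy₀.2
  · simp only [hwS]
    rw [ev_symm, ev_ev_neg]
    exact hq₀
  · intro i hi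
    simp only [ev_neg_ev]
    exact (hw i hi).2

end ExtQ2

/-- **Module EXTQ2.** -/
theorem specExtQ2 : SpecExtQ2.{v} := by
  intro X _ _ f e C a s b B e₁ hR he₁ hsb hB hreach hreach' e₂ he₂
  have he := (hR univ).e0
  obtain ⟨ε, hε, H⟩ := ExtQ2.main_aux specCorQ2 hR he₁ hsb hB hreach hreach' (e₂ := min e₂ e)
    (by positivity) (min_le_right _ _)
  refine ⟨ε, hε, fun U hT hfr η ρ hη hρ => ?_⟩
  obtain ⟨Λ, hΛ⟩ := H U hT hfr η ρ hη hρ
  refine ⟨Λ, fun M' => ?_⟩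
  obtain ⟨m, p, q, h0, h1, h2, h3⟩ := hΛ M'
  exact ⟨m, p, q, h0, h1.mono (min_le_left _ _), h2, h3⟩

end Pool.Agent.Lib.MP610fe3.AC
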