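import Pool.Agent.Lib.MP_610fe3_an.AC.EyonDefs
import Pool.Agent.Lib.MP_610fe3_an.T6.Ey
import Pool.Agent.Lib.MP_610fe3_an.T6.Hol
import Pool.Agent.Lib.MP_610fe3_an.T6.PackS

/-!
# Module EYON, second half: the image of a disc and the cells

Compare T6/Ey.lean.
-/

open Set Filter Function Metric
open scoped Topology

namespace Pool.Agent.Lib.MP610fe3.AC

open Cf H6 T4 T6

universe v

namespace EyBM

variable {M : Type v} [MetricSpace M] {f : M ≃ₜ M} {u : ℕ}
  {φ : M → EuclideanSpace ℝ (Fin u) → M} {C a b κ₀ r r₁ e ρ η ρ₁ : ℝ}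

/-- The image, at the time `m'`, of two points which are close until the time `N`. -/
theorem img_wl (S : Sys f u φ C a b κ₀ r r₁ e ρ) (hη : 4 * C * η ≤ r) {m' N : ℕ} (hm : m' ≤ N)
    {x y : M} (h : x ∈ Wl f.symm (2 * e) y)
    (h1 : ∀ k ≤ N, dist (f^[k] x) (f^[k] y) ≤ 4 * C * η) :
    f^[m'] x ∈ Wl f.symm (4 * C ^ 2 * η) (f^[m'] y) := by
  have hC := S.C1
  have her := S.e_le_r
  have he := S.e_pos
  have h2 := TrM.wl_iter (f := f) (r := r) (N := m') (Wl_mono (by linarith) h)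
    (fun j hj => (h1 j (hj.trans hm)).trans hη)
  refine S.wl_un h2 ?_
  calc C * dist (f^[m'] x) (f^[m'] y) ≤ C * (4 * C * η) := by
        have := h1 m' hm
        gcongr
    _ = 4 * C ^ 2 * η := by ring

/-- Separation at a time `≤ N` of the points of the ladder is separation at a time `≤ N - m'` of the
points seen at the time `m'`. -/
theorem sep_img (S : Sys f u φ C a b κ₀ r r₁ e ρ) (hη : 0 < η) {m' N n' : ℕ} (hm : m' + n' = N)
    {x y : M} (h : f^[m'] y ∈ Wl f.symm r (f^[m'] x))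
    (h1 : ∃ k ≤ N, η / (4 * C) < dist (f^[k] x) (f^[k] y)) :
    ∃ k ≤ n', η / (4 * C ^ 2) < dist (f^[k] (f^[m'] x)) (f^[k] (f^[m'] y)) := by
  have hC := S.C1
  have hC0 : 0 < C := by linarith
  obtain ⟨k, hk, hk'⟩ := h1
  rcases le_or_gt m' k with h2 | h2
  · refine ⟨k - m', by omega, ?_⟩
    rw [← iterate_add_apply, ← iterate_add_apply, Nat.sub_add_cancel h2]
    refine lt_of_le_of_lt ?_ hk'
    apply div_le_div_of_nonneg_left hη.le (by positivity)
    nlinarith
  · refine ⟨0, Nat.zero_le _, ?_⟩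
    have h3 := S.dec_un' h (m' - k)
    rw [TrM.sii_le f (Nat.sub_le _ _), TrM.sii_le f (Nat.sub_le _ _), Nat.sub_sub_self h2.le,
      dist_comm, dist_comm (f^[m'] y)] at h3
    simp only [iterate_zero, id_eq]
    have h4 : η / (4 * C) < C * dist (f^[m'] x) (f^[m'] y) := lt_of_lt_of_le hk' h3
    rw [div_lt_iff₀ (by positivity)] at h4 ⊢
    nlinarith

end EyBM

open EyM EyBM in
/-- The image of a disc and the cells. -/
theorem specEyB : SpecEyB.{v} := by
  classical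
  intro M _ _ f u φ C a b κ₀ r r₁ e ρ η ρ₁ κ PP S hc hηe5 hηρ5 hκ hQ
  have hC := S.C1
  have hC0 : 0 < C := by linarith
  have hη := hc.η_pos
  have hηe := hc.η_le
  have he := S.e_pos
  have her := S.e_le_r
  have hρ := S.ρ_pos
  have hρ₁ := hc.ρ₁_pos
  have hρ₁' := hc.ρ₁_le'
  have hηe' : η ≤ e := by nlinarith
  obtain ⟨CS, hCS, hPS⟩ := specPackS u S.u_pos
  obtain ⟨c₁, hc₁, hcell₁⟩ := hQ η η hη (by linarith) hη
  set A₁ : ℝ := max 1 (C ^ 2 * c₁) with hA₁
  have hA₁1 : 1 ≤ A₁ := le_max_left _ _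
  refine ⟨CS * A₁ ^ u, by positivity, ?_⟩
  intro l₀ q i m N w hlm hmN hwP hqP hinr hi hdom
  obtain ⟨h, hh⟩ := specHol f u φ C a b κ₀ r r₁ e ρ η ρ₁ S hc q i m w hdom
  have hi' : i * (C * Real.exp (-(b * N)) * (2 * e)) ≤ η := by
    refine hi.trans ?_
    rw [div_le_iff₀ (by positivity)]
    nlinarith
  set m' : ℕ := m - l₀ with hm'
  have hm'N : m' + (N - m + l₀) = N := by omega
  -- the points of the disc
  have hsc : ∀ x ∈ closedBall (0 : EuclideanSpace ℝ (Fin u)) 1,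
      ρ₁ • x ∈ closedBall (0 : EuclideanSpace ℝ (Fin u)) ρ₁ := by
    intro x hx
    rw [mem_closedBall_zero_iff] at hx ⊢
    rw [norm_smul, Real.norm_of_nonneg hρ₁.le]
    exact mul_le_of_le_one_right hρ₁.le hx
  have hscρ : ∀ x ∈ closedBall (0 : EuclideanSpace ℝ (Fin u)) 1,
      ρ₁ • x ∈ closedBall (0 : EuclideanSpace ℝ (Fin u)) ρ := fun x hx =>
    closedBall_subset_closedBall (by linarith) (hsc x hx)
  set P : EuclideanSpace ℝ (Fin u) → M := fun x => φ w (ρ₁ • x) with hP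
  set X : EuclideanSpace ℝ (Fin u) → M := fun x => φ (q i) (h x) with hX
  set Y : EuclideanSpace ℝ (Fin u) → M := fun x => f^[m'] (X x) with hY
  have hPη : ∀ x ∈ closedBall (0 : EuclideanSpace ℝ (Fin u)) 1, P x ∈ Wl f.symm η w :=
    fun x hx => hc.disc S w (hsc x hx)
  have hlad : ∀ x ∈ closedBall (0 : EuclideanSpace ℝ (Fin u)) 1,
      Lad f e q i (f.symm^[m] (P x)) (X x) := hh.lad
  have hXe : ∀ x ∈ closedBall (0 : EuclideanSpace ℝ (Fin u)) 1, X x ∈ Wl f.symm e (q i) :=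
    fun x hx => (hlad x hx).last
  have hXX : ∀ x ∈ closedBall (0 : EuclideanSpace ℝ (Fin u)) 1,
      ∀ y ∈ closedBall (0 : EuclideanSpace ℝ (Fin u)) 1, X x ∈ Wl f.symm (2 * e) (X y) := by
    intro x hx y hy
    have := Wl_trans (Wl_comm (hXe y hy)) (hXe x hx)
    rwa [← two_mul] at this
  have hhρ : ∀ x ∈ closedBall (0 : EuclideanSpace ℝ (Fin u)) 1,
      h x ∈ closedBall (0 : EuclideanSpace ℝ (Fin u)) ρ := fun x hx =>
    closedBall_subset_closedBall (by linarith) (hh.mem x hx)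
  have hPlow : ∀ x ∈ closedBall (0 : EuclideanSpace ℝ (Fin u)) 1,
      ∀ y ∈ closedBall (0 : EuclideanSpace ℝ (Fin u)) 1, ρ₁ * dist x y ≤ C * dist (P x) (P y) := by
    intro x hx y hy
    have := S.lower w _ (hscρ x hx) _ (hscρ y hy)
    rwa [dist_smul₀, Real.norm_of_nonneg hρ₁.le] at this
  have hPup : ∀ x ∈ closedBall (0 : EuclideanSpace ℝ (Fin u)) 1,
      ∀ y ∈ closedBall (0 : EuclideanSpace ℝ (Fin u)) 1, dist (P x) (P y) ≤ C * (ρ₁ * dist x y) := by
    intro x hx y hy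
    have := S.upper w _ (hscρ x hx) _ (hscρ y hy)
    rwa [dist_smul₀, Real.norm_of_nonneg hρ₁.le] at this
  have hcl : ∀ x ∈ closedBall (0 : EuclideanSpace ℝ (Fin u)) 1,
      ∀ y ∈ closedBall (0 : EuclideanSpace ℝ (Fin u)) 1,
      (∀ k ≤ N - m, dist (f^[k] (P x)) (f^[k] (P y)) ≤ 2 * η) →
      ∀ k ≤ N, dist (f^[k] (X x)) (f^[k] (X y)) ≤ 4 * C * η :=
    fun x hx y hy => img_close S hc hmN hi' (hPη x hx) (hPη y hy) (hlad x hx) (hlad y hy)
  have hse : ∀ x ∈ closedBall (0 : EuclideanSpace ℝ (Fin u)) 1,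
      ∀ y ∈ closedBall (0 : EuclideanSpace ℝ (Fin u)) 1,
      (∃ k ≤ N - m, η < dist (f^[k] (P x)) (f^[k] (P y))) →
      ∃ k ≤ N, η / (4 * C) < dist (f^[k] (X x)) (f^[k] (X y)) :=
    fun x hx y hy => img_sep S hc hmN hi (hlad x hx) (hlad y hy)
  -- the cells
  obtain ⟨F, hF1, hF2, hF3⟩ := InrM.exists_max S (P '' closedBall 0 1) (N - m) hη
  have hc_ex : ∀ j : Fin F.card, ∃ x ∈ closedBall (0 : EuclideanSpace ℝ (Fin u)) 1,
      P x = (F.equivFin.symm j : M) := fun j => hF1 _ (F.equivFin.symm j).2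
  choose c hcb hcP using hc_ex
  have hcF : ∀ j, P (c j) ∈ F := fun j => by rw [hcP]; exact (F.equivFin.symm j).2
  have hcne : ∀ j k, j ≠ k → P (c j) ≠ P (c k) := by
    intro j k hjk heq
    rw [hcP, hcP] at heq
    exact hjk (F.equivFin.symm.injective (Subtype.ext heq))
  set Cl : Fin F.card → Set (EuclideanSpace ℝ (Fin u)) := fun j =>
    {x | x ∈ closedBall 0 1 ∧ ∀ k ≤ N - m, dist (f^[k] (P x)) (f^[k] (P (c j))) ≤ η} with hCl
  have hcCl : ∀ j, c j ∈ Cl j := fun j => ⟨hcb j, fun k _ => by rw [dist_self]; exact hη.le⟩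
  have hclj : ∀ j, ∀ x ∈ Cl j, ∀ y ∈ Cl j, ∀ k ≤ N,
      dist (f^[k] (X x)) (f^[k] (X y)) ≤ 4 * C * η := by
    intro j x hx y hy
    refine hcl x hx.1 y hy.1 fun k hk => ?_
    have h1 := hx.2 k hk
    have h2 := hy.2 k hk
    rw [dist_comm] at h2
    linarith [dist_triangle (f^[k] (P x)) (f^[k] (P (c j))) (f^[k] (P y))]
  have hsep : ∀ j k, j ≠ k → ∃ n ≤ N - m, η < dist (f^[n] (P (c j))) (f^[n] (P (c k))) :=
    fun j k hjk => hF2 _ (hcF j) _ (hcF k) (hcne j k hjk)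
  -- the constants
  set K : ℝ := A₁ * Real.exp (κ * (N - m : ℕ)) with hK
  have hK1 : 1 ≤ K := by
    have : 1 ≤ Real.exp (κ * (N - m : ℕ)) := Real.one_le_exp (by positivity)
    exact one_le_mul_of_one_le_of_one_le hA₁1 this
  -- packing of the source cells
  have hsrc : ∀ j, ∀ x ∈ Cl j, ∀ y ∈ Cl j, ∀ k, j ≠ k → dist x y ≤ K * dist (c j) (c k) := by
    intro j x hx y hy k hjk
    have hPP : ∀ x ∈ closedBall (0 : EuclideanSpace ℝ (Fin u)) 1,
        P x ∈ Wl f.symm (2 * e) (P (c j)) := fun x hx =>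
      Wl_mono (by linarith) (Wl_trans (Wl_comm (hPη _ (hcb j))) (hPη x hx))
    have h1 := hcell₁ (N - m) (P (c j)) (hwP _ (hsc _ (hcb j))) (P (c k)) (P x) (P y)
      (hPP x hx.1) (hPP y hy.1) (hPP _ (hcb k)) hx.2 hy.2 (hsep j k hjk)
    have h2 := hPlow x hx.1 y hy.1
    have h3 := hPup _ (hcb j) _ (hcb k)
    have h4 : ρ₁ * dist x y ≤ ρ₁ * (K * dist (c j) (c k)) := by
      calc ρ₁ * dist x y ≤ C * dist (P x) (P y) := h2
        _ ≤ C * (c₁ * Real.exp (κ * (N - m : ℕ)) * dist (P (c j)) (P (c k))) := by gcongr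
        _ ≤ C * (c₁ * Real.exp (κ * (N - m : ℕ)) * (C * (ρ₁ * dist (c j) (c k)))) := by gcongr
        _ = ρ₁ * (C ^ 2 * c₁ * Real.exp (κ * (N - m : ℕ)) * dist (c j) (c k)) := by ring
        _ ≤ ρ₁ * (K * dist (c j) (c k)) := by
            have h5 : C ^ 2 * c₁ ≤ A₁ := le_max_right _ _
            rw [hK]
            gcongr
    exact le_of_mul_le_mul_left h4 hρ₁
  have hbdd : ∀ j, Bornology.IsBounded (Cl j) := fun j =>
    isBounded_closedBall.subset fun x hx => hx.1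
  have hYY : ∀ j, ∀ x ∈ Cl j, ∀ y ∈ Cl j, Y x ∈ Wl f.symm (4 * C ^ 2 * η) (Y y) :=
    fun j x hx y hy => img_wl S (by linarith) (by omega) (hXX x hx.1 y hy.1) (hclj j x hx y hy)
  refine ⟨F.card, X, Y, Cl, c, fun j => diam (Cl j), ?_, ?_, fun s => rfl, hlad⟩
  · refine ⟨?_, ?_, fun s hs => hqP _ (hXe s hs) m', ?_, hcCl, fun j x hx => hx.1, ?_,
      fun j x hx y hy => dist_le_diam_of_mem (hbdd j) hx hy, fun j => diam_nonneg, hYY, ?_, ?_⟩
    · -- continuity
      have h1 : LipschitzOnWith (Real.toNNReal C) (φ (q i)) (closedBall 0 ρ) := by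
        refine LipschitzOnWith.of_dist_le_mul fun x hx y hy => ?_
        rw [Real.coe_toNNReal C hC0.le]
        exact S.upper (q i) x hx y hy
      have h2 : ContinuousOn X (closedBall 0 1) := h1.continuousOn.comp hh.cont hhρ
      exact (f.continuous.iterate m').comp_continuousOn h2
    · -- openness
      intro t ht s hs
      have hs1 : s ∈ closedBall (0 : EuclideanSpace ℝ (Fin u)) 1 :=
        closedBall_subset_closedBall ht.2.le (ball_subset_closedBall hs)
      obtain ⟨ε₁, hε₁, hb⟩ := Metric.isOpen_iff.1 (hh.opn t ht) (h s) (mem_image_of_mem h hs)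
      refine ⟨ε₁ / C ^ 2, by positivity, fun x hx hd => ?_⟩
      have h1 : f.symm^[m'] x ∈ Wl f.symm e (X s) := by
        have := Wl_iter hx m'
        rwa [hY, TrM.sii] at this
      have h2 : f.symm^[m'] x ∈ Wl f.symm (4 * e) (q i) :=
        Wl_mono (by linarith) (Wl_trans (hXe s hs1) h1)
      obtain ⟨y, hy, hyx⟩ := S.onto _ _ h2
      have hyρ : y ∈ closedBall (0 : EuclideanSpace ℝ (Fin u)) ρ :=
        closedBall_subset_closedBall (by linarith) hy
      have h3 : dist (f.symm^[m'] x) (X s) ≤ C * dist x (Y s) := by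
        have := S.dec_un' (Wl_mono (by linarith : e ≤ r) hx) m'
        rwa [hY, TrM.sii] at this
      have h4 : dist y (h s) < ε₁ := by
        calc dist y (h s) ≤ C * dist (φ (q i) y) (φ (q i) (h s)) :=
              S.lower (q i) y hyρ (h s) (hhρ s hs1)
          _ = C * dist (f.symm^[m'] x) (X s) := by rw [hyx]
          _ ≤ C * (C * dist x (Y s)) := by gcongr
          _ < C * (C * (ε₁ / C ^ 2)) := by gcongr
          _ = ε₁ := by field_simp
      obtain ⟨s', hs', hs''⟩ := hb (mem_ball.2 h4)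
      refine ⟨s', hs', ?_⟩
      show f^[m'] (φ (q i) (h s')) = x
      rw [hs'', hyx, TrM.iis]
    · -- the image contains no unstable set of size `η`
      intro x hx
      obtain ⟨z, hz, hz'⟩ := hinr x hx
      refine ⟨z, hz, fun s hs heq => hz' _ (hsc s hs) ?_⟩
      have h1 := hlad s hs
      rwa [← heq, hY, TrM.sii]
    · -- covering
      intro x hx
      obtain ⟨g, hg, hg'⟩ := hF3 (P x) ⟨x, hx, rfl⟩
      refine mem_iUnion.2 ⟨F.equivFin ⟨g, hg⟩, hx, fun k hk => ?_⟩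
      rw [hcP, Equiv.symm_apply_apply]
      exact hg' k hk
    · -- Bowen balls
      intro j x hx y hy k hk
      show dist (f^[k] (f^[m'] (X x))) (f^[k] (f^[m'] (X y))) ≤ _
      rw [← iterate_add_apply, ← iterate_add_apply]
      exact hclj j x hx y hy _ (by omega)
    · -- separation
      intro j k hjk hW
      exact sep_img S hη hm'N hW (hse _ (hcb j) _ (hcb k) (hsep j k hjk))
  · have h1 := hPS F.card c (fun j => diam (Cl j)) K hK1 hcb ?_ ?_
    · refine h1.trans (le_of_eq ?_)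
      rw [hK, mul_pow, ← Real.exp_nat_mul]
      ring_nf
    · intro j
      refine ⟨diam_nonneg, diam_le_of_forall_dist_le (by norm_num) fun x hx y hy => ?_⟩
      have h1 := hx.1
      have h2 := hy.1
      rw [mem_closedBall] at h1 h2
      rw [dist_comm] at h2
      linarith [dist_triangle x 0 y]
    · intro j k hjk
      exact diam_le_of_forall_dist_le (by positivity) fun x hx y hy => hsrc j x hx y hy k hjk

end Pool.Agent.Lib.MP610fe3.AC
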