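import Pool.Agent.Lib.MP_610fe3_an.AC.Spec
import Pool.Agent.Lib.MP_610fe3_an.T6.Inr
import Pool.Agent.Lib.MP_610fe3_an.T6.Count

/-!
# Module INRON: the image of a disc contains no unstable set of size `η`

From COUNT (hypothesis) and TR.
-/

open Set Filter Function Metric
open scoped Topology

namespace Pool.Agent.Lib.MP610fe3.AC

open Cf H6 T4 T6

universe v

/-- points of the attractor are free -/
theorem free_of_mem {M : Type v} [MetricSpace M] {f : M ≃ₜ M} {A : Set M} {r η : ℝ}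
    (hA : Attr f A r) (hr : 0 ≤ r) (hη : η ≤ r) {w : M} (hw : w ∈ A) : Free f A r η w := by
  intro y hy
  exact ⟨0, y, hA.sat w hw y (Wl_mono hη hy), mem_Wl_self hr⟩

open LevelM InrM in
theorem specInrOn_of (hcount : T6.SpecCount.{v}) : SpecInrOn.{v} := by
  classical
  intro M _ _ f u φ C a b κ₀ r r₁ e ρ η ρ₁ A hs hA hsc
  have hC : 1 ≤ C := one_le hs
  have hC0 : 0 < C := by linarith
  have her := e_le_r hs
  have he := hs.e_pos
  have hη := hsc.η_pos
  have hρ₁ := hsc.ρ₁_pos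
  have hρ := hs.ρ_pos
  have hr := hs.fwd.ε_pos
  have hηe : 16 * η ≤ e := by nlinarith [hsc.η_le]
  have hCCρ : C * (C * ρ₁) ≤ η := by nlinarith [hsc.ρ₁_le]
  have hρ₁ρ : ρ₁ ≤ ρ := by linarith [hsc.ρ₁_le']
  obtain ⟨l, hl⟩ := hcount f u φ C a b κ₀ r r₁ e ρ η A hs hA hη hsc.η_le
  refine ⟨l, ?_⟩
  intro q i m N w hw hml hmN hi x hx
  set m' : ℕ := m - l with hm'
  have hm'm : m' + l = m := by omega
  by_contra hcon
  push Not at hcon
  have hsm : ∀ s ∈ closedBall (0 : EuclideanSpace ℝ (Fin u)) ρ₁, φ w s ∈ Wl f.symm η w := by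
    intro s hs1
    rw [mem_closedBall_zero_iff] at hs1
    exact Wl_mono hCCρ (phi_mem hs hs1 hρ₁ρ)
  have hfw : Free f A r (2 * η) w := free_of_mem hA hr.le (by linarith) hw
  have hfx : Free f A r η x := free_of_mem hA hr.le (by linarith) hx
  -- counting
  obtain ⟨S, hSW, hSsep, hSmax⟩ := exists_max hs (Wl f.symm η w) (N - m) hη
  obtain ⟨S', hcard, hS'W, hS'sep⟩ := hl (N - m) w x hfw hfx S hSW hSsep
  have hsel : ∀ z : M, ∃ g : M, ∃ g' : M, z ∈ Wl f.symm η x → (g ∈ Wl f.symm η w ∧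
      Lad f e q i (f.symm^[m] g) (f.symm^[m'] z) ∧ g' ∈ S ∧
      ∀ k ≤ N - m, dist (f^[k] g) (f^[k] g') ≤ η) := by
    intro z
    by_cases hz : z ∈ Wl f.symm η x
    · obtain ⟨s, hs1, hlad⟩ := hcon z hz
      obtain ⟨g', hg', hg''⟩ := hSmax _ (hsm s hs1)
      exact ⟨φ w s, g', fun _ => ⟨hsm s hs1, hlad, hg', hg''⟩⟩
    · exact ⟨z, z, fun h => absurd h hz⟩
  choose G G' hG using hsel
  obtain ⟨z, hz, z', hz', hne, hGG⟩ := Finset.exists_ne_map_eq_of_card_lt_of_maps_to hcard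
    (f := G') (fun z hz => (hG z (hS'W z hz)).2.2.1)
  obtain ⟨g1, g2, -, g4⟩ := hG z (hS'W z hz)
  obtain ⟨g1', g2', -, g4'⟩ := hG z' (hS'W z' hz')
  rw [← hGG] at g4'
  -- the starting points are close
  have hclose : ∀ k ≤ N, dist (f^[k] (f.symm^[m] (G z))) (f^[k] (f.symm^[m] (G z'))) ≤
      2 * η := by
    intro k hk
    rcases le_or_gt k m with hkm | hkm
    · rw [iis_le f hkm, iis_le f hkm]
      have h1 := g1 (m - k)
      have h2 := g1' (m - k)
      rw [dist_comm] at h2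
      linarith [dist_triangle (f.symm^[m - k] (G z)) (f.symm^[m - k] w)
        (f.symm^[m - k] (G z'))]
    · have h1 : k = (k - m) + m := by omega
      rw [h1, iterate_add_apply, iterate_add_apply, iis, iis]
      have h2 := g4 (k - m) (by omega)
      have h3 := g4' (k - m) (by omega)
      rw [dist_comm] at h3
      linarith [dist_triangle (f^[k - m] (G z)) (f^[k - m] (G' z)) (f^[k - m] (G z'))]
  have htr := TrM.fwd hs q i N η _ _ _ _ hη hsc.η_le hi (lad_mono (by linarith) g2)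
    (lad_mono (by linarith) g2') hclose
  obtain ⟨k, hk, hk'⟩ := hS'sep z hz z' hz' hne
  have h1 := htr (k + m') (by omega)
  rw [iterate_add_apply, iterate_add_apply, iis, iis] at h1
  linarith

/-- Module INRON. -/
theorem specInrOn : SpecInrOn.{v} := specInrOn_of T6.specCount

end Pool.Agent.Lib.MP610fe3.AC
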