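import Pool.Agent.Lib.MP_610fe3_an.AC.Spec
import Pool.Agent.Lib.MP_610fe3_an.T6.Cone
import Pool.Agent.Lib.MP_610fe3_an.T6.Path
import Pool.Agent.Lib.MP_610fe3_an.T6.PackT
import Pool.Agent.Lib.MP_610fe3_an.T6.Pl

/-!
# Module LOC

If every path `0, z, e₂` inside the ball of radius `δ` meets small balls of total weight at least
`1/2`, then the sum of the `u`-th powers of the weights of the balls near `0` is bounded below.
This is the first half of T6/Pl.lean.
-/

open Set Filter Function Metric MeasureTheory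
open scoped Topology

namespace Pool.Agent.Lib.MP610fe3.AC

open Cf H6 T4 T6

namespace LocM

open scoped Classical in
/-- The statement for families indexed by `Fin n`. -/
theorem locFin (u : ℕ) (hu : 1 ≤ u) : ∃ C : ℝ, 0 < C ∧ ∀ (n : ℕ)
    (c : Fin n → EuclideanSpace ℝ (Fin u))
    (D D' : Fin n → ℝ) (e₂ : EuclideanSpace ℝ (Fin u)) (K δ : ℝ) (L : ℕ), 1 ≤ K → 0 < δ →
    (∀ i, 0 ≤ D i) → (∀ i, 0 < D' i ∧ D' i ≤ δ ∧ δ ≤ 2 ^ L * D' i) →
    (∀ i j, i ≠ j → D' i ≤ K * dist (c i) (c j)) → e₂ ∈ closedBall 0 δ →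
    (∀ z ∈ closedBall (0 : EuclideanSpace ℝ (Fin u)) δ, 1 / 2 ≤ ∑ i,
      if (∃ x ∈ segment ℝ 0 z ∪ segment ℝ z e₂, dist x (c i) ≤ D' i) then D i else 0) →
    1 ≤ C * ((L + 1) * K ^ u) ^ (u - 1) *
      ∑ i, if dist (c i) 0 ≤ 2 * δ then D i ^ u else 0 := by
  obtain ⟨Cp, hCp, path⟩ := specPath specCone u hu
  obtain ⟨Ct, hCt, packt⟩ := specPackT u hu
  refine ⟨8 * Cp * (8 * Cp * Ct) ^ (u - 1), by positivity, ?_⟩
  intro n c D D' e₂ K δ L hK hδ hD hD' hsep he₂ hmeet
  set Wd : ℝ := (L + 1) * K ^ u with hWd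
  have hWdpos : 0 < Wd := by positivity
  set t : ℝ := 8 * Cp * Ct * Wd with ht
  have htpos : 0 < t := by positivity
  obtain ⟨z, hz, hsum⟩ := path n c D D' 0 0 e₂ δ hδ hD
    (fun i => ⟨(hD' i).1, (hD' i).2.1⟩) (mem_closedBall_self hδ.le) he₂
  have hc1 := hmeet z hz
  have hc3 : (∑ i, if dist (c i) 0 ≤ 2 * δ then
      D i * ((D' i / max (dist (c i) 0) (D' i)) ^ (u - 1) +
        (D' i / max (dist (c i) e₂) (D' i)) ^ (u - 1)) else 0) ≤
      2 * t ^ (u - 1) * (∑ i, if dist (c i) 0 ≤ 2 * δ then D i ^ u else 0) +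
      ((∑ i, if dist (c i) 0 ≤ 3 * δ then
          (D' i / max (dist (c i) 0) (D' i)) ^ u else 0) +
        ∑ i, if dist (c i) e₂ ≤ 3 * δ then
          (D' i / max (dist (c i) e₂) (D' i)) ^ u else 0) / t := by
    rw [Finset.mul_sum, ← Finset.sum_add_distrib, Finset.sum_div, ← Finset.sum_add_distrib]
    apply Finset.sum_le_sum
    intro i _
    have hA : 0 ≤ D' i / max (dist (c i) 0) (D' i) :=
      div_nonneg (hD' i).1.le (le_trans (hD' i).1.le (le_max_right _ _))
    have hB : 0 ≤ D' i / max (dist (c i) e₂) (D' i) :=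
      div_nonneg (hD' i).1.le (le_trans (hD' i).1.le (le_max_right _ _))
    by_cases h1 : dist (c i) 0 ≤ 2 * δ
    · have h2 : dist (c i) 0 ≤ 3 * δ := by linarith
      have h3 : dist (c i) e₂ ≤ 3 * δ := by
        have := dist_triangle (c i) 0 e₂
        have h4 : dist 0 e₂ ≤ δ := by rw [dist_comm]; exact he₂
        linarith
      rw [if_pos h1, if_pos h1, if_pos h2, if_pos h3]
      have y1 := PlM.young (hD i) hA htpos hu
      have y2 := PlM.young (hD i) hB htpos hu
      rw [add_div]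
      linarith
    · rw [if_neg h1, if_neg h1]
      have h2 : 0 ≤ ((if dist (c i) 0 ≤ 3 * δ then
          (D' i / max (dist (c i) 0) (D' i)) ^ u else 0) +
        if dist (c i) e₂ ≤ 3 * δ then
          (D' i / max (dist (c i) e₂) (D' i)) ^ u else 0) / t := by
        apply div_nonneg _ htpos.le
        apply add_nonneg
        · split_ifs
          · positivity
          · exact le_refl _
        · split_ifs
          · positivity
          · exact le_refl _
      linarith
  have hw1 := packt n c D' 0 K δ L hK hδ (fun i => (hD' i).2) hsep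
  have hw2 := packt n c D' e₂ K δ L hK hδ (fun i => (hD' i).2) hsep
  set S := ∑ i, if dist (c i) 0 ≤ 2 * δ then D i ^ u else 0 with hS
  have hc4 : 1 / 2 ≤ Cp * (2 * t ^ (u - 1) * S + (Ct * Wd + Ct * Wd) / t) := by
    refine hc1.trans (hsum.trans ?_)
    apply mul_le_mul_of_nonneg_left _ hCp.le
    refine hc3.trans ?_
    have : ((∑ i, if dist (c i) 0 ≤ 3 * δ then
          (D' i / max (dist (c i) 0) (D' i)) ^ u else 0) +
        ∑ i, if dist (c i) e₂ ≤ 3 * δ then
          (D' i / max (dist (c i) e₂) (D' i)) ^ u else 0) / t ≤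
        (Ct * Wd + Ct * Wd) / t := by
      apply div_le_div_of_nonneg_right _ htpos.le
      exact add_le_add hw1 hw2
    linarith
  have hc5 : Cp * ((Ct * Wd + Ct * Wd) / t) = 1 / 4 := by
    rw [ht]
    field_simp
    ring
  have hc6 : Cp * (2 * t ^ (u - 1) * S + (Ct * Wd + Ct * Wd) / t) =
      2 * Cp * t ^ (u - 1) * S + 1 / 4 := by
    rw [mul_add, hc5]; ring
  rw [hc6] at hc4
  have hfin : 8 * Cp * (8 * Cp * Ct) ^ (u - 1) * Wd ^ (u - 1) * S =
      4 * (2 * Cp * t ^ (u - 1) * S) := by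
    rw [ht, mul_pow (8 * Cp * Ct) Wd]; ring
  rw [hfin]
  linarith

end LocM

/-- Module LOC. -/
theorem specLoc : SpecLoc := by
  classical
  intro u hu
  obtain ⟨C, hC, H⟩ := LocM.locFin u hu
  refine ⟨C, hC, ?_⟩
  intro ι _ c D D' e₂ K δ L hK hδ hD hD' hsep he₂ hmeet
  have σ := (Fintype.equivFin ι).symm
  have h := H (Fintype.card ι) (fun i => c (σ i)) (fun i => D (σ i)) (fun i => D' (σ i)) e₂ K δ L
    hK hδ (fun i => hD _) (fun i => hD' _)
    (fun i j hij => hsep _ _ (fun h => hij (σ.injective h))) he₂ (fun z hz => by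
      have h1 := hmeet z hz
      rw [← Equiv.sum_comp σ] at h1
      exact h1)
  rw [← Equiv.sum_comp σ (fun i => if dist (c i) 0 ≤ 2 * δ then D i ^ u else 0)]
  exact h

end Pool.Agent.Lib.MP610fe3.AC
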