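import Pool.Agent.Lib.MP_610fe3_an.AC.EyonA
import Pool.Agent.Lib.MP_610fe3_an.AC.EyonB
import Pool.Agent.Lib.MP_610fe3_an.AC.CELLSON
import Pool.Agent.Lib.MP_610fe3_an.AC.INRON
import Pool.Agent.Lib.MP_610fe3_an.AC.LOC
import Pool.Agent.Lib.MP_610fe3_an.AC.CUTM
import Pool.Agent.Lib.MP_610fe3_an.AC.COVER
import Pool.Agent.Lib.MP_610fe3_an.T6.Cells

/-!
# Module EYON: assembly (EYGEN and EYON)
-/

open Set Filter Function Metric
open scoped Topology

namespace Pool.Agent.Lib.MP610fe3.AC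

open Cf H6 T4 T6

universe v

namespace EyGM

variable {M : Type v} [MetricSpace M] {f : M ≃ₜ M} {u : ℕ}
  {φ : M → EuclideanSpace ℝ (Fin u) → M} {C a b κ₀ r r₁ e ρ η ρ₁ : ℝ}

/-- Unstable sets, moved back. -/
theorem wl_back (S : Sys f u φ C a b κ₀ r r₁ e ρ) {x y : M} {t : ℝ} (ht : t ≤ r)
    (h : y ∈ Wl f.symm t x) (n : ℕ) :
    f.symm^[n] y ∈ Wl f.symm (C * Real.exp (-(a * n)) * t) (f.symm^[n] x) := by
  intro k
  rw [← iterate_add_apply, ← iterate_add_apply]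
  have h1 := S.dec_un (Wl_mono ht h) (k + n)
  refine h1.trans ?_
  have h2 : Real.exp (-(a * (k + n : ℕ))) ≤ Real.exp (-(a * n)) := by
    apply Real.exp_le_exp.2
    have := S.a_pos
    have h3 : 0 ≤ a * (k : ℝ) := by positivity
    push_cast
    linarith
  have h3 := Wl_dist h
  have h4 := S.C1
  gcongr

/-- A maximal family of unrelated points. -/
theorem exists_max_family (W : Set M) (R : M → M → Prop) (hrefl : ∀ p ∈ W, R p p)
    (hsymm : ∀ p p', R p p' → R p' p) (B : ℕ)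
    (hB : ∀ G : Finset M, (∀ p ∈ G, p ∈ W) → (∀ p ∈ G, ∀ p' ∈ G, p ≠ p' → ¬ R p p') →
      G.card ≤ B) :
    ∃ G : Finset M, (∀ p ∈ G, p ∈ W) ∧ (∀ p ∈ G, ∀ p' ∈ G, p ≠ p' → ¬ R p p') ∧
      ∀ g ∈ W, ∃ p ∈ G, R p g := by
  classical
  set Q : ℕ → Prop := fun m => ∃ G : Finset M, G.card = m ∧ (∀ p ∈ G, p ∈ W) ∧
    (∀ p ∈ G, ∀ p' ∈ G, p ≠ p' → ¬ R p p') with hQ
  have hQ0 : Q 0 := ⟨∅, by simp, by simp, by simp⟩
  obtain ⟨m, hm, hmax⟩ : ∃ m, Q m ∧ ∀ k, Q k → k ≤ m := by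
    have hfin : {k | Q k}.Finite := (Set.finite_Iic B).subset fun k hk => by
      obtain ⟨G, rfl, h1, h2⟩ := hk
      exact hB G h1 h2
    obtain ⟨k₀, h1, h2⟩ := hfin.exists_maximal ⟨0, hQ0⟩
    refine ⟨k₀, h1, fun k hk => ?_⟩
    by_contra hlt
    push Not at hlt
    exact absurd (h2 hk hlt.le) (by omega)
  obtain ⟨G, hGm, hGW, hG⟩ := hm
  refine ⟨G, hGW, hG, fun g hg => ?_⟩
  by_contra hcon
  push Not at hcon
  have hgG : g ∉ G := fun h => hcon g h (hrefl g hg)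
  have h1 : Q (G.card + 1) := by
    refine ⟨insert g G, Finset.card_insert_of_notMem hgG, ?_, ?_⟩
    · intro p hp
      rcases Finset.mem_insert.1 hp with rfl | hp
      · exact hg
      · exact hGW p hp
    · intro p hp p' hp' hne
      rcases Finset.mem_insert.1 hp with h1 | h1
      · rcases Finset.mem_insert.1 hp' with h2 | h2
        · exact absurd (h1.trans h2.symm) hne
        · rw [h1]
          exact fun h => hcon p' h2 (hsymm _ _ h)
      · rcases Finset.mem_insert.1 hp' with h2 | h2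
        · rw [h2]
          exact hcon p h1
        · exact hG p h1 p' h2 hne
  have := hmax _ h1
  omega

/-- The case `N < m`. -/
theorem big (S : Sys f u φ C a b κ₀ r r₁ e ρ) (hc : Sc C e ρ η ρ₁) {q : ℕ → M} {i m N : ℕ} {w : M}
    (hNm : N ≤ m) (hi : i * (C * Real.exp (-(b * N)) * (2 * e)) ≤ η)
    {s t : EuclideanSpace ℝ (Fin u)} (hs : s ∈ closedBall (0 : EuclideanSpace ℝ (Fin u)) ρ₁)
    (ht : t ∈ closedBall (0 : EuclideanSpace ℝ (Fin u)) ρ₁) {z z' : M}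
    (hz : Lad f e q i (f.symm^[m] (φ w s)) z) (hz' : Lad f e q i (f.symm^[m] (φ w t)) z') :
    z' ∈ Wl f.symm (4 * C ^ 3 * η * Real.exp (-(a * m))) z := by
  have hC := S.C1
  have he := S.e_pos
  have her := S.e_le_r
  have hη := hc.η_pos
  have hηe := hc.η_le
  have h1 : ∀ k ≤ m, dist (f^[k] (f.symm^[m] (φ w t))) (f^[k] (f.symm^[m] (φ w s))) ≤ 2 * η := by
    refine EyM.start_close le_rfl (hc.disc S w ht) (hc.disc S w hs) fun k hk => ?_
    have hk0 : k = 0 := by omega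
    subst hk0
    have h2 := Wl_dist (hc.disc S w ht)
    have h3 := Wl_dist (hc.disc S w hs)
    rw [dist_comm] at h3
    simp only [iterate_zero, id_eq]
    linarith [dist_triangle (φ w t) w (φ w s)]
  have h2 : i * (C * Real.exp (-(b * m)) * (2 * e)) ≤ η := by
    refine le_trans ?_ hi
    have h3 : Real.exp (-(b * m)) ≤ Real.exp (-(b * N)) := by
      apply Real.exp_le_exp.2
      have := S.b_pos
      have h4 : (N : ℝ) ≤ m := by exact_mod_cast hNm
      nlinarith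
    gcongr
  have h3 := TrM.fwd S q i m η _ _ _ _ hη hηe h2 (hz'.mono (by linarith)) (hz.mono (by linarith)) h1
  have h4 : z' ∈ Wl f.symm (2 * e) z := by
    have := Wl_trans (Wl_comm hz.last) hz'.last
    rwa [← two_mul] at this
  have h5 := EyBM.img_wl S (by linarith) le_rfl h4 h3
  have h6 : 4 * C ^ 2 * η ≤ r := by
    have h7 : C * (16 * C * η) ≤ C * e := by gcongr
    have h8 := S.e_le
    nlinarith
  have h7 := wl_back S h6 h5 m
  rw [TrM.sii, TrM.sii] at h7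
  refine Wl_mono (le_of_eq ?_) h7
  ring

end EyGM

open EyGM in
/-- EYGEN. -/
theorem specEyGen_of (hEA : SpecEyA.{v}) (hEB : SpecEyB.{v}) (hCov : SpecCover.{v}) :
    SpecEyGen.{v} := by
  classical
  intro M _ _ f u φ C a b κ₀ r r₁ e ρ η ρ₁ κ P l₀ S hc hηe5 hηρ5 hκ hQ
  have hC := S.C1
  have hC0 : 0 < C := by linarith
  have hη := hc.η_pos
  have hηe := hc.η_le
  have he := S.e_pos
  have her := S.e_le_r
  have hρ₁ := hc.ρ₁_pos
  have ha := S.a_pos
  obtain ⟨V, hV, hA⟩ := hEA f u φ C a b κ₀ r r₁ e ρ η κ P S hη hηe5 hηρ5 hκ hQ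
  obtain ⟨C₁, hC₁, hB⟩ := hEB f u φ C a b κ₀ r r₁ e ρ η ρ₁ κ P S hc hηe5 hηρ5 hκ hQ
  set V' : ℝ := V * (((l₀ : ℝ) + 1) * Real.exp (u * κ * l₀)) ^ (u - 1) * C₁ with hV'
  have hV'0 : 0 < V' := by positivity
  set E₀ : ℝ := C * Real.exp (a * l₀) * (64 * C ^ 4 * η) with hE₀
  have hE₀0 : 0 < E₀ := by positivity
  set Cf : ℝ := 2 * e * Real.exp (a * l₀) + 4 * C ^ 3 * η + V' * E₀ with hCf
  have hCf0 : 0 < Cf := by positivity
  refine ⟨Cf, hCf0, ?_⟩
  intro q i m N w hwP hqP hinr hi hdom s hs t ht z z' hz hz'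
  have hi' : i * (C * Real.exp (-(b * N)) * (2 * e)) ≤ η := by
    refine hi.trans ?_
    rw [div_le_iff₀ (by positivity)]
    nlinarith
  have hballs : closedBall (0 : EuclideanSpace ℝ (Fin u)) (ρ₁ / 2) ⊆ closedBall 0 ρ₁ :=
    closedBall_subset_closedBall (by linarith)
  -- lower bound of the result
  have hlow : ∀ x : ℝ, x ≤ Cf → x * Real.exp (-(a * m)) ≤ Cf * (N + 1) ^ (u - 1) *
      Real.exp (u ^ 2 * κ * (N - m : ℕ) - a * m) := by
    intro x hx
    have h1 : (1 : ℝ) ≤ ((N : ℝ) + 1) ^ (u - 1) := one_le_pow₀ (by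
      have : (0 : ℝ) ≤ N := Nat.cast_nonneg N
      linarith)
    have h2 : Real.exp (-(a * m)) ≤ Real.exp (u ^ 2 * κ * (N - m : ℕ) - a * m) := by
      apply Real.exp_le_exp.2
      have : 0 ≤ (u : ℝ) ^ 2 * κ * (N - m : ℕ) := by positivity
      linarith
    calc x * Real.exp (-(a * m)) ≤ Cf * Real.exp (-(a * m)) := by gcongr
      _ = Cf * 1 * Real.exp (-(a * m)) := by ring
      _ ≤ _ := by gcongr
  rcases lt_or_ge m l₀ with hml | hml
  · -- short times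
    have h1 : z' ∈ Wl f.symm (2 * e) z := by
      have := Wl_trans (Wl_comm hz.last) hz'.last
      rwa [← two_mul] at this
    refine Wl_mono ?_ h1
    have h2 : (1 : ℝ) ≤ Real.exp (a * l₀) * Real.exp (-(a * m)) := by
      rw [← Real.exp_add]
      apply Real.one_le_exp
      have : (m : ℝ) ≤ l₀ := by exact_mod_cast hml.le
      nlinarith
    calc 2 * e = 2 * e * 1 := by ring
      _ ≤ 2 * e * (Real.exp (a * l₀) * Real.exp (-(a * m))) := by gcongr
      _ = 2 * e * Real.exp (a * l₀) * Real.exp (-(a * m)) := by ring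
      _ ≤ _ := hlow _ (by
        have : 0 ≤ 4 * C ^ 3 * η + V' * E₀ := by positivity
        linarith)
  rcases lt_or_ge N m with hNm | hmN
  · -- long times
    refine Wl_mono ?_ (big S hc hNm.le hi' (hballs hs) (hballs ht) hz hz')
    refine hlow _ ?_
    have : 0 ≤ 2 * e * Real.exp (a * l₀) + V' * E₀ := by positivity
    linarith
  -- the main case
  obtain ⟨n, X, Y, Cl, c, D, H, hsum, hYX, hlad⟩ := hB l₀ q i m N w hml hmN hwP hqP
    (hinr hml hmN) hi hdom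
  set σ : ℝ := 32 * C ^ 4 * η with hσ
  have hσ0 : 0 < σ := by positivity
  have hσr : 2 * σ ≤ r := by
    have h1 : C ^ 4 ≤ C ^ 5 := pow_le_pow_right₀ hC (by norm_num)
    have h2 : 64 * (C ^ 4 * η) ≤ 1000 * (C ^ 5 * η) := by
      have : C ^ 4 * η ≤ C ^ 5 * η := by gcongr
      have : 0 ≤ C ^ 5 * η := by positivity
      linarith
    linarith
  set W : Set M := Y '' closedBall 0 (1 / 2) with hW
  -- the number of pieces
  have hcard : ∀ G : Finset M, (∀ p ∈ G, p ∈ W) →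
      (∀ p ∈ G, ∀ p' ∈ G, p ≠ p' → ¬ p' ∈ Wl f.symm σ p) →
      (G.card : ℝ) ≤ V' * (N + 1) ^ (u - 1) * Real.exp (u ^ 2 * κ * (N - m : ℕ)) := by
    intro G hG hG'
    have h1 := hA (N - m + l₀) Y Cl c D H G hG hG'
    refine h1.trans ?_
    have h2 : (((N - m + l₀ : ℕ) : ℝ) + 1) ≤ ((l₀ : ℝ) + 1) * (N + 1) := by
      have h3 : (((N - m + l₀ : ℕ) : ℝ) + 1) ≤ N + l₀ + 1 := by
        have : N - m + l₀ ≤ N + l₀ := by omega
        have : ((N - m + l₀ : ℕ) : ℝ) ≤ ((N + l₀ : ℕ) : ℝ) := by exact_mod_cast this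
        push_cast at this ⊢
        linarith
      have h4 : (0 : ℝ) ≤ l₀ * N := by positivity
      linarith
    have h3 : Real.exp (u * κ * (N - m + l₀ : ℕ)) =
        Real.exp (u * κ * l₀) * Real.exp (u * κ * (N - m : ℕ)) := by
      rw [← Real.exp_add]
      push_cast
      ring_nf
    have h4 : Real.exp (u * κ * (N - m : ℕ)) ^ (u - 1) * Real.exp (u * κ * (N - m : ℕ)) =
        Real.exp (u ^ 2 * κ * (N - m : ℕ)) := by
      rw [← pow_succ, Nat.sub_add_cancel S.u_pos, ← Real.exp_nat_mul]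
      ring_nf
    have h5 : (((N - m + l₀ : ℕ) : ℝ) + 1) * Real.exp (u * κ * (N - m + l₀ : ℕ)) ≤
        ((l₀ : ℝ) + 1) * Real.exp (u * κ * l₀) * (N + 1) * Real.exp (u * κ * (N - m : ℕ)) := by
      rw [h3]
      calc _ ≤ (((l₀ : ℝ) + 1) * (N + 1)) *
            (Real.exp (u * κ * l₀) * Real.exp (u * κ * (N - m : ℕ))) := by gcongr
        _ = _ := by ring
    have h6 : 0 ≤ ∑ i, D i ^ u := Finset.sum_nonneg fun i _ => pow_nonneg (H.nn i) u
    calc V * ((((N - m + l₀ : ℕ) : ℝ) + 1) * Real.exp (u * κ * (N - m + l₀ : ℕ))) ^ (u - 1) *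
          ∑ i, D i ^ u
        ≤ V * (((l₀ : ℝ) + 1) * Real.exp (u * κ * l₀) * (N + 1) *
          Real.exp (u * κ * (N - m : ℕ))) ^ (u - 1) * (C₁ * Real.exp (u * κ * (N - m : ℕ))) := by
          gcongr
      _ = V * (((l₀ : ℝ) + 1) * Real.exp (u * κ * l₀)) ^ (u - 1) * C₁ * (N + 1) ^ (u - 1) *
          (Real.exp (u * κ * (N - m : ℕ)) ^ (u - 1) * Real.exp (u * κ * (N - m : ℕ))) := by
          rw [mul_pow _ (Real.exp (u * κ * (N - m : ℕ))), mul_pow _ ((N : ℝ) + 1)]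
          ring
      _ = _ := by rw [h4]
  obtain ⟨G, hGW, hG, hGmax⟩ := exists_max_family W (fun p p' => p' ∈ Wl f.symm σ p)
    (fun p _ => mem_Wl_self hσ0.le) (fun p p' h => Wl_comm h)
    ⌊V' * (N + 1) ^ (u - 1) * Real.exp (u ^ 2 * κ * (N - m : ℕ))⌋₊
    (fun G h1 h2 => Nat.le_floor (hcard G h1 h2))
  have hGc := hcard G hGW hG
  -- the segment
  have hhalf : ∀ s ∈ closedBall (0 : EuclideanSpace ℝ (Fin u)) (ρ₁ / 2),
      ρ₁⁻¹ • s ∈ closedBall (0 : EuclideanSpace ℝ (Fin u)) (1 / 2) := by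
    intro s hs
    rw [mem_closedBall_zero_iff] at hs ⊢
    rw [norm_smul, norm_inv, Real.norm_of_nonneg hρ₁.le, inv_mul_le_iff₀ hρ₁]
    linarith
  have hhalf1 : closedBall (0 : EuclideanSpace ℝ (Fin u)) (1 / 2) ⊆ closedBall 0 1 :=
    closedBall_subset_closedBall (by norm_num)
  have huniq : ∀ s ∈ closedBall (0 : EuclideanSpace ℝ (Fin u)) (ρ₁ / 2), ∀ z,
      Lad f e q i (f.symm^[m] (φ w s)) z → z = X (ρ₁⁻¹ • s) := by
    intro s hs z hz
    have h1 := hlad (ρ₁⁻¹ • s) (hhalf1 (hhalf s hs))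
    rw [smul_inv_smul₀ hρ₁.ne'] at h1
    exact TrM.unique S q i _ _ _ (hz.mono (by linarith)) (h1.mono (by linarith))
  rw [huniq s hs z hz, huniq t ht z' hz']
  set s' : EuclideanSpace ℝ (Fin u) := ρ₁⁻¹ • s with hs'
  set t' : EuclideanSpace ℝ (Fin u) := ρ₁⁻¹ • t with ht'
  have hγ : ∀ τ ∈ Icc (0 : ℝ) 1, AffineMap.lineMap s' t' τ ∈
      closedBall (0 : EuclideanSpace ℝ (Fin u)) (1 / 2) := by
    intro τ hτ
    exact (convex_closedBall _ _).lineMap_mem (hhalf s hs) (hhalf t ht) hτ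
  set m' : ℕ := m - l₀ with hm'
  set E' : ℝ := C * Real.exp (-(a * m')) * (2 * σ) with hE'
  have hE'0 : 0 ≤ E' := by positivity
  have hcover := hCov (fun t x y => y ∈ Wl f.symm t x) E' G.card
    (fun τ => X (AffineMap.lineMap s' t' τ))
    (fun j => ⋂ k : ℕ, Icc (0 : ℝ) 1 ∩ (fun τ => dist (f.symm^[k] (Y (AffineMap.lineMap s' t' τ)))
      (f.symm^[k] (G.equivFin.symm j : M))) ⁻¹' Iic σ) hE'0
    (fun s t x y z h1 h2 => Wl_trans h1 h2) (fun s t x y hst h => Wl_mono hst h)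
    (fun x => mem_Wl_self le_rfl) ?_ ?_ ?_
  · simp only [AffineMap.lineMap_apply_zero, AffineMap.lineMap_apply_one] at hcover
    refine Wl_mono ?_ hcover
    have h1 : E' = E₀ * Real.exp (-(a * m)) := by
      have h2 : Real.exp (-(a * m')) = Real.exp (a * l₀) * Real.exp (-(a * m)) := by
        rw [← Real.exp_add, hm', Nat.cast_sub hml]
        ring_nf
      rw [hE', h2, hE₀, hσ]
      ring
    calc (G.card : ℝ) * E' ≤ (V' * (N + 1) ^ (u - 1) * Real.exp (u ^ 2 * κ * (N - m : ℕ))) * E' := by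
          gcongr
      _ = V' * E₀ * (N + 1) ^ (u - 1) *
          (Real.exp (u ^ 2 * κ * (N - m : ℕ)) * Real.exp (-(a * m))) := by
          rw [h1]
          ring
      _ = V' * E₀ * (N + 1) ^ (u - 1) * Real.exp (u ^ 2 * κ * (N - m : ℕ) - a * m) := by
          rw [← Real.exp_add]
          ring_nf
      _ ≤ _ := by
          have h2 : V' * E₀ ≤ Cf := by
            have : 0 ≤ 2 * e * Real.exp (a * l₀) + 4 * C ^ 3 * η := by positivity
            linarith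
          gcongr
  · -- closed
    intro j
    refine isClosed_iInter fun k => ?_
    refine ContinuousOn.preimage_isClosed_of_isClosed ?_ isClosed_Icc isClosed_Iic
    have h1 : ContinuousOn (fun τ => Y (AffineMap.lineMap s' t' τ)) (Icc (0 : ℝ) 1) :=
      H.cont.comp AffineMap.lineMap_continuous.continuousOn fun τ hτ => hhalf1 (hγ τ hτ)
    have h2 : ContinuousOn (fun τ => f.symm^[k] (Y (AffineMap.lineMap s' t' τ))) (Icc (0 : ℝ) 1) :=
      (f.symm.continuous.iterate k).comp_continuousOn h1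
    exact continuous_dist.comp_continuousOn (h2.prodMk continuousOn_const)
  · -- cover
    intro τ hτ
    obtain ⟨p, hp, hp'⟩ := hGmax (Y (AffineMap.lineMap s' t' τ)) ⟨_, hγ τ hτ, rfl⟩
    refine mem_iUnion.2 ⟨G.equivFin ⟨p, hp⟩, mem_iInter.2 fun k => ⟨hτ, ?_⟩⟩
    rw [Equiv.symm_apply_apply]
    exact hp' k
  · -- pieces
    intro j τ hτ τ' hτ' _ _
    have h1 : Y (AffineMap.lineMap s' t' τ) ∈ Wl f.symm σ (G.equivFin.symm j : M) :=
      fun k => (mem_iInter.1 hτ k).2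
    have h2 : Y (AffineMap.lineMap s' t' τ') ∈ Wl f.symm σ (G.equivFin.symm j : M) :=
      fun k => (mem_iInter.1 hτ' k).2
    have h3 : Y (AffineMap.lineMap s' t' τ') ∈ Wl f.symm (2 * σ) (Y (AffineMap.lineMap s' t' τ)) := by
      have := Wl_trans (Wl_comm h1) h2
      rwa [← two_mul] at this
    have h4 := wl_back S hσr h3 m'
    rw [hYX, hYX, TrM.sii, TrM.sii] at h4
    exact h4

/-- EYGEN. -/
theorem specEyGen : SpecEyGen.{v} := specEyGen_of (specEyA specLoc specCutM) specEyB specCover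

/-- CELLSON in the form of EYGEN. -/
theorem cellsP_of_qcOn {M : Type v} [MetricSpace M] {f : M ≃ₜ M} {u : ℕ}
    {φ : M → EuclideanSpace ℝ (Fin u) → M} {C a b κ₀ r r₁ e ρ κ C₂ : ℝ} {A : Set M}
    (S : Sys f u φ C a b κ₀ r r₁ e ρ) (hA : Attr f A r) (hC₂ : 0 ≤ C₂) (hκ : 0 ≤ κ)
    (hQ : QcOn f A r C₂ κ) : CellsP f A r e κ :=
  fun η₁ η₂ h1 h2 h3 => specCellsOn f u φ C a b κ₀ r r₁ e ρ κ C₂ A S hA hC₂ hκ hQ η₁ η₂ h1 h2 h3

/-- T6.CELLS in the form of EYGEN. -/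
theorem cellsP_univ {M : Type v} [MetricSpace M] {f : M ≃ₜ M} {u : ℕ}
    {φ : M → EuclideanSpace ℝ (Fin u) → M} {C a b κ r r₁ e ρ : ℝ}
    (S : Sys f u φ C a b κ r r₁ e ρ) : CellsP f univ r e κ := by
  intro η₁ η₂ h1 h2 h3
  obtain ⟨C₁, hC₁, h⟩ := T6.CellsM.specCells f u φ C a b κ r r₁ e ρ S η₁ η₂ h1 h2 h3
  exact ⟨C₁, hC₁, fun N g _ => h N g⟩

/-- Module EYON. -/
theorem specEyOn : SpecEyOn.{v} := by
  intro M _ _ f u φ C a b κ₀ r r₁ e ρ η ρ₁ κ C₂ A S hA hc hηe5 hηρ5 hC₂ hκ hQ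
  obtain ⟨l₀, hinr⟩ := specInrOn f u φ C a b κ₀ r r₁ e ρ η ρ₁ A S hA hc
  obtain ⟨C₁, hC₁, h⟩ := specEyGen f u φ C a b κ₀ r r₁ e ρ η ρ₁ κ A l₀ S hc hηe5 hηρ5 hκ
    (cellsP_of_qcOn S hA hC₂ hκ hQ)
  have hC := S.C1
  have he := S.e_pos
  have her := S.e_le_r
  have hη := hc.η_pos
  have hηe := hc.η_le
  refine ⟨C₁, hC₁, fun q i m N w hw hq hi hdom => ?_⟩
  refine h q i m N w (fun s hs => ?_) (fun v hv j => ?_) (fun h1 h2 x hx => ?_) hi hdom
  · exact hA.sat w hw _ (Wl_mono (by nlinarith) (hc.disc S w hs))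
  · exact (BasM.iter_mem hA.inv j v).2 (hA.sat _ (hq i le_rfl) v (Wl_mono (by linarith) hv))
  · refine hinr q i m N w hw h1 h2 (hi.trans ?_) x hx
    rw [div_le_iff₀ (by positivity)]
    nlinarith

end Pool.Agent.Lib.MP610fe3.AC
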