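import Pool.Agent.Lib.MP_610fe3_an.AC.EyonDefs
import Pool.Agent.Lib.MP_610fe3_an.T6.Ey

/-!
# Module EYON, first half: the number of pieces of the image
-/

open Set Filter Function Metric
open scoped Topology

namespace Pool.Agent.Lib.MP610fe3.AC

open Cf H6 T4 T6

universe v

namespace EyAM

variable {M : Type v} [MetricSpace M] {f : M ≃ₜ M} {u : ℕ}
  {φ : M → EuclideanSpace ℝ (Fin u) → M} {C a b κ₀ r r₁ e ρ η κ : ℝ} {P : Set M}

open scoped Classical in
/-- a sum over a subtype -/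
theorem sum_sub {n : ℕ} (near : Fin n → Prop) (g : Fin n → ℝ) :
    ∑ i : {i // near i}, g i = ∑ i, if near i then g i else 0 := by
  rw [← Finset.sum_filter]
  exact (Finset.sum_subtype _ (by simp) g).symm

/-- segments in a ball -/
theorem seg_sub {E : Type*} [NormedAddCommGroup E] [NormedSpace ℝ E] {δ : ℝ} (hδ : 0 ≤ δ) {z e₂ : E}
    (hz : z ∈ closedBall (0 : E) δ) (he : e₂ ∈ closedBall (0 : E) δ) :
    segment ℝ 0 z ∪ segment ℝ z e₂ ⊆ closedBall (0 : E) δ :=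
  union_subset ((convex_closedBall _ _).segment_subset (mem_closedBall_self hδ) hz)
    ((convex_closedBall _ _).segment_subset hz he)

/-- two segments are connected -/
theorem seg_conn {E : Type*} [NormedAddCommGroup E] [NormedSpace ℝ E] (z e₂ : E) :
    IsPreconnected (segment ℝ 0 z ∪ segment ℝ z e₂) :=
  IsPreconnected.union z (right_mem_segment ℝ 0 z) (left_mem_segment ℝ z e₂)
    (convex_segment _ _).isPreconnected (convex_segment _ _).isPreconnected

open scoped Classical in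
/-- CUTM for a path of two segments in the chart at `p`. -/
theorem cut (hCut : SpecCutM.{v}) (S : Sys f u φ C a b κ₀ r r₁ e ρ)
    (hηe : 1000 * C ^ 5 * η ≤ e) (hηρ : 1000 * C ^ 5 * η ≤ ρ) (hη : 0 < η) {n n' : ℕ}
    {Y : EuclideanSpace ℝ (Fin u) → M} {Cl : Fin n → Set (EuclideanSpace ℝ (Fin u))}
    {c : Fin n → EuclideanSpace ℝ (Fin u)} {D : Fin n → ℝ} (H : Img f P C r e η n' Y Cl c D)
    {s₀ e₂ : EuclideanSpace ℝ (Fin u)} (hs₀ : s₀ ∈ closedBall (0 : EuclideanSpace ℝ (Fin u)) (1 / 2))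
    (he₂ : e₂ ∈ closedBall (0 : EuclideanSpace ℝ (Fin u)) (8 * C ^ 2 * η))
    (hout : ∀ s ∈ closedBall (0 : EuclideanSpace ℝ (Fin u)) 1, Y s ≠ φ (Y s₀) e₂) :
    ∀ z ∈ closedBall (0 : EuclideanSpace ℝ (Fin u)) (8 * C ^ 2 * η),
      1 / 2 ≤ ∑ i, if (∃ s ∈ Cl i, s ∈ closedBall 0 1 ∧
        Y s ∈ φ (Y s₀) '' (segment ℝ 0 z ∪ segment ℝ z e₂)) then D i else 0 := by
  intro z hz
  have hC := S.C1
  have hC0 : 0 < C := by linarith
  have he := S.e_pos
  have her := S.e_le_r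
  have hδ : 0 < 8 * C ^ 2 * η := by positivity
  have hC25 : C ^ 2 ≤ C ^ 5 := pow_le_pow_right₀ hC (by norm_num)
  have hC45 : C ^ 4 ≤ C ^ 5 := pow_le_pow_right₀ hC (by norm_num)
  have hδρ : 8 * C ^ 2 * η ≤ ρ := by nlinarith
  have hC4e : 16 * C ^ 4 * η ≤ e := by nlinarith [pow_pos hC0 5]
  have hsub := seg_sub hδ.le hz he₂
  have hwl : ∀ x ∈ segment ℝ 0 z ∪ segment ℝ z e₂, φ (Y s₀) x ∈ Wl f.symm (8 * C ^ 4 * η) (Y s₀) := by
    intro x hx
    have h1 := hsub hx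
    rw [mem_closedBall_zero_iff] at h1
    refine S.mem_small (Y s₀) (mem_closedBall_zero_iff.2 (h1.trans hδρ)) ?_
    calc C ^ 2 * ‖x‖ ≤ C ^ 2 * (8 * C ^ 2 * η) := by gcongr
      _ = 8 * C ^ 4 * η := by ring
  refine hCut u n Cl D Y (φ (Y s₀) '' (segment ℝ 0 z ∪ segment ℝ z e₂)) H.cont ?_ H.cov H.dia ?_
    ⟨s₀, hs₀, 0, Or.inl (left_mem_segment ℝ 0 z), S.zero _⟩
    ⟨φ (Y s₀) e₂, ⟨e₂, Or.inr (right_mem_segment ℝ z e₂), rfl⟩, hout⟩
  · intro t ht s hs hsP
    obtain ⟨ε, hε, h1⟩ := H.opn t ht s hs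
    refine ⟨ε, hε, fun x hx hd => h1 x ?_ hd⟩
    obtain ⟨ξ, hξ, rfl⟩ := hx
    obtain ⟨ξ₀, hξ₀, h2⟩ := hsP
    rw [← h2]
    refine Wl_mono ?_ (Wl_trans (Wl_comm (hwl ξ₀ hξ₀)) (hwl ξ hξ))
    linarith
  · refine (seg_conn z e₂).image _ ?_
    have h1 : LipschitzOnWith (Real.toNNReal C) (φ (Y s₀)) (closedBall 0 ρ) := by
      refine LipschitzOnWith.of_dist_le_mul fun x hx y hy => ?_
      rw [Real.coe_toNNReal C hC0.le]
      exact S.upper (Y s₀) x hx y hy
    exact h1.continuousOn.mono (hsub.trans (closedBall_subset_closedBall hδρ))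

open scoped Classical in
/-- The local estimate near a point `p = Y s₀`. -/
theorem near (hLoc : SpecLoc) (hCut : SpecCutM.{v}) (S : Sys f u φ C a b κ₀ r r₁ e ρ)
    (hη : 0 < η) (hηe : 1000 * C ^ 5 * η ≤ e) (hηρ : 1000 * C ^ 5 * η ≤ ρ)
    (hκ : 0 ≤ κ) (hQ : CellsP f P r e κ) : ∃ V : ℝ, 0 < V ∧
    ∀ {n : ℕ} (n' : ℕ) (Y : EuclideanSpace ℝ (Fin u) → M)
      (Cl : Fin n → Set (EuclideanSpace ℝ (Fin u))) (c : Fin n → EuclideanSpace ℝ (Fin u))
      (D : Fin n → ℝ), Img f P C r e η n' Y Cl c D →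
      ∀ s₀ ∈ closedBall (0 : EuclideanSpace ℝ (Fin u)) (1 / 2),
        1 ≤ V * ((n' + 1) * Real.exp (u * κ * n')) ^ (u - 1) *
          ∑ i, if Y (c i) ∈ Wl f.symm (16 * C ^ 4 * η) (Y s₀) then D i ^ u else 0 := by
  have hC := S.C1
  have hC0 : 0 < C := by linarith
  have he := S.e_pos
  have her := S.e_le_r
  have hρ := S.ρ_pos
  have hC15 : C ^ 1 ≤ C ^ 5 := pow_le_pow_right₀ hC (by norm_num)
  have hC25 : C ^ 2 ≤ C ^ 5 := pow_le_pow_right₀ hC (by norm_num)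
  have hC45 : C ^ 4 ≤ C ^ 5 := pow_le_pow_right₀ hC (by norm_num)
  have hC5 : 1 ≤ C ^ 5 := one_le_pow₀ hC
  rw [pow_one] at hC15
  have hC4e : 24 * C ^ 4 * η ≤ e := by nlinarith [pow_pos hC0 5]
  have hC2e : 8 * C ^ 2 * η ≤ e := by nlinarith [pow_pos hC0 5]
  have hC1e : 4 * C * η ≤ e := by nlinarith [pow_pos hC0 5]
  have hηe1 : η ≤ e := by nlinarith
  have hC2ρ : 16 * C ^ 2 * η ≤ ρ := by nlinarith [pow_pos hC0 5]
  obtain ⟨CL, hCL, hL⟩ := hLoc u S.u_pos
  obtain ⟨c₂, hc₂, hcell⟩ := hQ (4 * C * η) (η / (4 * C ^ 2)) (by positivity) (by linarith)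
    (by positivity)
  set A₂ : ℝ := max 1 (C ^ 2 * c₂) with hA₂
  have hA₂1 : 1 ≤ A₂ := le_max_left _ _
  obtain ⟨l, hl⟩ := EyM.exists_ell (X := 8 * C ^ 2 * (4 * C ^ 3)) hC
  refine ⟨CL * (((l : ℝ) + 1) * A₂ ^ u) ^ (u - 1), by positivity, ?_⟩
  intro n n' Y Cl c D H s₀ hs₀
  have hs₀1 : s₀ ∈ closedBall (0 : EuclideanSpace ℝ (Fin u)) 1 :=
    closedBall_subset_closedBall (by norm_num) hs₀
  set δ : ℝ := 8 * C ^ 2 * η with hδ
  have hδ0 : 0 < δ := by positivity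
  set p : M := Y s₀ with hp
  have hpA : p ∈ P := H.memP s₀ hs₀1
  set L : ℕ := l * (n' + 1) with hLdef
  have h2L : (0 : ℝ) < 2 ^ L := by positivity
  set K : ℝ := A₂ * Real.exp (κ * n') with hK
  have hK1 : 1 ≤ K := by
    have : 1 ≤ Real.exp (κ * n') := Real.one_le_exp (by positivity)
    exact one_le_mul_of_one_le_of_one_le hA₂1 this
  -- the coordinates of the centres
  have hco : ∀ i : Fin n, ∃ x : EuclideanSpace ℝ (Fin u), Y (c i) ∈ Wl f.symm (4 * e) p →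
      x ∈ closedBall 0 (ρ / 2) ∧ ‖x‖ ≤ C * dist (Y (c i)) p ∧ φ p x = Y (c i) := by
    intro i
    by_cases h : Y (c i) ∈ Wl f.symm (4 * e) p
    · obtain ⟨x, h1, h2, h3⟩ := S.onto_small h
      exact ⟨x, fun _ => ⟨h1, h2, h3⟩⟩
    · exact ⟨0, fun h' => absurd h' h⟩
  choose c' hc' using hco
  -- the point outside
  obtain ⟨z₀, hz₀, hz₀'⟩ := H.inr p hpA
  obtain ⟨e₂, he₂, he₂', he₂''⟩ := S.onto_small (Wl_mono (by linarith : η ≤ 4 * e) hz₀)
  have he₂δ : e₂ ∈ closedBall (0 : EuclideanSpace ℝ (Fin u)) δ := by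
    rw [mem_closedBall_zero_iff]
    refine he₂'.trans ?_
    have h1 := Wl_dist hz₀
    calc C * dist z₀ p ≤ C * η := by gcongr
      _ ≤ 8 * C ^ 2 * η := by nlinarith
  have hcut := cut hCut S hηe hηρ hη H hs₀ he₂δ (fun s hs => by rw [← hp, he₂'']; exact hz₀' s hs)
  -- near cells
  set near : Fin n → Prop := fun i => Y (c i) ∈ Wl f.symm (12 * C ^ 4 * η) p with hnear
  have hnc : ∀ i, near i → c' i ∈ closedBall (0 : EuclideanSpace ℝ (Fin u)) ρ ∧
      φ p (c' i) = Y (c i) := by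
    intro i hi
    have h1 := hc' i (Wl_mono (by linarith) hi)
    exact ⟨closedBall_subset_closedBall (by linarith) h1.1, h1.2.2⟩
  set D' : Fin n → ℝ := fun i => max (C * diam (Y '' Cl i)) (δ / 2 ^ L) with hD'
  have hbdd : ∀ i, Bornology.IsBounded (Y '' Cl i) := by
    intro i
    refine (isBounded_closedBall (x := Y (c i)) (r := 4 * C * η)).subset ?_
    rintro _ ⟨x, hx, rfl⟩
    exact H.bow i x hx (c i) (H.cen i) 0 (Nat.zero_le _)
  have hkey := hL (ι := {i // near i}) (fun i => c' i) (fun i => D i) (fun i => D' i) e₂ K δ L hK1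
    hδ0 (fun i => H.nn i) ?_ ?_ he₂δ ?_
  rotate_left
  · -- sizes
    rintro ⟨i, hi⟩
    refine ⟨lt_of_lt_of_le (by positivity) (le_max_right _ _), max_le ?_ ?_, ?_⟩
    · have h1 : diam (Y '' Cl i) ≤ 4 * C * η := by
        refine diam_le_of_forall_dist_le (by positivity) ?_
        rintro _ ⟨x, hx, rfl⟩ _ ⟨y, hy, rfl⟩
        exact H.bow i x hx y hy 0 (Nat.zero_le _)
      calc C * diam (Y '' Cl i) ≤ C * (4 * C * η) := by gcongr
        _ ≤ 8 * C ^ 2 * η := by nlinarith [mul_pos (mul_pos hC0 hC0) hη]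
    · exact div_le_self hδ0.le (one_le_pow₀ one_le_two)
    · calc δ = 2 ^ L * (δ / 2 ^ L) := by field_simp
        _ ≤ _ := by
          gcongr
          exact le_max_right _ _
  · -- packing
    rintro ⟨i, hi⟩ ⟨j, hj⟩ hij
    have hij' : i ≠ j := fun h => hij (Subtype.ext h)
    obtain ⟨hci, hci'⟩ := hnc i hi
    obtain ⟨hcj, hcj'⟩ := hnc j hj
    have hYd : dist (Y (c i)) (Y (c j)) ≤ C * dist (c' i) (c' j) := by
      rw [← hci', ← hcj']
      exact S.upper p _ hci _ hcj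
    have hYW : Y (c j) ∈ Wl f.symm e (Y (c i)) := by
      refine Wl_mono ?_ (Wl_trans (Wl_comm hi) hj)
      linarith
    have hsep := H.sep i j hij' (Wl_mono (by linarith) hYW)
    show D' i ≤ K * dist (c' i) (c' j)
    refine max_le ?_ ?_
    · have h1 : diam (Y '' Cl i) ≤ c₂ * Real.exp (κ * n') * (C * dist (c' i) (c' j)) := by
        refine diam_le_of_forall_dist_le (by positivity) ?_
        rintro _ ⟨x, hx, rfl⟩ _ ⟨y, hy, rfl⟩
        have h2 := hcell n' (Y (c i)) (H.memP _ (H.sub i (H.cen i))) (Y (c j)) (Y x) (Y y)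
          (Wl_mono (by linarith) (H.img i x hx _ (H.cen i)))
          (Wl_mono (by linarith) (H.img i y hy _ (H.cen i))) (Wl_mono (by linarith) hYW)
          (H.bow i x hx _ (H.cen i)) (H.bow i y hy _ (H.cen i)) hsep
        refine h2.trans ?_
        gcongr
      calc C * diam (Y '' Cl i) ≤ C * (c₂ * Real.exp (κ * n') * (C * dist (c' i) (c' j))) := by
            gcongr
        _ = C ^ 2 * c₂ * Real.exp (κ * n') * dist (c' i) (c' j) := by ring
        _ ≤ K * dist (c' i) (c' j) := by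
            have h5 : C ^ 2 * c₂ ≤ A₂ := le_max_right _ _
            rw [hK]
            gcongr
    · obtain ⟨k, hk, hk'⟩ := hsep
      have h1 := S.lip_iter (Y (c i)) (Y (c j)) k
      have h2 : C ^ k ≤ C ^ n' := pow_le_pow_right₀ hC hk
      have h3 : η / (4 * C ^ 2) ≤ C ^ n' * (C * dist (c' i) (c' j)) := by
        calc η / (4 * C ^ 2) ≤ dist (f^[k] (Y (c i))) (f^[k] (Y (c j))) := hk'.le
          _ ≤ C ^ k * dist (Y (c i)) (Y (c j)) := h1
          _ ≤ C ^ n' * (C * dist (c' i) (c' j)) := by gcongr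
      rw [div_le_iff₀ (by positivity)] at h3
      have h4 := hl n'
      have h5 : δ ≤ 2 ^ L * dist (c' i) (c' j) := by
        calc δ = 8 * C ^ 2 * η := rfl
          _ ≤ 8 * C ^ 2 * (C ^ n' * (C * dist (c' i) (c' j)) * (4 * C ^ 2)) := by gcongr
          _ = 8 * C ^ 2 * (4 * C ^ 3) * C ^ n' * dist (c' i) (c' j) := by ring
          _ ≤ 2 ^ L * dist (c' i) (c' j) := by gcongr
      rw [div_le_iff₀ h2L]
      calc δ ≤ 2 ^ L * dist (c' i) (c' j) := h5
        _ = 1 * dist (c' i) (c' j) * 2 ^ L := by ring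
        _ ≤ K * dist (c' i) (c' j) * 2 ^ L := by gcongr
  · -- the paths
    intro z hz
    refine (hcut z hz).trans ?_
    rw [sum_sub near (fun i => if (∃ x ∈ segment ℝ 0 z ∪ segment ℝ z e₂,
      dist x (c' i) ≤ D' i) then D i else 0)]
    refine Finset.sum_le_sum fun i _ => ?_
    have hnn := H.nn i
    by_cases hi : ∃ s ∈ Cl i, s ∈ closedBall (0 : EuclideanSpace ℝ (Fin u)) 1 ∧
        Y s ∈ φ (Y s₀) '' (segment ℝ 0 z ∪ segment ℝ z e₂)
    · rw [if_pos hi]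
      obtain ⟨s, hs, hs1, ξ, hξ, hξY⟩ := hi
      have hξδ := seg_sub hδ0.le hz he₂δ hξ
      rw [mem_closedBall_zero_iff] at hξδ
      have hξρ : ξ ∈ closedBall (0 : EuclideanSpace ℝ (Fin u)) ρ :=
        mem_closedBall_zero_iff.2 (hξδ.trans (by linarith))
      have h1 : Y s ∈ Wl f.symm (8 * C ^ 4 * η) p := by
        rw [← hξY]
        refine S.mem_small p hξρ ?_
        calc C ^ 2 * ‖ξ‖ ≤ C ^ 2 * (8 * C ^ 2 * η) := by gcongr
          _ = 8 * C ^ 4 * η := by ring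
      have h2 : near i := by
        refine Wl_mono ?_ (Wl_trans h1 (H.img i _ (H.cen i) s hs))
        have : C ^ 2 ≤ C ^ 4 := pow_le_pow_right₀ hC (by norm_num)
        nlinarith
      rw [if_pos h2, if_pos]
      refine ⟨ξ, hξ, ?_⟩
      obtain ⟨h3, h4⟩ := hnc i h2
      refine le_trans ?_ (le_max_left _ _)
      calc dist ξ (c' i) ≤ C * dist (φ p ξ) (φ p (c' i)) := S.lower p _ hξρ _ h3
        _ = C * dist (Y s) (Y (c i)) := by rw [h4, ← hξY]
        _ ≤ C * diam (Y '' Cl i) := by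
            have := dist_le_diam_of_mem (hbdd i) (mem_image_of_mem Y hs)
              (mem_image_of_mem Y (H.cen i))
            gcongr
    · rw [if_neg hi]
      split_ifs <;> first | exact hnn | exact le_rfl
  -- conclusion
  rw [sum_sub near (fun i => if dist (c' i) 0 ≤ 2 * δ then D i ^ u else 0)] at hkey
  have hsum : (∑ i, if near i then (if dist (c' i) 0 ≤ 2 * δ then D i ^ u else 0) else 0) ≤
      ∑ i, if Y (c i) ∈ Wl f.symm (16 * C ^ 4 * η) p then D i ^ u else 0 := by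
    refine Finset.sum_le_sum fun i _ => ?_
    have hnn : 0 ≤ D i ^ u := pow_nonneg (H.nn i) u
    by_cases h1 : near i
    · rw [if_pos h1]
      by_cases h2 : dist (c' i) 0 ≤ 2 * δ
      · rw [if_pos h2, if_pos]
        obtain ⟨h3, h4⟩ := hnc i h1
        rw [← h4]
        refine S.mem_small p h3 ?_
        rw [dist_zero_right] at h2
        calc C ^ 2 * ‖c' i‖ ≤ C ^ 2 * (2 * (8 * C ^ 2 * η)) := by gcongr
          _ = 16 * C ^ 4 * η := by ring
      · rw [if_neg h2]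
        split_ifs <;> first | exact hnn | exact le_rfl
    · rw [if_neg h1]
      split_ifs <;> first | exact hnn | exact le_rfl
  have hs0 : 0 ≤ ∑ i, if near i then (if dist (c' i) 0 ≤ 2 * δ then D i ^ u else 0) else 0 := by
    refine Finset.sum_nonneg fun i _ => ?_
    have hnn : 0 ≤ D i ^ u := pow_nonneg (H.nn i) u
    split_ifs <;> first | exact hnn | exact le_rfl
  have h3 : ((L : ℕ) : ℝ) + 1 ≤ (l + 1) * (n' + 1) := by
    rw [hLdef]
    push_cast
    have : (0 : ℝ) ≤ n' := Nat.cast_nonneg n'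
    linarith
  have h4 : K ^ u = A₂ ^ u * Real.exp (u * κ * n') := by
    rw [hK, mul_pow, ← Real.exp_nat_mul]
    ring_nf
  have h5 : ((L : ℝ) + 1) * K ^ u ≤ ((l : ℝ) + 1) * A₂ ^ u * ((n' + 1) * Real.exp (u * κ * n')) := by
    rw [h4]
    calc ((L : ℝ) + 1) * (A₂ ^ u * Real.exp (u * κ * n'))
        ≤ ((l + 1) * (n' + 1)) * (A₂ ^ u * Real.exp (u * κ * n')) := by gcongr
      _ = _ := by ring
  calc (1 : ℝ) ≤ CL * ((L + 1) * K ^ u) ^ (u - 1) *
        ∑ i, (if near i then (if dist (c' i) 0 ≤ 2 * δ then D i ^ u else 0) else 0) := hkey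
    _ ≤ CL * (((l : ℝ) + 1) * A₂ ^ u * ((n' + 1) * Real.exp (u * κ * n'))) ^ (u - 1) *
        ∑ i, (if Y (c i) ∈ Wl f.symm (16 * C ^ 4 * η) p then D i ^ u else 0) := by
        gcongr
    _ = _ := by
        rw [mul_pow]
        ring

end EyAM

open scoped Classical in
/-- The number of pieces. -/
theorem specEyA (hLoc : SpecLoc) (hCut : SpecCutM.{v}) : SpecEyA.{v} := by
  intro M _ f u φ C a b κ₀ r r₁ e ρ η κ P S hη hηe hηρ hκ hQ
  obtain ⟨V, hV, h⟩ := EyAM.near hLoc hCut S hη hηe hηρ hκ hQ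
  refine ⟨V, hV, ?_⟩
  intro n n' Y Cl c D H G hG hG'
  set W : ℝ := V * ((n' + 1) * Real.exp (u * κ * n')) ^ (u - 1) with hW
  have hW0 : 0 ≤ W := by positivity
  calc (G.card : ℝ) = ∑ p ∈ G, (1 : ℝ) := by simp
    _ ≤ ∑ p ∈ G, W * ∑ i, (if Y (c i) ∈ Wl f.symm (16 * C ^ 4 * η) p then D i ^ u else 0) := by
        refine Finset.sum_le_sum fun p hp => ?_
        obtain ⟨s, hs, rfl⟩ := hG p hp
        exact h n' Y Cl c D H s hs
    _ = W * ∑ i, ∑ p ∈ G, (if Y (c i) ∈ Wl f.symm (16 * C ^ 4 * η) p then D i ^ u else 0) := by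
        rw [← Finset.mul_sum, Finset.sum_comm]
    _ ≤ W * ∑ i, D i ^ u := by
        refine mul_le_mul_of_nonneg_left (Finset.sum_le_sum fun i _ => ?_) hW0
        have hnn : 0 ≤ D i ^ u := pow_nonneg (H.nn i) u
        by_cases h1 : ∃ p ∈ G, Y (c i) ∈ Wl f.symm (16 * C ^ 4 * η) p
        · obtain ⟨p, hp, hpY⟩ := h1
          rw [Finset.sum_eq_single_of_mem p hp, if_pos hpY]
          intro p' hp' hne
          refine if_neg fun hcon => ?_
          refine hG' p hp p' hp' hne.symm ?_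
          refine Wl_mono ?_ (Wl_trans hpY (Wl_comm hcon))
          linarith
        · push Not at h1
          rw [Finset.sum_eq_zero fun p hp => if_neg (h1 p hp)]
          exact hnn

end Pool.Agent.Lib.MP610fe3.AC
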