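import Pool.Agent.Lib.MP_610fe3_an.AC.Spec

/-!
# Module EYON: the general form (EYGEN) and the interface between its two halves

EYGEN is EYON with a set `P` instead of the attractor: the points of the disc `φ w '' closedBall 0 ρ₁`
and all the points `f^j v`, `v ∈ Wl f.symm e (q i)`, are in `P`, Bowen balls centered in `P` are almost
round (`CellsP`), and the image of the disc at the time `m - l₀` contains no unstable set of size `η`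
of a point of `P`.

`Img` collects the properties of the image `Y s = f^(m - l₀) (ladder image of f^-m (φ w (ρ₁ s)))` of
a disc and of the cells in the source; `n' = N - m + l₀`, `n` is the number of cells. Scales:
`δ = 8 C² η`, near cells `Y (c i) ∈ Wl f.symm (2 C² δ) p`, pieces `Wl f.symm (4 C² δ) p`.
-/

open Set Filter Function Metric
open scoped Topology

namespace Pool.Agent.Lib.MP610fe3.AC

open Cf H6 T4 T6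

universe v

/-- Bowen balls centered in `P` are almost round (the conclusion of CELLSON). -/
def CellsP {M : Type v} [MetricSpace M] (f : M ≃ₜ M) (P : Set M) (r e κ : ℝ) : Prop :=
  ∀ η₁ η₂ : ℝ, 0 < η₁ → η₁ ≤ r → 0 < η₂ → ∃ C₁ : ℝ, 0 < C₁ ∧
    ∀ (N : ℕ), ∀ g ∈ P, ∀ (g' p p' : M), p ∈ Wl f.symm (2 * e) g → p' ∈ Wl f.symm (2 * e) g →
      g' ∈ Wl f.symm (2 * e) g → (∀ k ≤ N, dist (f^[k] p) (f^[k] g) ≤ η₁) →
      (∀ k ≤ N, dist (f^[k] p') (f^[k] g) ≤ η₁) → (∃ k ≤ N, η₂ < dist (f^[k] g) (f^[k] g')) →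
      dist p p' ≤ C₁ * Real.exp (κ * N) * dist g g'

/-- The image of a disc, and the cells of the source. -/
structure Img {M : Type v} [MetricSpace M] (f : M ≃ₜ M) (P : Set M) {u : ℕ} (C r e η : ℝ) {n : ℕ}
    (n' : ℕ) (Y : EuclideanSpace ℝ (Fin u) → M) (Cl : Fin n → Set (EuclideanSpace ℝ (Fin u)))
    (c : Fin n → EuclideanSpace ℝ (Fin u)) (D : Fin n → ℝ) : Prop where
  cont : ContinuousOn Y (closedBall 0 1)
  opn : ∀ t ∈ Ioo (1 / 2 : ℝ) 1, ∀ s ∈ ball (0 : EuclideanSpace ℝ (Fin u)) t, ∃ ε : ℝ, 0 < ε ∧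
    ∀ x ∈ Wl f.symm e (Y s), dist x (Y s) < ε →
      ∃ s' ∈ ball (0 : EuclideanSpace ℝ (Fin u)) t, Y s' = x
  memP : ∀ s ∈ closedBall (0 : EuclideanSpace ℝ (Fin u)) 1, Y s ∈ P
  inr : ∀ x ∈ P, ∃ z ∈ Wl f.symm η x, ∀ s ∈ closedBall (0 : EuclideanSpace ℝ (Fin u)) 1, Y s ≠ z
  cen : ∀ i, c i ∈ Cl i
  sub : ∀ i, Cl i ⊆ closedBall 0 1
  cov : closedBall 0 1 ⊆ ⋃ i, Cl i
  dia : ∀ i, ∀ s ∈ Cl i, ∀ t ∈ Cl i, dist s t ≤ D i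
  nn : ∀ i, 0 ≤ D i
  img : ∀ i, ∀ x ∈ Cl i, ∀ y ∈ Cl i, Y x ∈ Wl f.symm (4 * C ^ 2 * η) (Y y)
  bow : ∀ i, ∀ x ∈ Cl i, ∀ y ∈ Cl i, ∀ k ≤ n', dist (f^[k] (Y x)) (f^[k] (Y y)) ≤ 4 * C * η
  sep : ∀ i j, i ≠ j → Y (c j) ∈ Wl f.symm r (Y (c i)) →
    ∃ k ≤ n', η / (4 * C ^ 2) < dist (f^[k] (Y (c i))) (f^[k] (Y (c j)))

/-- First half (geometry in the image): the number of pieces, by LOC, CUTM. -/
def SpecEyA : Prop :=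
  ∀ {M : Type v} [MetricSpace M] (f : M ≃ₜ M) (u : ℕ)
    (φ : M → EuclideanSpace ℝ (Fin u) → M) (C a b κ₀ r r₁ e ρ η κ : ℝ) (P : Set M),
    Sys f u φ C a b κ₀ r r₁ e ρ → 0 < η → 1000 * C ^ 5 * η ≤ e →
    1000 * C ^ 5 * η ≤ ρ → 0 ≤ κ → CellsP f P r e κ → ∃ V : ℝ, 0 < V ∧
    ∀ {n : ℕ} (n' : ℕ) (Y : EuclideanSpace ℝ (Fin u) → M)
      (Cl : Fin n → Set (EuclideanSpace ℝ (Fin u))) (c : Fin n → EuclideanSpace ℝ (Fin u))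
      (D : Fin n → ℝ), Img f P C r e η n' Y Cl c D →
      ∀ G : Finset M, (∀ p ∈ G, ∃ s ∈ closedBall (0 : EuclideanSpace ℝ (Fin u)) (1 / 2), Y s = p) →
        (∀ p ∈ G, ∀ p' ∈ G, p ≠ p' → p' ∉ Wl f.symm (32 * C ^ 4 * η) p) →
        (G.card : ℝ) ≤ V * ((n' + 1) * Real.exp (u * κ * n')) ^ (u - 1) * ∑ i, D i ^ u

/-- Second half (dynamics): `Img` exists in the main case `l₀ ≤ m ≤ N`; `Y s` is the image at the
time `m - l₀` of the ladder. From HOL, TR, T6.SpecPackS. -/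
def SpecEyB : Prop :=
  ∀ {M : Type v} [MetricSpace M] [CompactSpace M] (f : M ≃ₜ M) (u : ℕ)
    (φ : M → EuclideanSpace ℝ (Fin u) → M) (C a b κ₀ r r₁ e ρ η ρ₁ κ : ℝ) (P : Set M),
    Sys f u φ C a b κ₀ r r₁ e ρ → Sc C e ρ η ρ₁ → 1000 * C ^ 5 * η ≤ e →
    1000 * C ^ 5 * η ≤ ρ → 0 ≤ κ → CellsP f P r e κ → ∃ C₁ : ℝ, 0 < C₁ ∧
    ∀ (l₀ : ℕ) (q : ℕ → M) (i m N : ℕ) (w : M), l₀ ≤ m → m ≤ N →
      (∀ s ∈ closedBall (0 : EuclideanSpace ℝ (Fin u)) ρ₁, φ w s ∈ P) →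
      (∀ v ∈ Wl f.symm e (q i), ∀ j : ℕ, f^[j] v ∈ P) →
      (∀ x ∈ P, ∃ z ∈ Wl f.symm η x, ∀ s ∈ closedBall (0 : EuclideanSpace ℝ (Fin u)) ρ₁,
        ¬ Lad f e q i (f.symm^[m] (φ w s)) (f.symm^[m - l₀] z)) →
      i * (C * Real.exp (-(b * N)) * (2 * e)) ≤ η / (4 * C) → Dom f φ e ρ₁ q i m w →
      ∃ (n : ℕ) (X Y : EuclideanSpace ℝ (Fin u) → M)
        (Cl : Fin n → Set (EuclideanSpace ℝ (Fin u))) (c : Fin n → EuclideanSpace ℝ (Fin u))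
        (D : Fin n → ℝ), Img f P C r e η (N - m + l₀) Y Cl c D ∧
        ∑ i, D i ^ u ≤ C₁ * Real.exp (u * κ * (N - m : ℕ)) ∧
        (∀ s, Y s = f^[m - l₀] (X s)) ∧
        ∀ s ∈ closedBall (0 : EuclideanSpace ℝ (Fin u)) 1,
          Lad f e q i (f.symm^[m] (φ w (ρ₁ • s))) (X s)

/-- EYGEN: the general form of EYON. -/
def SpecEyGen : Prop :=
  ∀ {M : Type v} [MetricSpace M] [CompactSpace M] (f : M ≃ₜ M) (u : ℕ)
    (φ : M → EuclideanSpace ℝ (Fin u) → M) (C a b κ₀ r r₁ e ρ η ρ₁ κ : ℝ) (P : Set M) (l₀ : ℕ),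
    Sys f u φ C a b κ₀ r r₁ e ρ → Sc C e ρ η ρ₁ → 1000 * C ^ 5 * η ≤ e →
    1000 * C ^ 5 * η ≤ ρ → 0 ≤ κ → CellsP f P r e κ → ∃ C₁ : ℝ, 0 < C₁ ∧
    ∀ (q : ℕ → M) (i m N : ℕ) (w : M),
      (∀ s ∈ closedBall (0 : EuclideanSpace ℝ (Fin u)) ρ₁, φ w s ∈ P) →
      (∀ v ∈ Wl f.symm e (q i), ∀ j : ℕ, f^[j] v ∈ P) →
      (l₀ ≤ m → m ≤ N → ∀ x ∈ P, ∃ z ∈ Wl f.symm η x,
        ∀ s ∈ closedBall (0 : EuclideanSpace ℝ (Fin u)) ρ₁,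
          ¬ Lad f e q i (f.symm^[m] (φ w s)) (f.symm^[m - l₀] z)) →
      i * (C * Real.exp (-(b * N)) * (2 * e)) ≤ η / (4 * C) → Dom f φ e ρ₁ q i m w →
      ∀ s ∈ closedBall (0 : EuclideanSpace ℝ (Fin u)) (ρ₁ / 2), ∀ t ∈ closedBall 0 (ρ₁ / 2),
      ∀ z z', Lad f e q i (f.symm^[m] (φ w s)) z → Lad f e q i (f.symm^[m] (φ w t)) z' →
        z' ∈ Wl f.symm (C₁ * (N + 1) ^ (u - 1) *
          Real.exp (u ^ 2 * κ * (N - m : ℕ) - a * m)) z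

end Pool.Agent.Lib.MP610fe3.AC
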