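import Pool.Agent.Lib.MP_610fe3_an.T6.Spec
import Pool.Agent.Lib.MP_610fe3_an.EQ.Ext
import Pool.Agent.Lib.MP_610fe3_an.TM.Edge

/-!
# Nearly conformal attractors: specification of the modules

THEOREM (AC). Let `f` be a `C^1` Anosov diffeomorphism of a closed connected manifold, with stable
rates in `[s, b]` and unstable rates in `[a, B]`, `U` a proper attracting region, `A` its attractor,
`κ` the exponential defect of conformality of `Df` on `Eu` OVER `A` ONLY, `u = dim Eu`. Then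
`a² s ≤ u² κ (b B - a s)`. In particular `κ > 0`.

PROOF. (Q) Quantitative wildness (modules CORQ, EXTQ): for every `M'` there is a chain of at most
`Λ exp ((b B / a) M')` stable steps inside `A` which takes a pair `(p, q)` that is close up to
time `M'` to a pair at distance `> ε`. (E) Inside `A` (which is saturated by unstable sets, so that
nothing is ever lost on the unstable side) the holonomy of a chain of `l` stable steps is controlled
by the extremal length argument of T6 (modules EYON, JOHN): pairs which are close up to time `M'`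
stay in unstable sets of size `C (N+1)^(u-1) exp (u² κ (N - M') - a M')`, where
`N = (log l) / s + C`. Compare (COMB).

Notation of T6: stable sets `Wl f _ _`, unstable sets `Wl f.symm _ _`; in `Sys` the number `a` is the
lower unstable rate, `b` is the LOWER STABLE RATE (called `s` above), `κ₀` a crude defect of
conformality on the whole space, which never enters the estimates.
-/

open Set Filter Function Metric MeasureTheory
open scoped Topology ENNReal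

namespace Pool.Agent.Lib.MP610fe3.AC

open Cf H6 T4 T6

universe v w

/-- Quasiconformality of the backward iterates on the unstable sets of the points of `A`. -/
def QcOn {M : Type v} [MetricSpace M] (f : M ≃ₜ M) (A : Set M) (r C κ : ℝ) : Prop :=
  ∀ (n : ℕ), ∀ z ∈ A, ∀ p ∈ Wl f.symm r z, ∀ q ∈ Wl f.symm r z, ∀ p' ∈ Wl f.symm r z,
    ∀ q' ∈ Wl f.symm r z, dist (f.symm^[n] p) (f.symm^[n] q) * dist p' q' ≤
      C * Real.exp (κ * n) * dist (f.symm^[n] p') (f.symm^[n] q') * dist p q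

/-! ### Part E, Euclidean and topological lemmas -/

open scoped Classical in
/-- Module LOC (from T6.SpecPath, T6.SpecPackT; compare the end of T6/Pl.lean). PATH with
`p = e₁ = 0` gives `z`, so `1/2 ≤ C_P ∑ D_i (x_i^(u-1) + y_i^(u-1))` over `|c_i| ≤ 2 δ`, with
`x_i = D'_i / max |c_i| D'_i`, `y_i = D'_i / max |c_i - e₂| D'_i`;
`D x^(u-1) ≤ t^(u-1) D^u + x^u / t` (cases `x ≤ t D`, `t D < x`); `∑ x_i^u, ∑ y_i^u ≤ W = C_T (L+1) K^u`
by PACKT; take `t = 8 C_P W`. -/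
def SpecLoc : Prop :=
  ∀ u : ℕ, 1 ≤ u → ∃ C : ℝ, 0 < C ∧ ∀ {ι : Type} [Fintype ι] (c : ι → EuclideanSpace ℝ (Fin u))
    (D D' : ι → ℝ) (e₂ : EuclideanSpace ℝ (Fin u)) (K δ : ℝ) (L : ℕ), 1 ≤ K → 0 < δ →
    (∀ i, 0 ≤ D i) → (∀ i, 0 < D' i ∧ D' i ≤ δ ∧ δ ≤ 2 ^ L * D' i) →
    (∀ i j, i ≠ j → D' i ≤ K * dist (c i) (c j)) → e₂ ∈ closedBall 0 δ →
    (∀ z ∈ closedBall (0 : EuclideanSpace ℝ (Fin u)) δ, 1 / 2 ≤ ∑ i,
      if (∃ x ∈ segment ℝ 0 z ∪ segment ℝ z e₂, dist x (c i) ≤ D' i) then D i else 0) →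
    1 ≤ C * ((L + 1) * K ^ u) ^ (u - 1) *
      ∑ i, if dist (c i) 0 ≤ 2 * δ then D i ^ u else 0

open scoped Classical in
/-- Module CUTM (as T6.SpecCut, T6/Cut.lean, for a map into a metric space and a set `P` in whose
points the images of the balls are relatively open). -/
def SpecCutM : Prop :=
  ∀ {M : Type v} [MetricSpace M] (u n : ℕ) (Cl : Fin n → Set (EuclideanSpace ℝ (Fin u)))
    (D : Fin n → ℝ) (h : EuclideanSpace ℝ (Fin u) → M) (P : Set M),
    ContinuousOn h (closedBall 0 1) →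
    (∀ t ∈ Ioo (1 / 2 : ℝ) 1, ∀ s ∈ ball (0 : EuclideanSpace ℝ (Fin u)) t, h s ∈ P →
      ∃ ε : ℝ, 0 < ε ∧ ∀ x ∈ P, dist x (h s) < ε → ∃ s' ∈ ball (0 : EuclideanSpace ℝ (Fin u)) t,
        h s' = x) → (closedBall 0 1 ⊆ ⋃ i, Cl i) →
    (∀ i, ∀ s ∈ Cl i, ∀ t ∈ Cl i, dist s t ≤ D i) → IsPreconnected P →
    (∃ s ∈ closedBall (0 : EuclideanSpace ℝ (Fin u)) (1 / 2), h s ∈ P) →
    (∃ x ∈ P, ∀ s ∈ closedBall (0 : EuclideanSpace ℝ (Fin u)) 1, h s ≠ x) →
    1 / 2 ≤ ∑ i, if (∃ s ∈ Cl i, s ∈ closedBall 0 1 ∧ h s ∈ P) then D i else 0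

/-- Module COVER: a path covered by `J` closed sets whose points are related to each other; the
relations add up (`R t x y` = the points `x`, `y` are in one unstable set of size `t`). -/
def SpecCover : Prop :=
  ∀ {M : Type v} (R : ℝ → M → M → Prop) (E : ℝ) (J : ℕ) (g : ℝ → M) (O : Fin J → Set ℝ), 0 ≤ E →
    (∀ s t x y z, R s x y → R t y z → R (s + t) x z) → (∀ s t x y, s ≤ t → R s x y → R t x y) →
    (∀ x, R 0 x x) → (∀ i, IsClosed (O i)) → (Icc (0 : ℝ) 1 ⊆ ⋃ i, O i) →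
    (∀ i, ∀ t ∈ O i, ∀ t' ∈ O i, t ∈ Icc (0 : ℝ) 1 → t' ∈ Icc (0 : ℝ) 1 → R E (g t) (g t')) →
    R (J * E) (g 0) (g 1)

/-! ### Part E, inside the attractor -/

/-- Module CELLSON (as T6.SpecCells, T6/Cells.lean, with `g ∈ A` and `QcOn`). -/
def SpecCellsOn : Prop :=
  ∀ {M : Type v} [MetricSpace M] (f : M ≃ₜ M) (u : ℕ) (φ : M → EuclideanSpace ℝ (Fin u) → M)
    (C a b κ₀ r r₁ e ρ κ C₂ : ℝ) (A : Set M), Sys f u φ C a b κ₀ r r₁ e ρ → Attr f A r → 0 ≤ C₂ →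
    0 ≤ κ → QcOn f A r C₂ κ → ∀ η₁ η₂ : ℝ, 0 < η₁ → η₁ ≤ r → 0 < η₂ → ∃ C₁ : ℝ, 0 < C₁ ∧
    ∀ (N : ℕ), ∀ g ∈ A, ∀ (g' p p' : M), p ∈ Wl f.symm (2 * e) g → p' ∈ Wl f.symm (2 * e) g →
      g' ∈ Wl f.symm (2 * e) g → (∀ k ≤ N, dist (f^[k] p) (f^[k] g) ≤ η₁) →
      (∀ k ≤ N, dist (f^[k] p') (f^[k] g) ≤ η₁) → (∃ k ≤ N, η₂ < dist (f^[k] g) (f^[k] g')) →
      dist p p' ≤ C₁ * Real.exp (κ * N) * dist g g'

/-- Module INRON: the image of a disc, seen at the time `m - l₀`, contains no unstable set of size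
`η`. Proof (compare T6/Inr.lean): let `S` be a maximal `(N - m, η)`-separated subset of
`φ w '' closedBall 0 ρ₁` (it is in `Wl f.symm η w`); COUNT (points of `A` are free) gives `S'` in
`Wl f.symm η x` with more points, separated by `4 C η` up to the time `N - m + l₀`. If
`Wl f.symm η x` is in the image, two points of `S'` come from points of the disc which are `2 η`-close
up to the time `N - m`; contradiction to TR. -/
def SpecInrOn : Prop :=
  ∀ {M : Type v} [MetricSpace M] [CompactSpace M] (f : M ≃ₜ M) (u : ℕ)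
    (φ : M → EuclideanSpace ℝ (Fin u) → M) (C a b κ₀ r r₁ e ρ η ρ₁ : ℝ) (A : Set M),
    Sys f u φ C a b κ₀ r r₁ e ρ → Attr f A r → Sc C e ρ η ρ₁ →
    ∃ l₀ : ℕ, ∀ (q : ℕ → M) (i m N : ℕ), ∀ w ∈ A, l₀ ≤ m → m ≤ N →
      i * (C * Real.exp (-(b * N)) * (2 * e)) ≤ η →
      ∀ x ∈ A, ∃ z ∈ Wl f.symm η x, ∀ s ∈ closedBall (0 : EuclideanSpace ℝ (Fin u)) ρ₁,
        ¬ Lad f e q i (f.symm^[m] (φ w s)) (f.symm^[m - l₀] z)

/-- Module EYON: the key estimate inside `A`. Proof. If `m > N`: TR with `m` instead of `N`. If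
`m < l₀` (`l₀` from INRON): trivial. Let `l₀ ≤ m ≤ N`.
Let `h : closedBall 0 1 → M`, `h s = f^(m-l₀) (ladder image of f^-m (φ w (ρ₁ s)))` (HOL gives the
ladder image in the coordinates of `q i`: continuous, and the images of the balls are open in the
unstable sets). Source cells = Bowen balls (time `N - m`, size `η`) of the points `φ w (ρ₁ c_i)` of a
maximal separated set, `D_i` their diameters in the coordinates of the source: `∑ D_i^u ≤ C K^u`,
`K = C exp (κ (N - m))`, by T6.SpecPackS and CELLSON. Put `δ = 8 C² η`. Let `p_1, ..., p_J` be a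
maximal family of points of `h (closedBall 0 (1/2))` no two of which are in a common unstable set of
size `10 C δ`. In the coordinates `φ p_j`: there is `e₂` in `closedBall 0 δ` such that `φ p_j e₂` is
not in the image (INRON), every path `P` from `0` to `e₂` inside `closedBall 0 δ` meets images of cells
with `∑ D_i ≥ 1/2` (CUTM for the image of `P` under `φ p_j`). The image cells: `c'_i` = coordinates of
`h c_i`, `D'_i` = max of the radius of the image of the cell and `δ / 2^L`, `L = C (N - m + 1)`; by TR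
the images are in Bowen balls of size `4 C η` up to the time `N - m + l₀`, and the `h c_i` are separated
by `η / (2 C)` at some time `≤ N - m + l₀`, so `D'_i ≤ K |c'_i - c'_j|` (CELLSON for the time
`N - m + l₀`). LOC, with the indices of the cells whose images are near `p_j`, gives
`1 ≤ C ((L+1) K^u)^(u-1) ∑ D_i^u` over `i` with `|c'_i| ≤ 2 δ`, and these index sets are disjoint for
different `j`: `J ≤ C (L+1)^(u-1) K^(u²)`. A segment in `closedBall 0 (1/2)` is mapped by `h` into the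
union of the `J` unstable sets of size `10 C δ` around the `p_j`; going back by `f^(m-l₀)` each has
size `C exp (-a m)`: COVER. -/
def SpecEyOn : Prop :=
  ∀ {M : Type v} [MetricSpace M] [CompactSpace M] (f : M ≃ₜ M) (u : ℕ)
    (φ : M → EuclideanSpace ℝ (Fin u) → M) (C a b κ₀ r r₁ e ρ η ρ₁ κ C₂ : ℝ) (A : Set M),
    Sys f u φ C a b κ₀ r r₁ e ρ → Attr f A r → Sc C e ρ η ρ₁ → 1000 * C ^ 5 * η ≤ e →
    1000 * C ^ 5 * η ≤ ρ → 0 ≤ C₂ → 0 ≤ κ → QcOn f A r C₂ κ → ∃ C₁ : ℝ, 0 < C₁ ∧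
    ∀ (q : ℕ → M) (i m N : ℕ), ∀ w ∈ A, (∀ k ≤ i, q k ∈ A) →
      i * (C * Real.exp (-(b * N)) * (2 * e)) ≤ η / (4 * C) → Dom f φ e ρ₁ q i m w →
      ∀ s ∈ closedBall (0 : EuclideanSpace ℝ (Fin u)) (ρ₁ / 2), ∀ t ∈ closedBall 0 (ρ₁ / 2),
      ∀ z z', Lad f e q i (f.symm^[m] (φ w s)) z → Lad f e q i (f.symm^[m] (φ w t)) z' →
        z' ∈ Wl f.symm (C₁ * (N + 1) ^ (u - 1) *
          Real.exp (u ^ 2 * κ * (N - m : ℕ) - a * m)) z

/-- Module JOHN: transport of a pair in `A` that is close up to the time `m`. Proof: let `Q` be the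
set of the `x` for which there are `x_0 = z 0, ..., x_j = x` with `f^(m+t) x_(t+1) = φ (f^(m+t) x_t) s`,
`|s| ≤ ρ₁`, for `t < j`. Claim: for `k ≤ l` every `x ∈ Q` is the start of a ladder over `z` up to the
stage `k`, and its stage `k` is in `Wl f.symm E (z k)`. Induction on `k`. `k = 0`: `bwd`. Step: the
bracket of the stage `k` of `x` with `z (k + 1)` (`Sys.step`, `Br`, `Dec`: it has scale `C² · dist`)
gives the ladder of stage `k + 1` on all of `Q`. Let `x_0, ..., x_j` be as above; for `t < j`,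
`0 ≤ τ ≤ 1` put `x' = f^-(m+t) (φ (f^(m+t) x_t) (τ s))`: the points
`f^-(m+t+1) (φ (f^(m+t+1) x') s')`, `|s'| ≤ ρ₁`, are in `Q`, so `Dom` holds and EYON applies with
`m + t + 1` and the disc at `f^(m+t+1) x'`; boundedly many (`2 C³ + 1`) inner halves of such discs join
`x_t` to `x_(t+1)`. So the stages `k + 1` of `x_t` and `x_(t+1)` are in a common unstable set of size
`(2 C³ + 1) E_(m+t+1)`; the sum over `t` is `≤ E`, as `(N - m' : ℕ)` decreases and
`∑ exp (-a (t + 1))` converges. The stage `k + 1` of `x_0 = z 0` is `z (k + 1)` (TR, uniqueness). -/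
def SpecJohn : Prop :=
  ∀ {M : Type v} [MetricSpace M] [CompactSpace M] (f : M ≃ₜ M) (u : ℕ)
    (φ : M → EuclideanSpace ℝ (Fin u) → M) (C a b κ₀ r r₁ e ρ η ρ₁ κ C₂ : ℝ) (A : Set M),
    Sys f u φ C a b κ₀ r r₁ e ρ → Attr f A r → Sc C e ρ η ρ₁ → 1000 * C ^ 5 * η ≤ e →
    1000 * C ^ 5 * η ≤ ρ → 0 ≤ C₂ → 0 ≤ κ → QcOn f A r C₂ κ → ∃ C₁ h₀ : ℝ, 0 < C₁ ∧ 0 < h₀ ∧
    ∀ (z y : ℕ → M) (l m N : ℕ) (E : ℝ),
      (∀ k ≤ l, z k ∈ A) → (∀ k < l, z (k + 1) ∈ Wl f h₀ (z k)) →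
      (∀ k < l, y (k + 1) ∈ Wl f e (y k)) → (∀ k ≤ l, y k ∈ Wl f.symm e (z k)) →
      (∃ s ∈ closedBall (0 : EuclideanSpace ℝ (Fin u)) ρ₁, f^[m] (y 0) = φ (f^[m] (z 0)) s) →
      l * (C * Real.exp (-(b * N)) * (2 * e)) ≤ η / (4 * C) →
      E = C₁ * (N + 1) ^ (u - 1) * Real.exp (u ^ 2 * κ * (N - m : ℕ) - a * m) →
      E ≤ e / (16 * C ^ 2) → y l ∈ Wl f.symm E (z l)

/-! ### Part Q, quantitative wildness (language of EQ) -/

section Q

open TM

/-- Module CORQ (as EQ.core, with a family `P i` of relations, `i ≤ S`; invariance raises the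
index; the number `N` of moves and the number `S` of stable steps are given). The links of the chain
to the repeller are relations `P 0`; `t 0 ∉ f U`, `t S` is in the attractor, and the stable steps
are measured at the time `-k₀`. Proof: in EQ.stab replace the hypothesis [`x` good,
`x' ∈ Sp f δ x`] by [`x` good for `P (i+1)`, `f^-k₀ x' ∈ Sp f η₀ (f^-k₀ x)`], and the conclusion by
[`x'` good for `P i`]; no other change.
`η₀` depends only on the system (`η₀ = min (δB / 4) ε₂` in EQ.stab). -/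
def SpecCorQ : Prop :=
  ∀ {X : Type v} [MetricSpace X] [CompactSpace X] {f : X ≃ₜ X} {U : Set X} {e C aA a as : ℝ},
    N3.Rates f U e C aA a as → N3.Trap f U → ∀ {ε₁ ε₂ : ℝ}, 0 < ε₂ → 0 ≤ ε₁ → ε₁ ≤ e →
    (∀ z ∈ U, ∀ z', dist z' z ≤ ε₂ → f z' ∈ U) →
    ∃ η₀ : ℝ, 0 < η₀ ∧ ∀ (P : ℕ → X → X → Prop) (S N k₀ : ℕ),
      (∀ i x y, P i x y → P (i + 1) x y) →
      (∀ i ≤ S, ∀ x y, f x ∈ U → P i x y → y ∈ Sp f.symm ε₁ x) →
      (∀ i < S, ∀ x x' y y', f x ∈ U → f x' ∈ U → x' ∈ Sp f ε₂ x → P i x y → y' ∈ Sp f ε₂ y →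
        y' ∈ Sp f.symm (ε₁ + 2 * ε₂) x' → P (i + 1) x' y') →
      (∀ x, ev f (-1) x ∉ U → ∃ k ≤ N, ∃ s : ℕ → X, s 0 = x ∧ s k ∈ N3.Rep f U ∧
        ∀ i < k, f (s i) ∈ U → P 0 (s i) (s (i + 1))) →
      ε₁ * C * N / (1 - Real.exp (-a)) * Real.exp (-a) ^ k₀ ≤ η₀ →
      ∀ t : ℕ → X, ev f (-1) (t 0) ∉ U → t S ∈ N3.Att f U →
        (∀ i < S, ev f (-(k₀ : ℤ)) (t (i + 1)) ∈ Sp f η₀ (ev f (-(k₀ : ℤ)) (t i))) → False

/-- Module EXTQ: quantitative wildness. Proof: as EQ.main_aux, by contradiction for one `M'`, with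
`P i x y = (y ∈ Sp f.symm (e₄/2) x ∧ ∃ p q, p ∈ Sp f s₀ x, q ∈ Sp f σ₁ y`, `(p, q)` obtained inside
the attractor by a chain of at most `i` steps from a pair `(p₀, q₀)` with
`f^M' q₀ ∈ Sp f.symm ρ (f^M' p₀))`. The small plaques: if `f^M' y ∈ Sp f.symm r' (f^M' x)` with `r'`
small then `P 0 x y` (take the bracket of `f^M' y` and `f^M' p`, `p ∈ Sp f s₀ x` in the attractor, and
apply `f^-M'`). `N` = (the bounded number of `e₁`-links to the repeller, `N3.exists_F2`) times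
`Λ exp (B M')` (`Reaches f univ e₁ B` with `r'`, at the time `M'`); `k₀` = the least number with
`ε₁ C N / (1 - exp (-a)) exp (-a k₀) ≤ η₀`, so `k₀ ≤ (B / a) M' + const`; `S` = (the bounded number of
stable `e₁`-links to the attractor) times `Λ exp (b k₀)` (`Reaches f.symm univ e₁ b` with `η₀`, at the
time `k₀`). -/
def SpecExtQ : Prop :=
  ∀ {X : Type v} [MetricSpace X] [CompactSpace X] {f : X ≃ₜ X} {e C a s b B e₁ : ℝ},
    (∀ U : Set X, N3.Rates f U e C a a s) → 0 < e₁ → 0 < b → 0 < B → N3.Reaches f univ e₁ B →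
    N3.Reaches f.symm univ e₁ b → ∀ e₂ : ℝ, 0 < e₂ → ∃ ε : ℝ, 0 < ε ∧ ∀ U : Set X, N3.Trap f U →
      (frontier U).Nonempty → ∀ η ρ : ℝ, 0 < η → 0 < ρ → ∃ Λ : ℝ, ∀ M' : ℕ,
        ∃ (m : ℕ) (p q : ℕ → X), (m : ℝ) ≤ Λ * Real.exp (b * B / a * M') ∧
          EQ.Hol f (N3.Att f U) η e₂ m p q ∧ ev f M' (q 0) ∈ Sp f.symm ρ (ev f M' (p 0)) ∧
          ε < dist (q m) (p m)

end Q

/-! ### The abstract theorem -/

/-- Module COMB (from JOHN and EXTQ): `A = Att f U` is a mixing attractor. In `Sys` the lower stable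
rate is `s`. Proof by contradiction: choose `η`, `ρ₁`, get `C₁`, `h₀` from JOHN, `ε` from EXTQ for
`e₂ = e`, then `Λ` from EXTQ for `min h₀ e` and `ρ' = min (ρ₁ / C) (4 e)`; the chain has
`l ≤ Λ exp ((b B / a) M')` steps, `N = ⌈(log (l + 1) + c) / s⌉₊`, so that
`(N - M' : ℕ) ≤ max 0 (b B / (a s) - 1) M' + c'`, and `E → 0` as `M' → ∞`. -/
def SpecComb : Prop :=
  ∀ {M : Type v} [MetricSpace M] [CompactSpace M] (f : M ≃ₜ M) (u : ℕ)
    (φ : M → EuclideanSpace ℝ (Fin u) → M) (C a s κ₀ r r₁ e ρ κ C₂ b B e₁ : ℝ) (U : Set M),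
    Sys f u φ C a s κ₀ r r₁ e ρ → N3.Trap f U → (frontier U).Nonempty →
    Attr f (N3.Att f U) r → 0 ≤ C₂ → 0 ≤ κ → QcOn f (N3.Att f U) r C₂ κ → 0 < e₁ → 0 < b → 0 < B →
    N3.Reaches f univ e₁ B → N3.Reaches f.symm univ e₁ b → a ^ 2 * s ≤ u ^ 2 * κ * (b * B - a * s)

/-! ### Splittings -/

/-- Module QCON (as T6.SpecQc, T6/Qc.lean, with the hypothesis only over the invariant set `A`). -/
def SpecQcOn : Prop :=
  ∀ {M : Type v} {W : Type w} [MetricSpace M] [CompactSpace M] [NormedAddCommGroup W]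
    [NormedSpace ℝ W] {E : Emb M W} {f : M ≃ₜ M} (s : Split E f), s.Hyperbolic → ∀ A : Set M,
    (∀ x, f x ∈ A ↔ x ∈ A) → ∀ C₀ k k' : ℝ, 1 ≤ k → k < k' →
    (∀ (n : ℕ), ∀ x ∈ A, ∀ v w : W, ‖iterD s.D f n x (s.U x v)‖ * ‖s.U x w‖ ≤
      C₀ * k ^ n * ‖iterD s.D f n x (s.U x w)‖ * ‖s.U x v‖) →
    ∃ r₀ C : ℝ, 0 < r₀ ∧ 1 ≤ C ∧ QcOn f A r₀ C (Real.log k')

/-- Module MIX: every proper trapping region of `f` contains the attractor of a trapping region
`U₁` of a power `f^n`, mixing for `f^n`. Proof: as in `TM.Hyp.exists_edge` (first half), with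
`exists_min` applied to `Om f ∩ Att f U` (nonempty: the forward asymptotic point of a point of
`Att f U`; chains from `a₀ ∈ Att f U` stay in `Att f U`), which gives `A = At f a₀ ⊆ Att f U`, closed,
`Half f m A`, saturated by unstable sets; `Attr` for every multiple of the period as in
`T4.MainA.exists_attr`; `T4.Bas` of the attractor gives `conv`, so that for `K` a small closed
neighbourhood of `A` a power of the map sends `K` into its interior `U₁`, and `Att = A`. -/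
def SpecMix : Prop :=
  ∀ {M : Type v} [MetricSpace M] [CompactSpace M] [ConnectedSpace M] {f : M ≃ₜ M} {c e C a s : ℝ},
    TM.Hyp f c → (∀ U : Set M, N3.Rates f U e C a a s) → ∀ U : Set M, N3.Trap f U → U.Nonempty →
    U ≠ univ → ∃ (n : ℕ) (A U₁ : Set M) (r₀ : ℝ), 0 < n ∧ A ⊆ N3.Att f U ∧ 0 < r₀ ∧
      ∀ g : M ≃ₜ M, ⇑g = (⇑f)^[n] → ⇑g.symm = (⇑f.symm)^[n] → N3.Trap g U₁ ∧
        (frontier U₁).Nonempty ∧ N3.Att g U₁ = A ∧ ∀ r, 0 < r → r ≤ r₀ → Attr g A r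

/-- Module SPLIT (from COMB, QCON): the inequality for splittings. Proof: as
`T6.MainB.basin_univ`, by contradiction: rates `a' < a`, `s' < s`, `κ' > κ` with
`u² κ' (b B - a' s') < a'² s'`; `Sys` with a crude `κ₀` (T6.SpecQc with `κ₀ = B - a + ...` from
`h3`, `h4`); `Reaches f univ e₁ B` and `Reaches f.symm univ e₁ b` from `exists_slow` and the paths
(H6N/Local.lean `reach_of_path`, `reachP_of_paths`, `reachP_univ`, `ReachP.reachW`, N3/Wrap.lean). -/
def SpecSplit : Prop :=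
  ∀ {M : Type v} [MetricSpace M] [CompactSpace M] [ConnectedSpace M] {W : Type w}
    [NormedAddCommGroup W] [InnerProductSpace ℝ W] [FiniteDimensional ℝ W] {J : Emb M W}
    {f : M ≃ₜ M} (S : Split J f), S.Hyperbolic → ∀ {d : ℕ}, 1 ≤ d →
    (∀ x, Module.finrank ℝ ((S.U x).range) = d) → ∀ {C₀ a s b B κ : ℝ}, 0 ≤ C₀ → 0 < a → 0 < s →
    s ≤ b → a ≤ B → 0 ≤ κ →
    (∀ (k : ℕ) (x : M) (w : W), ‖iterD S.D f k x (S.S x w)‖ ≤ C₀ * Real.exp (-s) ^ k * ‖w‖) →
    (∀ (k : ℕ) (x : M) (w : W), ‖iterD S.Di f.symm k x (S.S x w)‖ ≤ C₀ * Real.exp b ^ k * ‖w‖) →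
    (∀ (k : ℕ) (x : M) (w : W), ‖iterD S.Di f.symm k x (S.U x w)‖ ≤ C₀ * Real.exp (-a) ^ k * ‖w‖) →
    (∀ (k : ℕ) (x : M) (w : W), ‖iterD S.D f k x (S.U x w)‖ ≤ C₀ * Real.exp B ^ k * ‖w‖) →
    ∀ U : Set M, N3.Trap f U → (frontier U).Nonempty →
    (∀ (n : ℕ), ∀ x ∈ N3.Att f U, ∀ v w : W, ‖iterD S.D f n x (S.U x v)‖ * ‖S.U x w‖ ≤
      C₀ * Real.exp κ ^ n * ‖iterD S.D f n x (S.U x w)‖ * ‖S.U x v‖) →
    ∀ rA : ℝ, 0 < rA → (∀ r, 0 < r → r ≤ rA → Attr f (N3.Att f U) r) →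
    a ^ 2 * s ≤ d ^ 2 * κ * (b * B - a * s)

/-- Module ADON: as PR.SpecAd (PR/AD.lean), for the periodic points in a trapping region. Proof: apply
`PR.SpecKal` to the compact space `A = Att f U` and the cocycle of PR/AD.lean restricted to `A`; a
periodic orbit which shadows a segment of an orbit of `A` is in `U`, so in `A` (the closing
property of PR/CLO.lean, with the distances of the points themselves: `Split.shadowing`). -/
def SpecAdOn : Prop :=
  ∀ {M : Type v} [MetricSpace M] [CompactSpace M] {W : Type w} [NormedAddCommGroup W]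
    [InnerProductSpace ℝ W] [FiniteDimensional ℝ W] {J : Emb M W} {f : M ≃ₜ M} (S : Split J f),
    S.Hyperbolic → ∀ C β : ℝ, 0 < β → β ≤ 1 → (∀ x y, ‖S.D x - S.D y‖ ≤ C * dist x y ^ β) →
      (∀ x y, ‖S.Di x - S.Di y‖ ≤ C * dist x y ^ β) →
      (∀ x y, ‖S.U x - S.U y‖ ≤ C * dist x y ^ β) →
      (∀ x y, dist (f x) (f y) ≤ C * dist x y) → ∀ U : Set M, N3.Trap f U → ∀ κ : ℝ,
      (∀ p ∈ U, ∀ (q : ℕ), 0 < q → f^[q] p = p → ∀ ε : ℝ, 0 < ε →
        ∃ C' : ℝ, ∀ (n : ℕ) (v w : W), ‖iterD S.D f n p (S.U p v)‖ * ‖S.U p w‖ ≤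
          C' * Real.exp ((κ + ε) * n) * ‖iterD S.D f n p (S.U p w)‖ * ‖S.U p v‖) →
      ∀ ε : ℝ, 0 < ε → ∃ C' : ℝ, ∀ (n : ℕ), ∀ x ∈ N3.Att f U, ∀ v w : W,
        ‖iterD S.D f n x (S.U x v)‖ * ‖S.U x w‖ ≤
          C' * Real.exp ((κ + ε) * n) * ‖iterD S.D f n x (S.U x w)‖ * ‖S.U x v‖

end Pool.Agent.Lib.MP610fe3.AC
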